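import Pool.Agent.V11321.AL.Exp
import Pool.Agent.W424.NC.Stab

/-!
Project AL: continuity of the limit of `G`.
-/

set_option autoImplicit false

namespace Pool.Agent.V11321.AL

open H974 H12S H389NS Finset Pool.Agent.Y554.NE Filter Topology

/-- The four-arm event has small probability, uniformly in the parameter. -/
theorem a4_arm {r : ℕ} (hr : 1 ≤ r) {q : ℝ} (h0 : 0 ≤ q) (h1 : q ≤ 1) :
    PQ q (boxE (4 * r)) (fun A => A4 (-((4 * r : ℕ):ℤ)) ((4 * r : ℕ):ℤ) (-((4 * r : ℕ):ℤ))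
      ((4 * r : ℕ):ℤ) (e0 true) (↑A : Set Edg)) ≤ 4 * arm (1/2) r := by
  classical
  have hL : Lam 0 0 r = boxE (4 * r) := by
    unfold Lam boxE
    congr 1 <;> push_cast <;> ring
  have herC : er ∈ H974.Cor 0 0 r := by
    unfold er H974.Cor
    rw [mem_RE_true]
    omega
  have herL : er ∈ boxE (4 * r) := by rw [← hL]; exact Cor_sub 0 0 r herC
  have e1 : PQ q (boxE (4 * r)) (fun A => A4 (-((4 * r : ℕ):ℤ)) ((4 * r : ℕ):ℤ)
      (-((4 * r : ℕ):ℤ)) ((4 * r : ℕ):ℤ) (e0 true) (↑A : Set Edg)) =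
      PQ q ((boxE (4 * r)).erase er) (fun A => A4 (-((4 * r : ℕ):ℤ)) ((4 * r : ℕ):ℤ)
      (-((4 * r : ℕ):ℤ)) ((4 * r : ℕ):ℤ) (e0 true) (↑A : Set Edg)) := by
    apply Pr_local (Finset.erase_subset _ _)
    intro F hF
    have hset : ((↑F : Set Edg) ∩ ↑(RE (-((4 * r : ℕ):ℤ)) ((4 * r : ℕ):ℤ)
        (-((4 * r : ℕ):ℤ)) ((4 * r : ℕ):ℤ))) \ {e0 true} =
        ((↑(F ∩ (boxE (4 * r)).erase er) : Set Edg) ∩ ↑(RE (-((4 * r : ℕ):ℤ)) ((4 * r : ℕ):ℤ)
        (-((4 * r : ℕ):ℤ)) ((4 * r : ℕ):ℤ))) \ {e0 true} := by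
      ext g
      simp only [Set.mem_sdiff, Set.mem_inter_iff, mem_coe, Finset.mem_inter, Finset.mem_erase,
        Set.mem_singleton_iff]
      constructor
      · rintro ⟨⟨h2, h3⟩, h4⟩
        exact ⟨⟨⟨h2, h4, hF h2⟩, h3⟩, h4⟩
      · rintro ⟨⟨⟨h2, _⟩, h3⟩, h4⟩
        exact ⟨⟨h2, h3⟩, h4⟩
    unfold A4
    rw [hset]
  rw [e1]
  have e2 : PQ q ((boxE (4 * r)).erase er) (fun A => A4 (-((4 * r : ℕ):ℤ)) ((4 * r : ℕ):ℤ)
      (-((4 * r : ℕ):ℤ)) ((4 * r : ℕ):ℤ) (e0 true) (↑A : Set Edg)) ≤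
      Pr (fun _ => q) ((Lam 0 0 r).erase er)
        (GG src tgt dsrc dtgt (BL 0 0 r) (OL 0 0 r) (Lam 0 0 r) er) := by
    rw [hL]
    apply Pr_mono (okc h0 h1)
    rintro F hF ⟨⟨w, hw, hrw⟩, ⟨w', hw', hrw'⟩, huv⟩
    have heF : er ∉ (↑F : Set Edg) := fun h => (Finset.notMem_erase er _) (hF h)
    have hFL : (↑F : Set Edg) ⊆ ↑(RE (-((4 * r : ℕ):ℤ)) ((4 * r : ℕ):ℤ)
        (-((4 * r : ℕ):ℤ)) ((4 * r : ℕ):ℤ)) := by
      intro x hx
      exact Finset.mem_coe.mpr (Finset.mem_of_mem_erase (hF (Finset.mem_coe.mp hx)))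
    have hset : ((↑F : Set Edg) ∩ ↑(RE (-((4 * r : ℕ):ℤ)) ((4 * r : ℕ):ℤ)
        (-((4 * r : ℕ):ℤ)) ((4 * r : ℕ):ℤ))) \ {e0 true} = ↑F := by
      rw [Set.inter_eq_left.2 hFL]
      exact Set.sdiff_singleton_eq_self heF
    rw [hset] at hrw hrw' huv
    have hBL : BL 0 0 r = bdR (-((4 * r : ℕ):ℤ)) ((4 * r : ℕ):ℤ)
        (-((4 * r : ℕ):ℤ)) ((4 * r : ℕ):ℤ) := by
      unfold BL
      congr 1 <;> push_cast <;> ring
    have hOL : OL 0 0 r = outF (-((4 * r : ℕ):ℤ)) ((4 * r : ℕ):ℤ)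
        (-((4 * r : ℕ):ℤ)) ((4 * r : ℕ):ℤ) := by
      unfold OL
      congr 1 <;> push_cast <;> ring
    constructor
    · refine ⟨w, by rw [hBL]; exact hw, Or.inl ?_⟩
      rw [Finset.erase_eq_of_notMem (fun h => heF h)]
      exact hrw
    · obtain ⟨g, hg, hd⟩ := dual_arm hFL (e := er) herL heF ⟨w, hw, hrw⟩ ⟨w', hw', hrw'⟩ huv
        (Or.inl ⟨rfl, rfl⟩)
      refine ⟨g, by rw [hOL]; exact hg, Or.inl ?_⟩
      have hset2 : (↑((boxE (4 * r) \ F).erase er) : Set Edg) =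
          (↑(RE (-((4 * r : ℕ):ℤ)) ((4 * r : ℕ):ℤ)
            (-((4 * r : ℕ):ℤ)) ((4 * r : ℕ):ℤ)) \ ↑F) \ {er} := by
        rw [Finset.coe_erase, Finset.coe_sdiff]
        rfl
      rw [hset2]
      exact hd
  refine e2.trans ?_
  have e3 := pr_GG_primal (P := fun _ => q) (okc h0 h1) (q1 := q) (q2 := 1 - q)
    (fun _ => le_rfl) (fun _ => le_rfl) h1 (by linarith) 0 0 herC
  refine e3.trans ?_
  have b1 := arm_nonneg h0 h1 r
  have b2 := arm_nonneg (q := 1 - q) (by linarith) (by linarith) r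
  have b3 : arm q r ≤ 1 := Pr_le_one (okc h0 h1) _ _
  have b4 : arm (1 - q) r ≤ 1 := Pr_le_one (okc (by linarith) (by linarith)) _ _
  have b5 := arm_nonneg (q := 1/2) (by norm_num) (by norm_num) r
  rcases le_total q (1/2) with h | h
  · have b6 := arm_mono_param h0 h (by norm_num) r
    nlinarith
  · have b6 := arm_mono_param (p := 1 - q) (q := 1/2) (by linarith) (by linarith)
      (by norm_num) r
    nlinarith

theorem G_step {N M : ℕ} (hN : 1 ≤ N) (hNM : N ≤ M) {q : ℝ} (h0 : 0 ≤ q) (h1 : q ≤ 1) :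
    G M q ≤ G N q + PQ q (boxE N) (fun A => A4 (-(N:ℤ)) N (-(N:ℤ)) N (e0 true) (↑A : Set Edg)) := by
  classical
  obtain ⟨O, hO⟩ : ∃ O : Finset Edg, O = boxE M \ boxE N := ⟨_, rfl⟩
  have hd : Disjoint (boxE N) O := by rw [hO]; exact Finset.disjoint_sdiff
  have hu : boxE N ∪ O = boxE M := by
    rw [hO]
    exact Finset.union_sdiff_of_subset (boxE_mono hNM)
  have e1 : G M q = Ex (fun _ => q) (boxE N) (fun A => Ex (fun _ => q) O
      (fun B => ind (Loop er (↑(A ∪ B) : Set Edg)))) := by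
    unfold G Pr
    rw [← hu, Ex_union hd]
  rw [e1]
  unfold G PQ Pr
  rw [← Ex_add]
  apply Ex_mono (okc h0 h1)
  intro A hA
  by_cases h4 : A4 (-(N:ℤ)) N (-(N:ℤ)) N (e0 true) (↑A : Set Edg)
  · rw [ind_of h4]
    have a2 := Pr_le_one (okc h0 h1) O (fun B => Loop er (↑(A ∪ B) : Set Edg))
    unfold Pr at a2
    have := ind_nonneg (Loop er (↑A : Set Edg))
    linarith
  · rw [ind_not_of h4, add_zero]
    apply Ex_le_of_le (okc h0 h1)
    intro B hB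
    apply le_of_eq
    apply ind_congr
    apply loop_local hN hA _ h4
    exact Finset.disjoint_of_subset_left hB hd.symm

theorem gg_close {r : ℕ} (hr : 1 ≤ r) {q : ℝ} (h0 : 0 ≤ q) (h1 : q ≤ 1) :
    |gg q - G (4 * r) q| ≤ 4 * arm (1/2) r := by
  have h2 : G (4 * r) q ≤ gg q := (G_mono h0 h1).ge_of_tendsto (G_tendsto h0 h1) (4 * r)
  have h3 : gg q ≤ G (4 * r) q + 4 * arm (1/2) r := by
    apply le_of_tendsto (G_tendsto h0 h1)
    filter_upwards [eventually_ge_atTop (4 * r)] with M hM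
    exact (G_step (by omega) hM h0 h1).trans (add_le_add le_rfl (a4_arm hr h0 h1))
  rw [abs_of_nonneg (by linarith)]
  linarith

theorem arm_half_tendsto : Tendsto (fun r : ℕ => arm (1/2) r) atTop (𝓝 0) := by
  obtain ⟨c, C, hc, hC, h⟩ := Pool.Agent.W424.NC.arm_crit
  have h1 : Tendsto (fun r : ℕ => C * (r:ℝ) ^ (-(5/48) : ℝ)) atTop (𝓝 (C * 0)) := by
    apply Tendsto.const_mul
    exact (tendsto_rpow_neg_atTop (by norm_num : (0:ℝ) < 5/48)).comp tendsto_natCast_atTop_atTop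
  rw [mul_zero] at h1
  refine tendsto_of_tendsto_of_tendsto_of_le_of_le' tendsto_const_nhds h1 ?_ ?_
  · exact Eventually.of_forall fun r => arm_nonneg (by norm_num) (by norm_num) r
  · filter_upwards [eventually_ge_atTop 1] with r hr
    exact (h r hr).2

theorem G_cont (M : ℕ) : Continuous (fun q => G M q) := by
  unfold G Pr Ex
  fun_prop

theorem gg_cont : ContinuousOn gg (Set.Icc 0 1) := by
  have hu : TendstoUniformlyOn (fun (r : ℕ) q => G (4 * r) q) gg atTop (Set.Icc 0 1) := by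
    rw [Metric.tendstoUniformlyOn_iff]
    intro ε hε
    have h1 : Tendsto (fun r : ℕ => 4 * arm (1/2) r) atTop (𝓝 (4 * 0)) :=
      arm_half_tendsto.const_mul 4
    rw [mul_zero] at h1
    filter_upwards [h1.eventually (gt_mem_nhds hε), eventually_ge_atTop 1] with r h2 h3 q hq
    rw [Real.dist_eq]
    exact (gg_close h3 hq.1 hq.2).trans_lt h2
  exact hu.continuousOn (Eventually.of_forall fun r => (G_cont (4 * r)).continuousOn).frequently

end Pool.Agent.V11321.AL
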