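import Pool.Agent.V11321.AL.Stm
import Pool.Agent.Y381.SN.Bulk

/-!
Project AL: joint pivotality. If an annulus separates a part of `insert er S` from the rest, then
it is crossed by four arms, unless the Walsh coefficient of `S` vanishes.
-/

set_option autoImplicit false

namespace Pool.Agent.V11321.AL

open H974 H12S H389NS Finset Pool.Agent.Y554.NE Pool.Agent.Y554.SN

/-- outside the open square of radius `r` around `c` -/
def far (c : ℤ × ℤ) (r : ℕ) (x : Vtx) : Prop :=
  x.1 ≤ c.1 - r ∨ c.1 + r ≤ x.1 ∨ x.2 ≤ c.2 - r ∨ c.2 + r ≤ x.2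

/-- inside the closed square -/
def ins (c : ℤ × ℤ) (r : ℕ) (x : Vtx) : Prop := inR (c.1 - r) (c.1 + r) (c.2 - r) (c.2 + r) x

theorem far_of_not {c : ℤ × ℤ} {r : ℕ} {e : Edg} (he : e ∉ blk c r) :
    far c r (src e) ∧ far c r (tgt e) := by
  obtain ⟨x, y, _ | _⟩ := e
  · unfold blk at he
    rw [mem_RE_false] at he
    unfold far
    simp only [src_mk, tgt_false]
    omega
  · unfold blk at he
    rw [mem_RE_true] at he
    unfold far
    simp only [src_mk, tgt_true]
    omega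

/-- entering a square -/
theorem enter {c : ℤ × ℤ} {r : ℕ} {G : Set Edg} {w x : Vtx} (hw : far c r w) (h : Reach G w x)
    (hx : ins c r x) : ∃ v ∈ bdB c r, Reach (G \ ↑(blk c r)) w v := by
  have key : ∀ y, Reach G w y → (∃ v ∈ bdB c r, Reach (G \ ↑(blk c r)) w v) ∨
      (¬ ins c r y ∧ Reach (G \ ↑(blk c r)) w y) := by
    intro y hy
    induction hy with
    | refl =>
      by_cases h1 : ins c r w
      · left
        refine ⟨w, S4C_bdB_of h1 ?_, Reach.refl _ _⟩
        unfold ins inR at h1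
        unfold far at hw
        omega
      · exact Or.inr ⟨h1, Reach.refl _ _⟩
    | @tail y z _ hs ih =>
      rcases ih with ih | ⟨h1, h2⟩
      · exact Or.inl ih
      · obtain ⟨e, he, hcase⟩ := hs
        have heb : e ∉ blk c r := by
          intro hb
          have := BS_adj_box hb
          rcases hcase with ⟨h3, _⟩ | ⟨_, h3⟩
          · exact h1 (h3 ▸ this.1)
          · exact h1 (h3 ▸ this.2)
        have hz : Reach (G \ ↑(blk c r)) w z :=
          h2.trans (Adj.reach ⟨e, ⟨he, by exact_mod_cast heb⟩, hcase⟩)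
        by_cases h4 : ins c r z
        · left
          refine ⟨z, S4C_bdB_of h4 ?_, hz⟩
          have hf := far_of_not heb
          have hzf : far c r z := by
            rcases hcase with ⟨_, h3⟩ | ⟨h3, _⟩
            · exact h3 ▸ hf.2
            · exact h3 ▸ hf.1
          unfold ins inR at h4
          unfold far at hzf
          omega
        · exact Or.inr ⟨h4, hz⟩
  rcases key x h with h1 | ⟨h1, _⟩
  · exact h1
  · exact absurd hx h1

/-- leaving a square -/
theorem leave {c : ℤ × ℤ} {D : ℕ} {H : Set Edg} {x v : Vtx} (hx : ins c D x) (h : Reach H x v) :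
    Reach (H ∩ ↑(blk c D)) x v ∨ ∃ w ∈ bdB c D, Reach (H ∩ ↑(blk c D)) x w := by
  induction h with
  | refl => exact Or.inl (Reach.refl _ _)
  | @tail y z hy hs ih =>
    rcases ih with ih | ih
    · obtain ⟨e, he, hcase⟩ := hs
      by_cases heb : e ∈ blk c D
      · exact Or.inl (ih.trans (Adj.reach ⟨e, ⟨he, by exact_mod_cast heb⟩, hcase⟩))
      · right
        have hf := far_of_not heb
        have hyf : far c D y := by
          rcases hcase with ⟨h3, _⟩ | ⟨_, h3⟩
          · exact h3 ▸ hf.1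
          · exact h3 ▸ hf.2
        obtain ⟨w, h1, h2, h3⟩ := first_exit hx hy hyf
        exact ⟨w, S4C_bdB_of h1 h2, h3⟩
    · exact Or.inr ih

theorem A4a_congr {c : ℤ × ℤ} {r D : ℕ} {F G : Set Edg}
    (h : F ∩ ↑(blk c D \ blk c r) = G ∩ ↑(blk c D \ blk c r)) : A4a c r D F ↔ A4a c r D G := by
  unfold A4a
  rw [h]

/-- If the annulus is not crossed by four arms, the edges inside do not matter outside. -/
theorem bypassA {c : ℤ × ℤ} {r D : ℕ} (hrD : r ≤ D) {H : Set Edg} (hn : ¬ A4a c r D H)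
    {x y : Vtx} (hx : far c D x) (hy : far c D y) (h : Reach (H ∪ ↑(blk c r)) x y) :
    Reach (H \ ↑(blk c r)) x y := by
  by_contra hno
  have hxr : x.1 ≤ c.1 - r ∨ c.1 + r ≤ x.1 ∨ x.2 ≤ c.2 - r ∨ c.2 + r ≤ x.2 := by
    unfold far at hx; omega
  have hyr : y.1 ≤ c.1 - r ∨ c.1 + r ≤ y.1 ∨ y.2 ≤ c.2 - r ∨ c.2 + r ≤ y.2 := by
    unfold far at hy; omega
  obtain ⟨w1, hw1, r1⟩ := (bulk_enter hxr h).resolve_left hno
  obtain ⟨w2, hw2, r2⟩ := (bulk_enter hyr h.symm).resolve_left (fun hc => hno hc.symm)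
  obtain ⟨v1, a1, a2, a3⟩ := first_exit (S4C_bdB_inR hrD hw1) r1.symm hx
  obtain ⟨v2, b1, b2, b3⟩ := first_exit (S4C_bdB_inR hrD hw2) r2.symm hy
  have hsub : (H \ ↑(blk c r)) ∩ ↑(RE (c.1 - D) (c.1 + D) (c.2 - D) (c.2 + D)) ⊆
      H ∩ ↑(blk c D \ blk c r) := by
    rintro e ⟨⟨g1, g2⟩, g3⟩
    exact ⟨g1, mem_coe.2 (Finset.mem_sdiff.2 ⟨mem_coe.1 g3, fun hb => g2 (mem_coe.2 hb)⟩)⟩
  have hsub2 : H ∩ ↑(blk c D \ blk c r) ⊆ H \ ↑(blk c r) := by
    rintro e ⟨g1, g2⟩
    exact ⟨g1, fun hb => (Finset.mem_sdiff.1 (mem_coe.1 g2)).2 (mem_coe.1 hb)⟩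
  by_cases hc : Reach (H ∩ ↑(blk c D \ blk c r)) w1 w2
  · exact hno (r1.trans ((hc.mono hsub2).trans r2.symm))
  · exact hn ⟨w1, hw1, w2, hw2, ⟨v1, S4C_bdB_of a1 a2, a3.mono hsub⟩,
      ⟨v2, S4C_bdB_of b1 b2, b3.mono hsub⟩, hc⟩

/-- If the annulus is not crossed by four arms, the edges outside do not matter inside. -/
theorem bypassB {c : ℤ × ℤ} {r D : ℕ} (hrD : r ≤ D) {H : Set Edg} (hn : ¬ A4a c r D H)
    {x y : Vtx} (hx : ins c r x) (hy : ins c r y) (h : Reach H x y) :
    Reach (H ∩ ↑(blk c D)) x y := by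
  by_contra hno
  have hxD : ins c D x := by unfold ins inR at hx ⊢; omega
  have hyD : ins c D y := by unfold ins inR at hy ⊢; omega
  obtain ⟨w1, hw1, r1⟩ := (leave hxD h).resolve_left hno
  obtain ⟨w2, hw2, r2⟩ := (leave hyD h.symm).resolve_left (fun hc => hno hc.symm)
  have hfar : ∀ {w : Vtx}, w ∈ bdB c D → far c r w := fun {w} hw => S4C_bdB_far hrD hw
  obtain ⟨v1, hv1, s1⟩ := enter (hfar hw1) r1.symm hx
  obtain ⟨v2, hv2, s2⟩ := enter (hfar hw2) r2.symm hy
  have hsub : (H ∩ ↑(blk c D)) \ ↑(blk c r) ⊆ H ∩ ↑(blk c D \ blk c r) := by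
    rintro e ⟨⟨g1, g2⟩, g3⟩
    exact ⟨g1, mem_coe.2 (Finset.mem_sdiff.2 ⟨mem_coe.1 g2, fun hb => g3 (mem_coe.2 hb)⟩)⟩
  have hsub2 : H ∩ ↑(blk c D \ blk c r) ⊆ H ∩ ↑(blk c D) := by
    rintro e ⟨g1, g2⟩
    exact ⟨g1, mem_coe.2 (Finset.mem_sdiff.1 (mem_coe.1 g2)).1⟩
  have hsub3 : (H ∩ ↑(blk c D)) \ ↑(blk c r) ⊆ H ∩ ↑(blk c D) := Set.sdiff_subset
  by_cases hc : Reach (H ∩ ↑(blk c D \ blk c r)) v1 v2
  · exact hno (r1.trans ((s1.mono hsub3).trans ((hc.mono hsub2).trans
      ((s2.mono hsub3).symm.trans r2.symm))))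
  · exact hn ⟨v1, hv1, v2, hv2, ⟨w1, hw1, (s1.mono hsub).symm⟩, ⟨w2, hw2, (s2.mono hsub).symm⟩, hc⟩

/-- Every annulus which separates two parts of `S` is crossed by four arms. -/
def QK (S F : Finset Edg) : Prop := ∀ (c : ℤ × ℤ) (r D : ℕ) (U : Finset Edg), r ≤ D →
  U ⊆ S → U.Nonempty → (S \ U).Nonempty → U ⊆ blk c r → Disjoint (S \ U) (blk c D) →
    A4a c r D (↑F : Set Edg)

theorem QK_congr {S F F' : Finset Edg} (h : ∀ e, e ∉ S → (e ∈ F ↔ e ∈ F')) (hQ : QK S F) :
    QK S F' := by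
  intro c r D U hrD hU hne hne' hUb hd
  refine (A4a_congr ?_).1 (hQ c r D U hrD hU hne hne' hUb hd)
  ext g
  simp only [Set.mem_inter_iff, mem_coe, Finset.mem_sdiff]
  have hg : g ∈ blk c D ∧ g ∉ blk c r → g ∉ S := by
    rintro ⟨h1, h2⟩ h3
    by_cases hgU : g ∈ U
    · exact h2 (hUb hgU)
    · exact (Finset.disjoint_left.1 hd) (Finset.mem_sdiff.2 ⟨h3, hgU⟩) h1
  constructor
  · rintro ⟨h1, h2⟩
    exact ⟨(h g (hg h2)).1 h1, h2⟩
  · rintro ⟨h1, h2⟩
    exact ⟨(h g (hg h2)).2 h1, h2⟩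

/-- Without joint pivotality some edge does not matter. -/
theorem inert {S F : Finset Edg} (her : er ∉ S) (hQ : ¬ QK (insert er S) F) :
    ∃ e ∈ S, ∀ T ⊆ S.erase e, (Loop er (↑(F \ S ∪ insert e T) : Set Edg) ↔
      Loop er (↑(F \ S ∪ T) : Set Edg)) := by
  unfold QK at hQ
  push Not at hQ
  obtain ⟨c, r, D, U, hrD, hU, hne, hne', hUb, hd, hn⟩ := hQ
  have hann : ∀ g, g ∈ blk c D → g ∉ blk c r → g ∉ insert er S := by
    intro g h1 h2 h3
    by_cases hgU : g ∈ U
    · exact h2 (hUb hgU)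
    · exact (Finset.disjoint_left.1 hd) (Finset.mem_sdiff.2 ⟨h3, hgU⟩) h1
  have hsame : ∀ T ⊆ S, ¬ A4a c r D ((↑(F \ S ∪ T) : Set Edg) \ {er}) := by
    intro T hT hA
    apply hn
    refine (A4a_congr ?_).1 hA
    ext g
    simp only [Set.mem_inter_iff, mem_coe, Finset.mem_sdiff, Set.mem_sdiff, Finset.mem_union,
      Set.mem_singleton_iff]
    constructor
    · rintro ⟨⟨h1 | h1, h2⟩, h3⟩
      · exact ⟨h1.1, h3⟩
      · exact absurd (Finset.mem_insert_of_mem (hT h1)) (hann g h3.1 h3.2)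
    · rintro ⟨h1, h3⟩
      have h4 := hann g h3.1 h3.2
      rw [Finset.mem_insert, not_or] at h4
      exact ⟨⟨Or.inl ⟨h1, h4.2⟩, h4.1⟩, h3⟩
  have hmono : ∀ (e : Edg) (T : Finset Edg), Loop er (↑(F \ S ∪ T) : Set Edg) →
      Loop er (↑(F \ S ∪ insert e T) : Set Edg) := by
    intro e T h
    refine Reach.mono ?_ h
    apply Set.sdiff_subset_sdiff_left
    exact_mod_cast Finset.union_subset_union_right (Finset.subset_insert _ _)
  by_cases hrU : er ∈ U
  · obtain ⟨e, he⟩ := hne'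
    have heS' := (Finset.mem_sdiff.1 he).1
    have heU := (Finset.mem_sdiff.1 he).2
    have hee : e ≠ er := fun h => heU (h ▸ hrU)
    have heS : e ∈ S := (Finset.mem_insert.1 heS').resolve_left hee
    have heD : e ∉ blk c D := (Finset.disjoint_left.1 hd) he
    refine ⟨e, heS, fun T hT => ⟨fun h => ?_, hmono e T⟩⟩
    have hTS : insert e T ⊆ S := Finset.insert_subset heS (hT.trans (Finset.erase_subset _ _))
    have hb := BS_adj_box (hUb hrU)
    have h1 := bypassB hrD (hsame _ hTS) hb.1 hb.2 h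
    refine Reach.mono ?_ h1
    rintro g ⟨⟨g1, g2⟩, g3⟩
    refine ⟨?_, g2⟩
    simp only [mem_coe, Finset.mem_union, Finset.mem_insert] at g1 ⊢
    rcases g1 with g1 | g1 | g1
    · exact Or.inl g1
    · exact absurd (g1 ▸ mem_coe.1 g3) heD
    · exact Or.inr g1
  · obtain ⟨e, he⟩ := hne
    have hee : e ≠ er := fun h => hrU (h ▸ he)
    have heS : e ∈ S := (Finset.mem_insert.1 (hU he)).resolve_left hee
    have her' : er ∈ insert er S \ U := Finset.mem_sdiff.2 ⟨Finset.mem_insert_self _ _, hrU⟩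
    have herD : er ∉ blk c D := (Finset.disjoint_left.1 hd) her'
    refine ⟨e, heS, fun T hT => ⟨fun h => ?_, hmono e T⟩⟩
    have hTS : insert e T ⊆ S := Finset.insert_subset heS (hT.trans (Finset.erase_subset _ _))
    have hb := far_of_not herD
    have h1 := bypassA hrD (hsame _ hTS) hb.1 hb.2 (h.mono Set.subset_union_left)
    refine Reach.mono ?_ h1
    rintro g ⟨⟨g1, g2⟩, g3⟩
    refine ⟨?_, g2⟩
    simp only [mem_coe, Finset.mem_union, Finset.mem_insert] at g1 ⊢
    rcases g1 with g1 | g1 | g1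
    · exact Or.inl g1
    · exact absurd (mem_coe.2 (g1 ▸ hUb he)) g3
    · exact Or.inr g1

theorem okh : Ok (fun _ : Edg => (1 / 2 : ℝ)) := fun _ => by norm_num

/-- The sign of a configuration. -/
noncomputable def sg (S F : Finset Edg) : ℝ := ∏ e ∈ S, (if e ∈ F then (1:ℝ) else -1)

theorem abs_sg (S F : Finset Edg) : |sg S F| = 1 := by
  unfold sg
  rw [Finset.abs_prod]
  apply Finset.prod_eq_one
  intro e _
  split_ifs <;> simp

/-- A function which does not depend on an edge has a vanishing coefficient. -/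
theorem Ex_sg_zero {S : Finset Edg} {e : Edg} (he : e ∈ S) (φ : Finset Edg → ℝ)
    (h : ∀ T ⊆ S.erase e, φ (insert e T) = φ T) :
    Ex (fun _ => (1/2:ℝ)) S (fun T => sg S T * φ T) = 0 := by
  have hS : S = insert e (S.erase e) := (Finset.insert_erase he).symm
  have hne : e ∉ S.erase e := Finset.notMem_erase e S
  have h1 : Ex (fun _ => (1/2:ℝ)) S (fun T => sg S T * φ T) =
      (1/2) * Ex (fun _ => (1/2:ℝ)) (S.erase e) (fun T => sg S (insert e T) * φ (insert e T)) +
      (1 - 1/2) * Ex (fun _ => (1/2:ℝ)) (S.erase e) (fun T => sg S T * φ T) := by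
    conv_lhs => rw [hS]
    rw [Ex_insert _ hne, Finset.insert_erase he]
  have h2 : Ex (fun _ => (1/2:ℝ)) (S.erase e) (fun T => sg S (insert e T) * φ (insert e T)) =
      Ex (fun _ => (1/2:ℝ)) (S.erase e) (fun T => (-1) * (sg S T * φ T)) := by
    apply Ex_congr
    intro T hT
    rw [h T hT]
    have heT : e ∉ T := fun hh => hne (hT hh)
    have h3 : sg S (insert e T) = -sg S T := by
      unfold sg
      rw [← Finset.mul_prod_erase S _ he, ← Finset.mul_prod_erase S _ he]
      rw [if_pos (Finset.mem_insert_self _ _), if_neg heT]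
      have h4 : ∏ x ∈ S.erase e, (if x ∈ insert e T then (1:ℝ) else -1) =
          ∏ x ∈ S.erase e, (if x ∈ T then (1:ℝ) else -1) := by
        apply Finset.prod_congr rfl
        intro x hx
        have hxe : x ≠ e := Finset.ne_of_mem_erase hx
        simp [Finset.mem_insert, hxe]
      rw [h4]
      ring
    rw [h3]
    ring
  rw [h1, h2, Ex_mul_left]
  ring

/-- **Walsh coefficients and joint pivotality.** -/
theorem cf_le (M : ℕ) {S : Finset Edg} (hS : S ⊆ boxE M) (her : er ∉ S) :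
    |cf M S| ≤ PQ (1/2) (boxE M) (QK (insert er S)) := by
  classical
  obtain ⟨O, hO⟩ : ∃ O : Finset Edg, O = boxE M \ S := ⟨_, rfl⟩
  have hd : Disjoint O S := by rw [hO]; exact Finset.sdiff_disjoint
  have hu : O ∪ S = boxE M := by rw [hO]; exact Finset.sdiff_union_of_subset hS
  have h1 : cf M S = Ex (fun _ => (1/2:ℝ)) O (fun A => Ex (fun _ => (1/2:ℝ)) S
      (fun T => sg S T * ind (Loop er (↑(A ∪ T) : Set Edg)))) := by
    unfold cf
    rw [← hu, Ex_union hd]
    apply Ex_congr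
    intro A hA
    apply Ex_congr
    intro T hT
    congr 1
    unfold sg
    apply Finset.prod_congr rfl
    intro e he
    have : e ∉ A := fun h => (Finset.disjoint_left.1 hd) (hA h) he
    simp [Finset.mem_union, this]
  have h2 : ∀ A, A ⊆ O → |Ex (fun _ => (1/2:ℝ)) S
      (fun T => sg S T * ind (Loop er (↑(A ∪ T) : Set Edg)))| ≤ ind (QK (insert er S) A) := by
    intro A hA
    by_cases hQ : QK (insert er S) A
    · rw [ind_of hQ, abs_le]
      have hb : ∀ T, T ⊆ S → -1 ≤ sg S T * ind (Loop er (↑(A ∪ T) : Set Edg)) ∧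
          sg S T * ind (Loop er (↑(A ∪ T) : Set Edg)) ≤ 1 := by
        intro T _
        have h3 : |sg S T * ind (Loop er (↑(A ∪ T) : Set Edg))| ≤ 1 := by
          rw [abs_mul, abs_sg, one_mul, abs_of_nonneg (ind_nonneg _)]
          exact ind_le_one _
        exact abs_le.1 h3
      constructor
      · have := Ex_mono okh (S := S) (f := fun _ => (-1:ℝ))
          (g := fun T => sg S T * ind (Loop er (↑(A ∪ T) : Set Edg))) (fun T hT => (hb T hT).1)
        rwa [Ex_const] at this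
      · exact Ex_le_of_le okh (fun T hT => (hb T hT).2)
    · rw [ind_not_of hQ]
      obtain ⟨e, he, hT⟩ := inert her hQ
      have hAS : A \ S = A := by
        rw [Finset.sdiff_eq_self_iff_disjoint]
        exact Finset.disjoint_of_subset_left hA hd
      rw [hAS] at hT
      have h3 := Ex_sg_zero he (fun T => ind (Loop er (↑(A ∪ T) : Set Edg)))
        (fun T hTs => ind_congr (hT T hTs))
      rw [h3, abs_zero]
  rw [h1]
  have h3 : |Ex (fun _ => (1/2:ℝ)) O (fun A => Ex (fun _ => (1/2:ℝ)) S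
      (fun T => sg S T * ind (Loop er (↑(A ∪ T) : Set Edg))))| ≤
      Ex (fun _ => (1/2:ℝ)) O (fun A => ind (QK (insert er S) A)) := by
    rw [abs_le]
    constructor
    · have h4 := Ex_mono okh (S := O) (f := fun A => (-1) * ind (QK (insert er S) A))
        (g := fun A => Ex (fun _ => (1/2:ℝ)) S
          (fun T => sg S T * ind (Loop er (↑(A ∪ T) : Set Edg))))
        (fun A hA => by have := (abs_le.1 (h2 A hA)).1; linarith)
      rw [Ex_mul_left] at h4
      linarith
    · exact Ex_mono okh (fun A hA => (abs_le.1 (h2 A hA)).2)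
  refine h3.trans (le_of_eq ?_)
  symm
  show Pr _ (boxE M) (QK (insert er S)) = Pr _ O (QK (insert er S))
  apply Pr_local (by rw [hO]; exact Finset.sdiff_subset)
  intro F hF
  have hiff : ∀ e, e ∉ insert er S → (e ∈ F ↔ e ∈ F ∩ O) := by
    intro e he
    rw [Finset.mem_insert, not_or] at he
    rw [Finset.mem_inter, hO, Finset.mem_sdiff]
    constructor
    · intro h; exact ⟨h, hF h, he.2⟩
    · intro h; exact h.1
  exact ⟨QK_congr hiff, QK_congr (fun e he => (hiff e he).symm)⟩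

end Pool.Agent.V11321.AL
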