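import Pool.Agent.V11321.AL.Det
import Pool.Agent.W424.NC.NearC

/-!
Project AL: the effect of the parameter outside of a box.
-/

set_option autoImplicit false

namespace Pool.Agent.V11321.AL

open H974 H12S H389NS Finset Pool.Agent.Y554.NE Pool.Agent.Y554.SN

theorem bdB_bdR {N : ℕ} {w : Vtx} (h : w ∈ bdB (0, 0) N) : w ∈ bdR (-(N:ℤ)) N (-(N:ℤ)) N := by
  have h1 := S4C_bdB_inR (le_refl N) h
  have h2 := S4C_bdB_far (le_refl N) h
  unfold inR at h1
  simp only [zero_sub, zero_add] at h1 h2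
  refine ⟨h1, ?_⟩
  omega

theorem loop_local {N : ℕ} (hN : 1 ≤ N) {A B : Finset Edg} (hA : A ⊆ boxE N)
    (hB : Disjoint B (boxE N)) (h4 : ¬ A4 (-(N:ℤ)) N (-(N:ℤ)) N (e0 true) (↑A : Set Edg)) :
    Loop er (↑(A ∪ B) : Set Edg) ↔ Loop er (↑A : Set Edg) := by
  constructor
  · intro h
    by_contra hno
    apply h4
    have hblk : blk (0, 0) N = boxE N := S4C_blk0 N
    have hset : ((↑(A ∪ B) : Set Edg) \ {er}) ∩ ↑(blk (0, 0) N) = (↑A : Set Edg) \ {er} := by
      rw [hblk]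
      ext g
      simp only [Set.mem_inter_iff, Set.mem_sdiff, mem_coe, Finset.mem_union,
        Set.mem_singleton_iff]
      constructor
      · rintro ⟨⟨h1 | h1, h2⟩, h3⟩
        · exact ⟨h1, h2⟩
        · exact absurd h3 (Finset.disjoint_left.1 hB h1)
      · rintro ⟨h1, h2⟩
        exact ⟨⟨Or.inl h1, h2⟩, hA h1⟩
    have hsrc : ins (0, 0) N (src er) := by
      unfold ins inR er
      simp only [src_mk]
      omega
    have htgt : ins (0, 0) N (tgt er) := by
      unfold ins inR er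
      simp only [tgt_true]
      omega
    have hset2 : ((↑A : Set Edg) ∩ ↑(RE (-(N:ℤ)) N (-(N:ℤ)) N)) \ {e0 true} =
        (↑A : Set Edg) \ {er} := by
      ext g
      simp only [Set.mem_inter_iff, Set.mem_sdiff, mem_coe, Set.mem_singleton_iff]
      constructor
      · rintro ⟨⟨h1, h2⟩, h3⟩
        exact ⟨h1, h3⟩
      · rintro ⟨h1, h3⟩
        exact ⟨⟨h1, hA h1⟩, h3⟩
    have h1 := leave hsrc h
    have h2 := leave htgt h.symm
    rw [hset] at h1 h2
    obtain ⟨w1, hw1, r1⟩ := h1.resolve_left hno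
    obtain ⟨w2, hw2, r2⟩ := h2.resolve_left (fun hc => hno hc.symm)
    unfold A4
    rw [hset2]
    exact ⟨⟨w1, bdB_bdR hw1, r1⟩, ⟨w2, bdB_bdR hw2, r2⟩, hno⟩
  · intro h
    refine Reach.mono ?_ h
    apply Set.sdiff_subset_sdiff_left
    exact_mod_cast Finset.subset_union_left

/-- **The parameter outside of the box of radius `N`.** -/
theorem outW : S_OUTK := by
  classical
  obtain ⟨κ, b, c, C, hκ, hb, hc, hC, hnear⟩ := Pool.Agent.W424.NC.nearS
  refine ⟨min b (1/2), C, lt_min hb (by norm_num), hC, ?_⟩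
  intro N M h hN hNM hh
  have hN1 : (1:ℝ) ≤ N := by exact_mod_cast hN
  have hN0 : (0:ℝ) < N := by linarith
  have hp0 : 0 < (N:ℝ) ^ (-(3/4) : ℝ) := by positivity
  have hp1 : (N:ℝ) ^ (-(3/4) : ℝ) ≤ 1 := Real.rpow_le_one_of_one_le_of_nonpos hN1 (by norm_num)
  have hh2 : |h| ≤ 1/2 := by
    refine hh.trans ?_
    calc min b (1/2) * (N:ℝ) ^ (-(3/4) : ℝ) ≤ (1/2) * 1 :=
          mul_le_mul (min_le_right _ _) hp1 hp0.le (by norm_num)
      _ = 1/2 := by norm_num
  have hab := abs_le.1 hh2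
  obtain ⟨q, hq⟩ : ∃ q : ℝ, q = 1/2 + h := ⟨_, rfl⟩
  have hq0 : 0 ≤ q := by rw [hq]; linarith
  have hq1 : q ≤ 1 := by rw [hq]; linarith
  have ha4 : a4 q N ≤ C * (N:ℝ) ^ (-(5/4) : ℝ) := by
    have h1 := hnear N hN q (by
      rw [hq, add_sub_cancel_left]
      exact hh.trans (mul_le_mul_of_nonneg_right (min_le_left _ _) hp0.le))
    exact (h1.2 N hN le_rfl).2
  obtain ⟨O, hO⟩ : ∃ O : Finset Edg, O = boxE M \ boxE N := ⟨_, rfl⟩
  have hd : Disjoint (boxE N) O := by rw [hO]; exact Finset.disjoint_sdiff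
  have hu : boxE N ∪ O = boxE M := by
    rw [hO]
    exact Finset.union_sdiff_of_subset (boxE_mono hNM)
  have okq : Ok (fun _ : Edg => q) := fun _ => ⟨hq0, hq1⟩
  have e1 : G M (1/2 + h) = Ex (fun _ => q) (boxE N) (fun A => Ex (fun _ => q) O
      (fun B => ind (Loop er (↑(A ∪ B) : Set Edg)))) := by
    unfold G Pr
    rw [← hq, ← hu, Ex_union hd]
  have e2 : AN N M h = Ex (fun _ => q) (boxE N) (fun A => Ex (fun _ => (1/2:ℝ)) O
      (fun B => ind (Loop er (↑(A ∪ B) : Set Edg)))) := by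
    unfold AN
    rw [← hq, ← hu, Ex_union hd]
    rw [S4C_Ex_congr_p (p' := fun _ => q) (fun e he => by rw [if_pos he])]
    apply Ex_congr
    intro A _
    apply S4C_Ex_congr_p
    intro e he
    rw [if_neg (fun h' => (Finset.disjoint_left.1 hd) h' he)]
  rw [e1, e2, ← Ex_sub]
  have hpt : ∀ A, A ⊆ boxE N → |Ex (fun _ => q) O (fun B => ind (Loop er (↑(A ∪ B) : Set Edg))) -
      Ex (fun _ => (1/2:ℝ)) O (fun B => ind (Loop er (↑(A ∪ B) : Set Edg)))| ≤
      ind (A4 (-(N:ℤ)) N (-(N:ℤ)) N (e0 true) (↑A : Set Edg)) := by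
    intro A hA
    by_cases h4 : A4 (-(N:ℤ)) N (-(N:ℤ)) N (e0 true) (↑A : Set Edg)
    · rw [ind_of h4, abs_le]
      have a1 := Pr_nonneg okq O (fun B => Loop er (↑(A ∪ B) : Set Edg))
      have a2 := Pr_le_one okq O (fun B => Loop er (↑(A ∪ B) : Set Edg))
      have a3 := Pr_nonneg okh O (fun B => Loop er (↑(A ∪ B) : Set Edg))
      have a4' := Pr_le_one okh O (fun B => Loop er (↑(A ∪ B) : Set Edg))
      unfold Pr at a1 a2 a3 a4'
      constructor <;> linarith
    · rw [ind_not_of h4]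
      have hc' : ∀ B, B ⊆ O → ind (Loop er (↑(A ∪ B) : Set Edg)) = ind (Loop er (↑A : Set Edg)) := by
        intro B hB
        apply ind_congr
        apply loop_local hN hA _ h4
        exact Finset.disjoint_of_subset_left hB hd.symm
      rw [Ex_congr hc', Ex_const, Ex_congr hc', Ex_const, sub_self, abs_zero]
  have hle : |Ex (fun _ => q) (boxE N) (fun A =>
      Ex (fun _ => q) O (fun B => ind (Loop er (↑(A ∪ B) : Set Edg))) -
      Ex (fun _ => (1/2:ℝ)) O (fun B => ind (Loop er (↑(A ∪ B) : Set Edg))))| ≤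
      PQ q (boxE N) (fun A => A4 (-(N:ℤ)) N (-(N:ℤ)) N (e0 true) (↑A : Set Edg)) := by
    rw [abs_le]
    constructor
    · have h5 := Ex_mono okq (S := boxE N)
        (f := fun A => (-1) * ind (A4 (-(N:ℤ)) N (-(N:ℤ)) N (e0 true) (↑A : Set Edg)))
        (g := fun A => Ex (fun _ => q) O (fun B => ind (Loop er (↑(A ∪ B) : Set Edg))) -
          Ex (fun _ => (1/2:ℝ)) O (fun B => ind (Loop er (↑(A ∪ B) : Set Edg))))
        (fun A hA => by have := (abs_le.1 (hpt A hA)).1; linarith)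
      rw [Ex_mul_left] at h5
      unfold PQ Pr
      linarith
    · exact Ex_mono okq (fun A hA => (abs_le.1 (hpt A hA)).2)
  refine hle.trans (le_trans ?_ ha4)
  unfold a4
  have := Pr_nonneg okq (boxE N) (fun F => A4 (-(N:ℤ)) N (-(N:ℤ)) N (e0 false) (↑F : Set Edg))
  unfold PQ
  linarith

end Pool.Agent.V11321.AL
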