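import Pool.Agent.V11321.AL.Key
import Pool.Agent.V11321.AL.Out

/-!
Project AL: the expansion of the limit of `G`.
-/

set_option autoImplicit false

namespace Pool.Agent.V11321.AL

open H974 H12S H389NS Finset Pool.Agent.Y554.NE Filter Topology

theorem loop_incr (S : Finset Edg) : IncrE S (fun F => Loop er (↑F : Set Edg)) := by
  intro F F' h _ hF
  exact Reach.mono (Set.sdiff_subset_sdiff_left (by exact_mod_cast h)) hF

theorem okc {q : ℝ} (h0 : 0 ≤ q) (h1 : q ≤ 1) : Ok (fun _ : Edg => q) := fun _ => ⟨h0, h1⟩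

theorem G_nonneg {q : ℝ} (h0 : 0 ≤ q) (h1 : q ≤ 1) (M : ℕ) : 0 ≤ G M q :=
  Pr_nonneg (okc h0 h1) _ _

theorem G_le_one {q : ℝ} (h0 : 0 ≤ q) (h1 : q ≤ 1) (M : ℕ) : G M q ≤ 1 :=
  Pr_le_one (okc h0 h1) _ _

theorem G_mono {q : ℝ} (h0 : 0 ≤ q) (h1 : q ≤ 1) : Monotone (fun M => G M q) := by
  intro M M' h
  exact Pr_mono_set (okc h0 h1) (boxE_mono h) (loop_incr _)

/-- The probability that the ends of the root edge are connected off the edge. -/
noncomputable def gg (q : ℝ) : ℝ := ⨆ M : ℕ, G M q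

theorem G_tendsto {q : ℝ} (h0 : 0 ≤ q) (h1 : q ≤ 1) :
    Tendsto (fun M : ℕ => G M q) atTop (𝓝 (gg q)) :=
  tendsto_atTop_ciSup (G_mono h0 h1) ⟨1, by rintro _ ⟨M, rfl⟩; exact G_le_one h0 h1 M⟩

theorem gg_mem {q : ℝ} (h0 : 0 ≤ q) (h1 : q ≤ 1) : 0 ≤ gg q ∧ gg q ≤ 1 :=
  ⟨ge_of_tendsto' (G_tendsto h0 h1) (fun M => G_nonneg h0 h1 M),
    le_of_tendsto' (G_tendsto h0 h1) (fun M => G_le_one h0 h1 M)⟩

theorem cf_empty (M : ℕ) : cf M ∅ = G M (1/2) := by
  unfold cf G Pr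
  simp

theorem cf_abs_le_one (M : ℕ) (S : Finset Edg) : |cf M S| ≤ 1 := by
  unfold cf
  have hb : ∀ F, F ⊆ boxE M → |sg S F * ind (Loop er (↑F : Set Edg))| ≤ 1 := by
    intro F _
    rw [abs_mul, abs_sg, one_mul, abs_of_nonneg (ind_nonneg _)]
    exact ind_le_one _
  rw [abs_le]
  constructor
  · have := Ex_mono okh (S := boxE M) (f := fun _ => (-1:ℝ))
      (g := fun F => sg S F * ind (Loop er (↑F : Set Edg))) (fun F hF => (abs_le.1 (hb F hF)).1)
    rwa [Ex_const] at this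
  · exact Ex_le_of_le okh (fun F hF => (abs_le.1 (hb F hF)).2)

theorem far_edge {N : ℕ} {e : Edg} (he : e ∉ boxE N) : N ≤ ds e er := by
  obtain ⟨x, y, _ | _⟩ := e
  · unfold boxE at he
    rw [mem_RE_false] at he
    unfold ds er
    simp only
    omega
  · unfold boxE at he
    rw [mem_RE_true] at he
    unfold ds er
    simp only
    omega

theorem ne_er_of_notMem {N : ℕ} (hN : 1 ≤ N) {e : Edg} (he : e ∉ boxE N) : e ≠ er := by
  rintro rfl
  apply he
  unfold er boxE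
  rw [mem_RE_true]
  omega

/-- the estimate at one scale -/
theorem scale_bound (hw : S_WAL) (hs : S_SUMK) :
    ∃ b C : ℝ, 0 < b ∧ b ≤ 1 ∧ 0 < C ∧ ∀ (N M : ℕ) (h : ℝ), 1 ≤ N → 4 * N + 8 ≤ M →
      |h| ≤ b * (N:ℝ) ^ (-(3/4) : ℝ) →
      |G M (1/2 + h) - G M (1/2) - h * (2 * ∑ e ∈ (boxE N).filter (fun e => e ≠ er), cf M {e})| ≤
        C * ((N:ℝ) ^ (-(5/4) : ℝ) + h ^ 2 * (N:ℝ) ^ (1/4 : ℝ)) := by
  classical
  obtain ⟨a, ha, hkey⟩ := keyW
  obtain ⟨b1, C1, hb1, hC1, hsum⟩ := hs a ha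
  obtain ⟨b2, C2, hb2, hC2, hout⟩ := outW
  refine ⟨min (min b1 b2) 1, C1 + C2, lt_min (lt_min hb1 hb2) one_pos, min_le_right _ _,
    by positivity, ?_⟩
  intro N M h hN hM hh
  have hN0 : (0:ℝ) < N := by exact_mod_cast hN
  have hp0 : 0 < (N:ℝ) ^ (-(3/4) : ℝ) := by positivity
  have hh1 : |h| ≤ b1 * (N:ℝ) ^ (-(3/4) : ℝ) := hh.trans (mul_le_mul_of_nonneg_right
    ((min_le_left _ _).trans (min_le_left _ _)) hp0.le)
  have hh2 : |h| ≤ b2 * (N:ℝ) ^ (-(3/4) : ℝ) := hh.trans (mul_le_mul_of_nonneg_right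
    ((min_le_left _ _).trans (min_le_right _ _)) hp0.le)
  have h1 := hout N M h hN (by omega) hh2
  have h2 := (hsum N hN (cf M) (fun S hS her hne => hkey N M hN hM S hS her hne)).1 h hh1
  obtain ⟨h3, h4⟩ := hw N M h (by omega)
  -- the expansion
  have h5 : ∑ S ∈ (boxE N).powerset, (2 * h) ^ S.card * cf M S =
      G M (1/2) + h * (2 * ∑ e ∈ (boxE N).filter (fun e => e ≠ er), cf M {e}) +
      ∑ S ∈ (boxE N).powerset.filter (fun S => er ∉ S ∧ 2 ≤ S.card),
        (2 * h) ^ S.card * cf M S := by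
    have hsplit : (boxE N).powerset = (boxE N).powerset.filter (fun S => er ∉ S ∧ 2 ≤ S.card) ∪
        (boxE N).powerset.filter (fun S => ¬ (er ∉ S ∧ 2 ≤ S.card)) :=
      (Finset.filter_union_filter_not_eq _ _).symm
    rw [← Finset.sum_filter_add_sum_filter_not (boxE N).powerset
      (fun S => er ∉ S ∧ 2 ≤ S.card), add_comm]
    congr 1
    -- the small sets
    have h6 : ∑ S ∈ (boxE N).powerset.filter (fun S => ¬ (er ∉ S ∧ 2 ≤ S.card)),
        (2 * h) ^ S.card * cf M S =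
        ∑ S ∈ insert ∅ (((boxE N).filter (fun e => e ≠ er)).image (fun e => ({e} : Finset Edg))),
          (2 * h) ^ S.card * cf M S := by
      symm
      apply Finset.sum_subset
      · intro S hS
        rw [Finset.mem_filter, Finset.mem_powerset]
        rcases Finset.mem_insert.1 hS with hS | hS
        · rw [hS]
          exact ⟨Finset.empty_subset _, by simp⟩
        · obtain ⟨e, he, rfl⟩ := Finset.mem_image.1 hS
          rw [Finset.mem_filter] at he
          exact ⟨Finset.singleton_subset_iff.2 he.1, by simp⟩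
      · intro S hS hS'
        rw [Finset.mem_filter, Finset.mem_powerset] at hS
        have her : er ∈ S := by
          by_contra hcon
          apply hS'
          have hc : S.card < 2 := by
            by_contra hc
            exact hS.2 ⟨hcon, by omega⟩
          rcases Nat.lt_succ_iff_lt_or_eq.1 hc with hc | hc
          · have : S = ∅ := Finset.card_eq_zero.1 (by omega)
            rw [this]
            exact Finset.mem_insert_self _ _
          · obtain ⟨e, rfl⟩ := Finset.card_eq_one.1 hc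
            apply Finset.mem_insert_of_mem
            apply Finset.mem_image_of_mem
            rw [Finset.mem_filter]
            refine ⟨hS.1 (Finset.mem_singleton_self _), ?_⟩
            rintro rfl
            exact hcon (Finset.mem_singleton_self _)
        rw [h4 S her, mul_zero]
    rw [h6, Finset.sum_insert, Finset.sum_image]
    · rw [Finset.card_empty, pow_zero, one_mul, cf_empty]
      congr 1
      rw [Finset.mul_sum, Finset.mul_sum]
      apply Finset.sum_congr rfl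
      intro e _
      rw [Finset.card_singleton, pow_one]
      ring
    · intro e _ e' _ hee
      exact Finset.singleton_injective hee
    · intro hmem
      obtain ⟨e, _, he⟩ := Finset.mem_image.1 hmem
      exact Finset.singleton_ne_empty e he
  rw [h5] at h3
  have h6 : |∑ S ∈ (boxE N).powerset.filter (fun S => er ∉ S ∧ 2 ≤ S.card),
        (2 * h) ^ S.card * cf M S| ≤ C1 * (h ^ 2 * (N:ℝ) ^ (1/4 : ℝ)) := by
    refine (Finset.abs_sum_le_sum_abs _ _).trans (le_trans (le_of_eq ?_) h2)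
    apply Finset.sum_congr rfl
    intro S _
    rw [abs_mul, abs_pow]
  have h7 : G M (1/2 + h) - G M (1/2) -
      h * (2 * ∑ e ∈ (boxE N).filter (fun e => e ≠ er), cf M {e}) =
      (G M (1/2 + h) - AN N M h) + ∑ S ∈ (boxE N).powerset.filter
        (fun S => er ∉ S ∧ 2 ≤ S.card), (2 * h) ^ S.card * cf M S := by
    rw [h3]
    ring
  rw [h7]
  refine (abs_add_le _ _).trans ?_
  have e1 : 0 ≤ (N:ℝ) ^ (-(5/4) : ℝ) := by positivity
  have e2 : 0 ≤ h ^ 2 * (N:ℝ) ^ (1/4 : ℝ) := by positivity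
  nlinarith [mul_nonneg hC1.le e1, mul_nonneg hC2.le e2]

/-- **The expansion.** -/
theorem expn (hw : S_WAL) (hs : S_SUMK) : S_EXP := by
  classical
  obtain ⟨b, C, hb, hb1, hC, hsc⟩ := scale_bound hw hs
  obtain ⟨a0, ha0, hkey⟩ := keyW
  obtain ⟨b1, C1, hb1', hC1, hsum⟩ := hs a0 ha0
  -- the coefficient
  obtain ⟨nM, hnM⟩ : ∃ nM : ℕ → ℕ, nM = fun M => (M - 8) / 4 := ⟨_, rfl⟩
  obtain ⟨aM, haM⟩ : ∃ aM : ℕ → ℝ, aM = fun M => 2 * ∑ e ∈ (boxE (nM M)).filter
    (fun e => e ≠ er), cf M {e} := ⟨_, rfl⟩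
  have hdiff : ∀ N M : ℕ, 1 ≤ N → 4 * N + 8 ≤ M →
      |2 * ∑ e ∈ (boxE N).filter (fun e => e ≠ er), cf M {e} - aM M| ≤
        2 * C1 * (N:ℝ) ^ (-(1/2) : ℝ) := by
    intro N M hN hM
    have hNn : N ≤ nM M := by rw [hnM]; simp only; omega
    have hM4 : 4 * nM M + 8 ≤ M := by rw [hnM]; simp only; omega
    have h1 := (hsum (nM M) (by omega) (cf M) (fun S hS her hne =>
      hkey (nM M) M (by omega) hM4 S hS her hne)).2 N hN
    have h2 : ∑ e ∈ (boxE (nM M)).filter (fun e => e ≠ er), cf M {e} =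
        ∑ e ∈ (boxE N).filter (fun e => e ≠ er), cf M {e} +
        ∑ e ∈ (boxE (nM M) \ boxE N), cf M {e} := by
      rw [← Finset.sum_union]
      · apply Finset.sum_congr _ (fun _ _ => rfl)
        ext e
        simp only [Finset.mem_filter, Finset.mem_union, Finset.mem_sdiff]
        constructor
        · rintro ⟨h3, h4⟩
          by_cases h5 : e ∈ boxE N
          · exact Or.inl ⟨h5, h4⟩
          · exact Or.inr ⟨h3, h5⟩
        · rintro (⟨h3, h4⟩ | ⟨h3, h4⟩)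
          · exact ⟨boxE_mono hNn h3, h4⟩
          · exact ⟨h3, ne_er_of_notMem hN h4⟩
      · rw [Finset.disjoint_left]
        intro e he he'
        exact (Finset.mem_sdiff.1 he').2 (Finset.mem_filter.1 he).1
    have h3 : |∑ e ∈ (boxE (nM M) \ boxE N), cf M {e}| ≤ C1 * (N:ℝ) ^ (-(1/2) : ℝ) := by
      refine (Finset.abs_sum_le_sum_abs _ _).trans (le_trans ?_ h1)
      apply Finset.sum_le_sum_of_subset_of_nonneg
      · intro e he
        rw [Finset.mem_sdiff] at he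
        exact Finset.mem_filter.2 ⟨he.1, ne_er_of_notMem hN he.2, far_edge he.2⟩
      · intro e _ _
        exact abs_nonneg _
    rw [haM]
    simp only
    rw [h2]
    have h4 : 2 * ∑ e ∈ (boxE N).filter (fun e => e ≠ er), cf M {e} -
        2 * (∑ e ∈ (boxE N).filter (fun e => e ≠ er), cf M {e} +
        ∑ e ∈ (boxE (nM M) \ boxE N), cf M {e}) =
        -2 * ∑ e ∈ (boxE (nM M) \ boxE N), cf M {e} := by ring
    rw [h4, abs_mul, abs_neg, abs_two]
    linarith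
  -- boundedness
  have hbox1 : ∀ M : ℕ, |2 * ∑ e ∈ (boxE 1).filter (fun e => e ≠ er), cf M {e}| ≤ 100 := by
    intro M
    rw [abs_mul, abs_two]
    have h1 : |∑ e ∈ (boxE 1).filter (fun e => e ≠ er), cf M {e}| ≤
        ∑ e ∈ (boxE 1).filter (fun e => e ≠ er), (1:ℝ) :=
      (Finset.abs_sum_le_sum_abs _ _).trans (Finset.sum_le_sum fun e _ => cf_abs_le_one M {e})
    have h2 : (((boxE 1).filter (fun e => e ≠ er)).card : ℝ) ≤ 18 := by
      have h3 : ((boxE 1).filter (fun e => e ≠ er)).card ≤ (boxE 1).card :=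
        Finset.card_filter_le _ _
      have h4 : (boxE 1).card ≤ 18 := by
        unfold boxE RE
        refine (Finset.card_filter_le _ _).trans ?_
        rw [Finset.card_product, Finset.card_product]
        simp
      exact_mod_cast h3.trans h4
    rw [Finset.sum_const, nsmul_eq_mul, mul_one] at h1
    linarith
  have hbd : ∀ M : ℕ, 12 ≤ M → |aM M| ≤ 100 + 2 * C1 := by
    intro M hM
    have h1 := hdiff 1 M le_rfl (by omega)
    have h2 := hbox1 M
    rw [Nat.cast_one, Real.one_rpow, mul_one] at h1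
    have h3 := abs_le.1 h1
    have h4 := abs_le.1 h2
    rw [abs_le]
    constructor <;> linarith
  obtain ⟨a, -, φ, hφ, hlim⟩ := tendsto_subseq_of_bounded
    (s := Set.Icc (-(100 + 2 * C1)) (100 + 2 * C1)) (Metric.isBounded_Icc _ _)
    (x := fun k => aM (k + 12)) (fun k => abs_le.1 (hbd (k + 12) (by omega)))
  -- the constant
  obtain ⟨C3, hC3⟩ : ∃ C3 : ℝ, C3 = C * ((2:ℝ) ^ (5/4 : ℝ) * b ^ (-(5/3) : ℝ) + b ^ (1/3 : ℝ)) +
    2 * C1 * ((2:ℝ) ^ (1/2 : ℝ) * b ^ (-(2/3) : ℝ)) := ⟨_, rfl⟩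
  have hC30 : 0 < C3 := by rw [hC3]; positivity
  refine ⟨gg, fun q hq => G_tendsto hq.1 hq.2, a, C3 + (1 + |a|) * b ^ (-(5/3) : ℝ),
    by positivity, ?_⟩
  intro h hh
  have habs := abs_le.1 hh
  have hx0 : 0 ≤ |h| := abs_nonneg h
  rcases eq_or_ne h 0 with h0 | h0
  · rw [h0]
    simp
  have hpos : 0 < |h| := abs_pos.2 h0
  have hz1 : 0 ≤ (1 + |a|) * b ^ (-(5/3) : ℝ) * |h| ^ (5/3 : ℝ) := by positivity
  have hz2 : 0 ≤ C3 * |h| ^ (5/3 : ℝ) := by positivity
  rw [add_mul]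
  rcases le_or_gt |h| b with hle | hgt
  · -- the window
    refine le_trans ?_ (le_add_of_nonneg_right hz1)
    obtain ⟨y, hy⟩ : ∃ y : ℝ, y = (b / |h|) ^ (4/3 : ℝ) := ⟨_, rfl⟩
    have hbh : 1 ≤ b / |h| := by rw [le_div_iff₀ hpos]; linarith
    have hbh0 : 0 < b / |h| := by linarith
    have hy1 : 1 ≤ y := by rw [hy]; exact Real.one_le_rpow hbh (by norm_num)
    obtain ⟨N, hN⟩ : ∃ N : ℕ, N = ⌊y⌋₊ := ⟨_, rfl⟩
    have hN1 : 1 ≤ N := by rw [hN]; exact Nat.le_floor (by exact_mod_cast hy1)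
    have hNr : (1:ℝ) ≤ N := by exact_mod_cast hN1
    have hN0 : (0:ℝ) < N := by linarith
    have hNy : (N:ℝ) ≤ y := by rw [hN]; exact Nat.floor_le (by linarith)
    have hyN : y ≤ 2 * N := by
      have := Nat.lt_floor_add_one y
      rw [← hN] at this
      linarith
    have hy34 : y ^ (3/4 : ℝ) = b / |h| := by
      rw [hy, ← Real.rpow_mul hbh0.le]
      norm_num
    have hwin : |h| ≤ b * (N:ℝ) ^ (-(3/4) : ℝ) := by
      have h1 : (N:ℝ) ^ (3/4 : ℝ) ≤ b / |h| := by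
        rw [← hy34]
        exact Real.rpow_le_rpow hN0.le hNy (by norm_num)
      have h2 : (0:ℝ) < (N:ℝ) ^ (3/4 : ℝ) := by positivity
      rw [Real.rpow_neg hN0.le, ← div_eq_mul_inv, le_div_iff₀ h2]
      rw [le_div_iff₀ hpos] at h1
      linarith
    have e1 : (N:ℝ) ^ (-(5/4) : ℝ) ≤ (2:ℝ) ^ (5/4 : ℝ) * b ^ (-(5/3) : ℝ) * |h| ^ (5/3 : ℝ) := by
      have h1 : (y / 2) ≤ N := by linarith
      have h2 : (N:ℝ) ^ (-(5/4) : ℝ) ≤ (y / 2) ^ (-(5/4) : ℝ) :=
        Real.rpow_le_rpow_of_nonpos (by linarith) h1 (by norm_num)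
      refine h2.trans (le_of_eq ?_)
      rw [Real.div_rpow (by linarith) (by norm_num), hy, ← Real.rpow_mul hbh0.le,
        Real.div_rpow hb.le hpos.le, Real.rpow_neg (by norm_num : (0:ℝ) ≤ 2),
        show (4/3 * -(5/4) : ℝ) = -(5/3) by norm_num, Real.rpow_neg hpos.le (5/3)]
      field_simp
    have e2 : h ^ 2 * (N:ℝ) ^ (1/4 : ℝ) ≤ b ^ (1/3 : ℝ) * |h| ^ (5/3 : ℝ) := by
      have h1 : (N:ℝ) ^ (1/4 : ℝ) ≤ (b / |h|) ^ (1/3 : ℝ) := by
        refine (Real.rpow_le_rpow hN0.le hNy (by norm_num)).trans (le_of_eq ?_)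
        rw [hy, ← Real.rpow_mul hbh0.le]
        norm_num
      calc h ^ 2 * (N:ℝ) ^ (1/4 : ℝ) ≤ h ^ 2 * (b / |h|) ^ (1/3 : ℝ) :=
            mul_le_mul_of_nonneg_left h1 (sq_nonneg _)
        _ = b ^ (1/3 : ℝ) * (|h| ^ (2:ℝ) * |h| ^ (-(1/3) : ℝ)) := by
            rw [Real.div_rpow hb.le hpos.le, Real.rpow_neg hpos.le, Real.rpow_two, sq_abs]
            field_simp
        _ = b ^ (1/3 : ℝ) * |h| ^ (5/3 : ℝ) := by
            rw [← Real.rpow_add hpos]
            norm_num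
    have e3 : |h| * (N:ℝ) ^ (-(1/2) : ℝ) ≤
        (2:ℝ) ^ (1/2 : ℝ) * b ^ (-(2/3) : ℝ) * |h| ^ (5/3 : ℝ) := by
      have h1 : (y / 2) ≤ N := by linarith
      have h2 : (N:ℝ) ^ (-(1/2) : ℝ) ≤ (y / 2) ^ (-(1/2) : ℝ) :=
        Real.rpow_le_rpow_of_nonpos (by linarith) h1 (by norm_num)
      have h3 : (y / 2) ^ (-(1/2) : ℝ) = (2:ℝ) ^ (1/2 : ℝ) * b ^ (-(2/3) : ℝ) *
          |h| ^ (2/3 : ℝ) := by
        rw [Real.div_rpow (by linarith) (by norm_num), hy, ← Real.rpow_mul hbh0.le,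
          Real.div_rpow hb.le hpos.le, Real.rpow_neg (by norm_num : (0:ℝ) ≤ 2),
          show (4/3 * -(1/2) : ℝ) = -(2/3) by norm_num, Real.rpow_neg hpos.le (2/3)]
        field_simp
      calc |h| * (N:ℝ) ^ (-(1/2) : ℝ) ≤
            |h| * ((2:ℝ) ^ (1/2 : ℝ) * b ^ (-(2/3) : ℝ) * |h| ^ (2/3 : ℝ)) :=
            mul_le_mul_of_nonneg_left (h2.trans h3.le) hx0
        _ = (2:ℝ) ^ (1/2 : ℝ) * b ^ (-(2/3) : ℝ) * (|h| ^ (1:ℝ) * |h| ^ (2/3 : ℝ)) := by
            rw [Real.rpow_one]; ring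
        _ = _ := by
            rw [← Real.rpow_add hpos]
            norm_num
    have hmain : ∀ M : ℕ, 4 * N + 8 ≤ M →
        |G M (1/2 + h) - G M (1/2) - h * aM M| ≤ C3 * |h| ^ (5/3 : ℝ) := by
      intro M hM
      have h1 := hsc N M h hN1 hM hwin
      have h2 := hdiff N M hN1 hM
      have h3 : G M (1/2 + h) - G M (1/2) - h * aM M = (G M (1/2 + h) - G M (1/2) -
          h * (2 * ∑ e ∈ (boxE N).filter (fun e => e ≠ er), cf M {e})) +
          h * (2 * ∑ e ∈ (boxE N).filter (fun e => e ≠ er), cf M {e} - aM M) := by ring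
      rw [h3]
      refine (abs_add_le _ _).trans ?_
      rw [abs_mul h]
      have h4 : |h| * |2 * ∑ e ∈ (boxE N).filter (fun e => e ≠ er), cf M {e} - aM M| ≤
          2 * C1 * (|h| * (N:ℝ) ^ (-(1/2) : ℝ)) := by
        calc _ ≤ |h| * (2 * C1 * (N:ℝ) ^ (-(1/2) : ℝ)) := mul_le_mul_of_nonneg_left h2 hx0
          _ = _ := by ring
      have h5 : 2 * C1 * (|h| * (N:ℝ) ^ (-(1/2) : ℝ)) ≤
          2 * C1 * ((2:ℝ) ^ (1/2 : ℝ) * b ^ (-(2/3) : ℝ) * |h| ^ (5/3 : ℝ)) :=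
        mul_le_mul_of_nonneg_left e3 (by positivity)
      have h6 : C * ((N:ℝ) ^ (-(5/4) : ℝ) + h ^ 2 * (N:ℝ) ^ (1/4 : ℝ)) ≤
          C * ((2:ℝ) ^ (5/4 : ℝ) * b ^ (-(5/3) : ℝ) * |h| ^ (5/3 : ℝ) +
            b ^ (1/3 : ℝ) * |h| ^ (5/3 : ℝ)) :=
        mul_le_mul_of_nonneg_left (add_le_add e1 e2) hC.le
      rw [hC3]
      calc _ ≤ C * ((2:ℝ) ^ (5/4 : ℝ) * b ^ (-(5/3) : ℝ) * |h| ^ (5/3 : ℝ) +
            b ^ (1/3 : ℝ) * |h| ^ (5/3 : ℝ)) +
            2 * C1 * ((2:ℝ) ^ (1/2 : ℝ) * b ^ (-(2/3) : ℝ) * |h| ^ (5/3 : ℝ)) :=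
          add_le_add (h1.trans h6) (h4.trans h5)
        _ = _ := by ring
    -- the limit
    have hφ12 : Tendsto (fun k => φ k + 12) atTop atTop :=
      (tendsto_add_atTop_nat 12).comp hφ.tendsto_atTop
    have l1 := (G_tendsto (q := 1/2 + h) (by linarith [habs.1]) (by linarith [habs.2])).comp hφ12
    have l2 := (G_tendsto (q := 1/2) (by norm_num) (by norm_num)).comp hφ12
    have l3 : Tendsto (fun k => aM (φ k + 12)) atTop (𝓝 a) := hlim
    have l4 := ((l1.sub l2).sub (l3.const_mul h)).abs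
    rw [mul_comm a h]
    refine le_of_tendsto l4 ?_
    filter_upwards [eventually_ge_atTop (4 * N + 8)] with k hk
    simp only [Function.comp]
    exact hmain _ (by have := hφ.id_le k; simp only [id] at this; omega)
  · -- outside of the window
    refine le_trans ?_ (le_add_of_nonneg_left hz2)
    have h1 := gg_mem (q := 1/2 + h) (by linarith [habs.1]) (by linarith [habs.2])
    have h2 := gg_mem (q := 1/2) (by norm_num) (by norm_num)
    have h3 : |gg (1/2 + h) - gg (1/2) - a * h| ≤ 1 + |a| := by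
      have h4 : |gg (1/2 + h) - gg (1/2)| ≤ 1 := by rw [abs_le]; constructor <;> linarith
      have h5 : |a * h| ≤ |a| := by
        rw [abs_mul]
        calc |a| * |h| ≤ |a| * 1 := mul_le_mul_of_nonneg_left (by linarith) (abs_nonneg _)
          _ = |a| := mul_one _
      calc |gg (1/2 + h) - gg (1/2) - a * h| ≤ |gg (1/2 + h) - gg (1/2)| + |a * h| := abs_sub _ _
        _ ≤ _ := add_le_add h4 h5
    have h6 : 1 ≤ b ^ (-(5/3) : ℝ) * |h| ^ (5/3 : ℝ) := by
      rw [Real.rpow_neg hb.le, ← div_eq_inv_mul, le_div_iff₀ (by positivity), one_mul]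
      exact Real.rpow_le_rpow hb.le hgt.le (by norm_num)
    have h7 : 0 ≤ 1 + |a| := by positivity
    calc _ ≤ 1 + |a| := h3
      _ = (1 + |a|) * 1 := (mul_one _).symm
      _ ≤ (1 + |a|) * (b ^ (-(5/3) : ℝ) * |h| ^ (5/3 : ℝ)) := mul_le_mul_of_nonneg_left h6 h7
      _ = _ := by ring

end Pool.Agent.V11321.AL
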