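import Pool.Agent.V11321.AL.Cont

/-!
Project AL: the mean cluster density near `1/2`.
-/

set_option autoImplicit false

namespace Pool.Agent.V11321.AL

open H974 H12S Finset Filter Topology MeasureTheory

/-- the mean cluster density -/
noncomputable def kap0 (q : ℝ) : ℝ := 1 - ∫ s in (0:ℝ)..q, 2 * (1 - gg s)

theorem expgg (he : S_EXP) : ∃ a C : ℝ, 0 < C ∧ ∀ h : ℝ, |h| ≤ 1/2 →
    |gg (1/2 + h) - gg (1/2) - a * h| ≤ C * |h| ^ (5/3 : ℝ) := by
  obtain ⟨g, hg, a, C, hC, h⟩ := he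
  have heq : ∀ q ∈ Set.Icc (0:ℝ) 1, g q = gg q := fun q hq =>
    tendsto_nhds_unique (hg q hq) (G_tendsto hq.1 hq.2)
  refine ⟨a, C, hC, fun x hx => ?_⟩
  have hx' := abs_le.1 hx
  rw [← heq (1/2 + x) ⟨by linarith, by linarith⟩, ← heq (1/2) (by norm_num)]
  exact h x hx

theorem gg_cont' : ContinuousOn (fun s => 2 * (1 - gg s)) (Set.Icc 0 1) :=
  (continuousOn_const.sub gg_cont).const_smul (2:ℝ)

theorem gg_int {p q : ℝ} (hp : p ∈ Set.Icc (0:ℝ) 1) (hq : q ∈ Set.Icc (0:ℝ) 1) :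
    IntervalIntegrable (fun s => 2 * (1 - gg s)) volume p q := by
  apply ContinuousOn.intervalIntegrable
  apply gg_cont'.mono
  intro x hx
  rw [Set.mem_uIcc] at hx
  rcases hx with hx | hx
  · exact ⟨hp.1.trans hx.1, hx.2.trans hq.2⟩
  · exact ⟨hq.1.trans hx.1, hx.2.trans hp.2⟩

theorem kap0_deriv {q : ℝ} (hq : q ∈ Set.Ioo (0:ℝ) 1) :
    HasDerivAt kap0 (-(2 * (1 - gg q))) q := by
  have hnhds : Set.Icc (0:ℝ) 1 ∈ 𝓝 q := Icc_mem_nhds hq.1 hq.2
  have h1 : ContinuousAt (fun s => 2 * (1 - gg s)) q := gg_cont'.continuousAt hnhds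
  have h2 := intervalIntegral.integral_hasDerivAt_right
    (gg_int (p := 0) (q := q) (by norm_num) ⟨hq.1.le, hq.2.le⟩)
    (gg_cont'.stronglyMeasurableAtFilter_nhdsWithin measurableSet_Icc q |>.filter_mono
      (by rw [nhdsWithin_eq_nhds.2 hnhds])) h1
  have h3 := (hasDerivAt_const q (1:ℝ)).sub h2
  unfold kap0
  rw [zero_sub] at h3
  exact h3

theorem kap0_deriv_eq {q : ℝ} (hq : q ∈ Set.Ioo (0:ℝ) 1) : deriv kap0 q = -(2 * (1 - gg q)) :=
  (kap0_deriv hq).deriv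

theorem deriv_of_bound {f : ℝ → ℝ} {x a C : ℝ} (h : ∀ y : ℝ, |y| ≤ 1/2 →
    |f (x + y) - f x - a * y| ≤ C * |y| ^ (5/3 : ℝ)) : HasDerivAt f a x := by
  rw [hasDerivAt_iff_isLittleO_nhds_zero]
  have h1 : (fun y : ℝ => f (x + y) - f x - y • a) =O[𝓝 0] fun y : ℝ => |y| ^ (5/3 : ℝ) := by
    apply Asymptotics.IsBigO.of_bound C
    have : ∀ᶠ y : ℝ in 𝓝 0, |y| ≤ 1/2 := by
      have := Metric.closedBall_mem_nhds (0:ℝ) (by norm_num : (0:ℝ) < 1/2)
      filter_upwards [this] with y hy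
      simpa [Metric.mem_closedBall, Real.dist_eq] using hy
    filter_upwards [this] with y hy
    rw [Real.norm_eq_abs, Real.norm_eq_abs, abs_of_nonneg (Real.rpow_nonneg (abs_nonneg y) _),
      smul_eq_mul, mul_comm y a]
    exact h y hy
  refine h1.trans_isLittleO ?_
  rw [Asymptotics.isLittleO_iff]
  intro c hc
  have h2 : Tendsto (fun y : ℝ => |y| ^ (2/3 : ℝ)) (𝓝 0) (𝓝 0) := by
    have h3 : ContinuousAt (fun y : ℝ => |y| ^ (2/3 : ℝ)) 0 :=
      (continuous_abs.rpow_const (fun _ => Or.inr (by norm_num))).continuousAt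
    have h4 := h3.tendsto
    simpa using h4
  filter_upwards [h2.eventually (gt_mem_nhds hc)] with y hy
  rw [Real.norm_eq_abs, Real.norm_eq_abs, abs_of_nonneg (Real.rpow_nonneg (abs_nonneg y) _)]
  rcases eq_or_ne y 0 with h0 | h0
  · rw [h0]
    simp
  · have hpos : 0 < |y| := abs_pos.2 h0
    have e1 : |y| ^ (5/3 : ℝ) = |y| ^ (2/3 : ℝ) * |y| := by
      rw [← Real.rpow_add_one hpos.ne']
      norm_num
    rw [e1]
    exact mul_le_mul_of_nonneg_right hy.le (abs_nonneg _)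

theorem kap0_second {a C : ℝ} (h : ∀ y : ℝ, |y| ≤ 1/2 →
    |gg (1/2 + y) - gg (1/2) - a * y| ≤ C * |y| ^ (5/3 : ℝ)) :
    HasDerivAt (deriv kap0) (2 * a) (1/2) := by
  have h1 := deriv_of_bound h
  have h2 : HasDerivAt (fun q => -(2 * (1 - gg q))) (2 * a) (1/2) := by
    have h3 := (((hasDerivAt_const (1/2:ℝ) (1:ℝ)).sub h1).const_mul 2).neg
    have e : -(2 * (0 - a)) = 2 * a := by ring
    rw [e] at h3
    exact h3
  refine h2.congr_of_eventuallyEq ?_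
  filter_upwards [Ioo_mem_nhds (show (0:ℝ) < 1/2 by norm_num) (show (1/2:ℝ) < 1 by norm_num)]
    with q hq
  exact kap0_deriv_eq hq

/-- Taylor expansion of the mean cluster density. -/
theorem kap0_bound {a C : ℝ} (hC : 0 ≤ C) (h : ∀ y : ℝ, |y| ≤ 1/2 →
    |gg (1/2 + y) - gg (1/2) - a * y| ≤ C * |y| ^ (5/3 : ℝ)) {p : ℝ}
    (hp : p ∈ Set.Icc (0:ℝ) 1) :
    |kap0 p - kap0 (1/2) - -(2 * (1 - gg (1/2))) * (p - 1/2) - (2 * a) / 2 * (p - 1/2) ^ 2| ≤
      2 * C * |p - 1/2| ^ (8/3 : ℝ) := by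
  have hhalf : (1/2:ℝ) ∈ Set.Icc (0:ℝ) 1 := by norm_num
  have h0 : (0:ℝ) ∈ Set.Icc (0:ℝ) 1 := by norm_num
  have e1 : kap0 p - kap0 (1/2) = -∫ s in (1/2:ℝ)..p, 2 * (1 - gg s) := by
    unfold kap0
    have := intervalIntegral.integral_add_adjacent_intervals (gg_int h0 hhalf) (gg_int hhalf hp)
    linarith
  have hlin : IntervalIntegrable (fun s : ℝ => 2 * (1 - gg (1/2)) - 2 * a * (s - 1/2)) volume
      (1/2) p := (by fun_prop : Continuous fun s : ℝ =>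
        2 * (1 - gg (1/2)) - 2 * a * (s - 1/2)).intervalIntegrable _ _
  have e2 : ∫ s in (1/2:ℝ)..p, (2 * (1 - gg (1/2)) - 2 * a * (s - 1/2)) =
      2 * (1 - gg (1/2)) * (p - 1/2) - a * (p - 1/2) ^ 2 := by
    have hd : ∀ s ∈ Set.uIcc (1/2:ℝ) p, HasDerivAt
        (fun s : ℝ => 2 * (1 - gg (1/2)) * (s - 1/2) - a * (s - 1/2) ^ 2)
        (2 * (1 - gg (1/2)) - 2 * a * (s - 1/2)) s := by
      intro s _
      have h1 : HasDerivAt (fun s : ℝ => s - 1/2) 1 s := (hasDerivAt_id s).sub_const _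
      have h2 := (h1.const_mul (2 * (1 - gg (1/2)))).sub ((h1.pow 2).const_mul a)
      refine h2.congr_deriv ?_
      push_cast
      ring
    rw [intervalIntegral.integral_eq_sub_of_hasDerivAt hd hlin]
    ring
  have e3 : kap0 p - kap0 (1/2) - -(2 * (1 - gg (1/2))) * (p - 1/2) -
      (2 * a) / 2 * (p - 1/2) ^ 2 = ∫ s in (1/2:ℝ)..p,
        ((2 * (1 - gg (1/2)) - 2 * a * (s - 1/2)) - 2 * (1 - gg s)) := by
    rw [intervalIntegral.integral_sub hlin (gg_int hhalf hp), e2, e1]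
    ring
  rw [e3]
  have hbound : ∀ s ∈ Set.uIoc (1/2:ℝ) p,
      ‖(2 * (1 - gg (1/2)) - 2 * a * (s - 1/2)) - 2 * (1 - gg s)‖ ≤
        2 * C * |p - 1/2| ^ (5/3 : ℝ) := by
    intro s hs
    have hs1 : |s - 1/2| ≤ |p - 1/2| := by
      rcases Set.mem_uIoc.1 hs with hs | hs
      · rw [abs_of_nonneg (by linarith), abs_of_nonneg (by linarith)]
        linarith
      · rw [abs_of_nonpos (by linarith), abs_of_nonpos (by linarith)]
        linarith
    have hs2 : |s - 1/2| ≤ 1/2 := by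
      refine hs1.trans ?_
      rw [abs_le]
      constructor <;> linarith [hp.1, hp.2]
    have h1 := h (s - 1/2) hs2
    rw [show (1/2:ℝ) + (s - 1/2) = s by ring] at h1
    rw [Real.norm_eq_abs]
    have e4 : (2 * (1 - gg (1/2)) - 2 * a * (s - 1/2)) - 2 * (1 - gg s) =
        2 * (gg s - gg (1/2) - a * (s - 1/2)) := by ring
    rw [e4, abs_mul, abs_two]
    have h2 : |s - 1/2| ^ (5/3 : ℝ) ≤ |p - 1/2| ^ (5/3 : ℝ) :=
      Real.rpow_le_rpow (abs_nonneg _) hs1 (by norm_num)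
    nlinarith [mul_le_mul_of_nonneg_left h2 hC]
  have h1 := intervalIntegral.norm_integral_le_of_norm_le_const hbound
  rw [Real.norm_eq_abs] at h1
  refine h1.trans (le_of_eq ?_)
  rcases eq_or_ne (p - 1/2) 0 with h2 | h2
  · rw [h2, abs_zero, Real.zero_rpow (by norm_num)]
    ring
  · have hpos : 0 < |p - 1/2| := abs_pos.2 h2
    rw [mul_assoc, ← Real.rpow_add_one hpos.ne']
    norm_num

/-- **The mean cluster density near the critical point.** -/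
theorem kappa (hk : S_KAP) (he : S_EXP) : ∃ κ : ℝ → ℝ,
    (∀ p ∈ Set.Icc (0:ℝ) 1,
      Tendsto (fun n : ℕ => Ex (fun _ => p) (bxE n) (fun F => (K n F : ℝ)) / (n:ℝ) ^ 2) atTop
        (𝓝 (κ p))) ∧
    (∀ p ∈ Set.Ioo (0:ℝ) 1, DifferentiableAt ℝ κ p) ∧
    ContinuousOn (deriv κ) (Set.Ioo 0 1) ∧
    DifferentiableAt ℝ (deriv κ) (1/2) ∧
    ∃ C : ℝ, 0 < C ∧ ∀ p ∈ Set.Icc (0:ℝ) 1,
      |κ p - κ (1/2) - deriv κ (1/2) * (p - 1/2) - deriv (deriv κ) (1/2) / 2 * (p - 1/2) ^ 2| ≤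
        C * |p - 1/2| ^ (8/3 : ℝ) := by
  obtain ⟨a, C, hC, h⟩ := expgg he
  refine ⟨kap0, fun p hp => hk gg (fun q hq => G_tendsto hq.1 hq.2) p hp,
    fun p hp => (kap0_deriv hp).differentiableAt, ?_, (kap0_second h).differentiableAt,
    2 * C, by positivity, fun p hp => ?_⟩
  · have h1 : ContinuousOn (fun q => -(2 * (1 - gg q))) (Set.Ioo 0 1) :=
      (gg_cont'.mono Set.Ioo_subset_Icc_self).neg
    exact h1.congr fun q hq => kap0_deriv_eq hq
  · rw [kap0_deriv_eq (by norm_num : (1/2:ℝ) ∈ Set.Ioo (0:ℝ) 1), (kap0_second h).deriv]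
    exact kap0_bound hC.le h hp

end Pool.Agent.V11321.AL
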