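import Pool.Agent.V11321.AL.Det
import Pool.Agent.Y554.NE.Merge
import Pool.Agent.Y968.NE.Key
import Pool.Agent.Y100.NE.Base

/-!
Project AL: bound for the probability of joint pivotality (following the starting library's
project NE, with the four-arm events of annuli in place of the pivotality for crossings).
-/

set_option autoImplicit false

namespace Pool.Agent.V11321.AL

open H974 H12S H389NS Finset Pool.Agent.Y554.NE Pool.Agent.Y554.SN
open Pool.Agent.Y239.NE.Dec (ds_tri mem_blk mem_blk_pos)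
open Pool.Agent.Y239.NE.Out (blk_sub mem_blk_of ds_le_dm)

theorem ps_pos (s : ℕ) : 0 < ps s := by
  unfold ps
  have : (0:ℝ) < ((max 1 s : ℕ) : ℝ) := by exact_mod_cast (by omega : 0 < max 1 s)
  positivity

theorem ps_le_one (s : ℕ) : ps s ≤ 1 := by
  unfold ps
  have : (1:ℝ) ≤ ((max 1 s : ℕ) : ℝ) := by exact_mod_cast (by omega : 1 ≤ max 1 s)
  exact Real.rpow_le_one_of_one_le_of_nonpos this (by norm_num)

theorem ps_anti {s s' : ℕ} (h : s ≤ s') : ps s' ≤ ps s := by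
  unfold ps
  have h1 : (0:ℝ) < ((max 1 s : ℕ) : ℝ) := by exact_mod_cast (by omega : 0 < max 1 s)
  apply Real.rpow_le_rpow_of_nonpos h1 _ (by norm_num)
  exact_mod_cast (by omega : max 1 s ≤ max 1 s')

theorem ps_zero : ps 0 = 1 := by
  unfold ps
  simp

theorem ps_cmp {s s' k : ℕ} (hk : 1 ≤ k) (h2 : s' ≤ k * max 1 s) :
    ps s ≤ (k:ℝ) ^ 2 * ps s' := by
  unfold ps
  have h1 : (0:ℝ) < ((max 1 s : ℕ) : ℝ) := by exact_mod_cast (by omega : 0 < max 1 s)
  have h1' : (0:ℝ) < ((max 1 s' : ℕ) : ℝ) := by exact_mod_cast (by omega : 0 < max 1 s')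
  have hk0 : (1:ℝ) ≤ k := by exact_mod_cast hk
  have h3 : ((max 1 s' : ℕ) : ℝ) ≤ k * ((max 1 s : ℕ) : ℝ) := by
    have h4 : 1 ≤ k * max 1 s := le_trans (by omega) (Nat.mul_le_mul hk (le_max_left 1 s))
    exact_mod_cast max_le h4 h2
  have h5 : (k * ((max 1 s : ℕ) : ℝ)) ^ (-(5/4) : ℝ) ≤ ((max 1 s' : ℕ) : ℝ) ^ (-(5/4) : ℝ) :=
    Real.rpow_le_rpow_of_nonpos h1' h3 (by norm_num)
  rw [Real.mul_rpow (by linarith) h1.le] at h5
  have h6 : (k:ℝ) ^ (-(2:ℝ)) ≤ (k:ℝ) ^ (-(5/4) : ℝ) :=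
    Real.rpow_le_rpow_of_exponent_le hk0 (by norm_num)
  have h7 : (k:ℝ) ^ 2 * (k:ℝ) ^ (-(2:ℝ)) = 1 := by
    rw [← Real.rpow_natCast, ← Real.rpow_add (by linarith)]
    norm_num
  have h8 : (0:ℝ) < ((max 1 s : ℕ) : ℝ) ^ (-(5/4) : ℝ) := by positivity
  calc ((max 1 s : ℕ) : ℝ) ^ (-(5/4) : ℝ) =
        (k:ℝ) ^ 2 * ((k:ℝ) ^ (-(2:ℝ)) * ((max 1 s : ℕ) : ℝ) ^ (-(5/4) : ℝ)) := by
        rw [← mul_assoc, h7, one_mul]
    _ ≤ (k:ℝ) ^ 2 * ((k:ℝ) ^ (-(5/4) : ℝ) * ((max 1 s : ℕ) : ℝ) ^ (-(5/4) : ℝ)) := by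
        apply mul_le_mul_of_nonneg_left _ (by positivity)
        exact mul_le_mul_of_nonneg_right h6 h8.le
    _ ≤ _ := mul_le_mul_of_nonneg_left h5 (by positivity)

/-- the four-arm bound for the annulus -/
theorem ps_mul {r D : ℕ} (hr : 1 ≤ r) (hrD : r ≤ D) :
    ps r * ((r:ℝ) / D) ^ (5 / 4 : ℝ) = ps D := by
  have hr0 : (0:ℝ) < r := by exact_mod_cast hr
  have hD0 : (0:ℝ) < D := by exact_mod_cast (hr.trans hrD)
  unfold ps
  rw [max_eq_right hr, max_eq_right (hr.trans hrD), Real.div_rpow hr0.le hD0.le,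
    Real.rpow_neg hr0.le, Real.rpow_neg hD0.le]
  have : (0:ℝ) < (r:ℝ) ^ (5/4 : ℝ) := by positivity
  field_simp

/-- Good sets. -/
def GK (M t τ s : ℕ) (a : ℝ) (k : ℕ) (fin : Prop) (S : Finset Edg) (x : Edg) : Prop :=
  ∃ (Ev : Finset Edg → Prop) (par : Edg → Edg) (rk : Edg → ℕ),
    (∀ F F' : Finset Edg, F ∩ (nb S (t / 2) \ S) = F' ∩ (nb S (t / 2) \ S) → (Ev F ↔ Ev F')) ∧
    (∀ S' : Finset Edg, S ⊆ S' → (S' = S → fin) → (∀ v ∈ S, ∀ w ∈ S' \ S, t < ds v w) →
      ∀ F : Finset Edg, QK S' F → Ev F) ∧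
    (∀ y ∈ S, y ≠ x → par y ∈ S ∧ rk (par y) < rk y ∧ ds y (par y) ≤ τ) ∧
    PQ (1 / 2) (boxE M) Ev ≤ a ^ k * (∏ y ∈ S.erase x, ps (ds y (par y))) * ps s

theorem prod_ps_nonneg (S : Finset Edg) (f : Edg → ℕ) : 0 ≤ ∏ y ∈ S, ps (f y) :=
  Finset.prod_nonneg fun y _ => (ps_pos _).le

theorem GK_mono {M t τ τ' s : ℕ} {a : ℝ} {k k' : ℕ} {fin fin' : Prop} {S : Finset Edg} {x : Edg}
    (h : GK M t τ s a k fin S x) (hτ : τ ≤ τ') (hk : k ≤ k') (ha : 1 ≤ a) (hf : fin' → fin) :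
    GK M t τ' s a k' fin' S x := by
  obtain ⟨Ev, par, rk, h1, h2, h3, h4⟩ := h
  refine ⟨Ev, par, rk, h1, fun S' hS hfn => h2 S' hS (fun he => hf (hfn he)),
    fun y hy hx => ?_, h4.trans ?_⟩
  · obtain ⟨e1, e2, e3⟩ := h3 y hy hx
    exact ⟨e1, e2, e3.trans hτ⟩
  · refine mul_le_mul_of_nonneg_right ?_ (ps_pos _).le
    refine mul_le_mul_of_nonneg_right ?_ (prod_ps_nonneg _ _)
    exact pow_le_pow_right₀ ha hk

theorem nonempty_sdiff {S S' : Finset Edg} (h : S ⊆ S') (hne : S' ≠ S) : (S' \ S).Nonempty := by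
  rw [Finset.sdiff_nonempty]
  exact fun h' => hne (Finset.Subset.antisymm h' h)

theorem blk_box {N M r : ℕ} {x : Edg} (hx : x ∈ boxE N) (h : N + r ≤ M) :
    blk (pos x) r ⊆ boxE M := by
  have h1 := Pool.Agent.Y239.NE.Out.pos_le hx
  have i1 := abs_le.1 h1.1
  have i2 := abs_le.1 h1.2
  unfold blk boxE
  exact RE_subset (by omega) (by omega) (by omega) (by omega)

/-- BASE: all edges of `S` at the same position. -/
theorem baseK : ∃ C : ℝ, 1 ≤ C ∧ ∀ (a : ℝ) (N M t' : ℕ) (S : Finset Edg) (x : Edg),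
    C ≤ a → t' ≤ 4 * N → 4 * N ≤ M → S ⊆ boxE N → x ∈ S → (∀ y ∈ S, ds y x = 0) →
    GK M t' 0 (max t' (dm S)) a 1 False S x := by
  obtain ⟨C1, hC1, hpr⟩ := A4a_sharp
  refine ⟨16 * (C1 + 1), by linarith, ?_⟩
  intro a N M t' S x hCa ht' hNM hS hx hall
  have hdm : dm S = 0 := by
    unfold dm
    rw [← Nat.bot_eq_zero, Finset.sup_eq_bot_iff]
    intro b hb
    rw [Finset.sup_eq_bot_iff]
    intro b' hb'
    exact Pool.Agent.Y100.NE.ds_of_pos ((Pool.Agent.Y100.NE.pos_eq (hall b hb)).trans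
      (Pool.Agent.Y100.NE.pos_eq (hall b' hb')).symm)
  rw [hdm, max_eq_left (Nat.zero_le _)]
  have hprod : ∏ y ∈ S.erase x, ps (ds y ((fun _ => x) y)) = 1 := by
    refine Finset.prod_eq_one fun y hy => ?_
    simp only [hall y (Finset.mem_of_mem_erase hy), ps_zero]
  have htree : ∀ y ∈ S, y ≠ x → (fun _ => x) y ∈ S ∧
      (fun y => if y = x then 0 else 1) ((fun _ => x) y) < (fun y => if y = x then 0 else 1) y ∧
      ds y ((fun _ => x) y) ≤ 0 := by
    intro y hy hyx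
    refine ⟨hx, ?_, (hall y hy).le⟩
    simp [hyx]
  have hSb : ∀ e ∈ S, e ∈ blk (pos x) 1 := fun e he =>
    Pool.Agent.Y100.NE.mem_blk_one (hall e he)
  by_cases hD : 1 ≤ t' / 2
  · obtain ⟨D, hDdef⟩ : ∃ D, D = t' / 2 := ⟨_, rfl⟩
    rw [← hDdef] at hD
    refine ⟨fun F => A4a (pos x) 1 D (↑F : Set Edg), fun _ => x,
      fun y => if y = x then 0 else 1, ?_, ?_, htree, ?_⟩
    · intro F F' hFF
      apply A4a_congr
      have hsub : blk (pos x) D \ blk (pos x) 1 ⊆ nb S (t' / 2) \ S := by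
        intro e he
        rw [Finset.mem_sdiff] at he ⊢
        refine ⟨?_, fun h => he.2 (hSb e h)⟩
        unfold nb
        rw [Finset.mem_biUnion]
        exact ⟨x, hx, by rw [← hDdef]; exact he.1⟩
      ext e
      have h1 := Finset.ext_iff.1 hFF e
      simp only [Finset.mem_inter] at h1
      simp only [Set.mem_inter_iff, mem_coe]
      constructor
      · rintro ⟨h2, h3⟩
        exact ⟨(h1.1 ⟨h2, hsub h3⟩).1, h3⟩
      · rintro ⟨h2, h3⟩
        exact ⟨(h1.2 ⟨h2, hsub h3⟩).1, h3⟩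
    · intro S' hSS' hfin hfar F hQ
      refine hQ (pos x) 1 D S hD hSS' ⟨x, hx⟩ (nonempty_sdiff hSS' (fun h => hfin h)) hSb ?_
      rw [Finset.disjoint_left]
      intro e he he'
      have h6 := hfar x hx e he
      have h7 := mem_blk_pos he'
      rw [Pool.Agent.Y239.NE.Dec.ds_comm] at h7
      omega
    · rw [hprod, pow_one, mul_one]
      have h1 := hpr (pos x) 1 D le_rfl hD (boxE M) (blk_box (hS hx) (by omega))
      have h2 : ((1:ℕ):ℝ) / D = 1 / D := by norm_num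
      have h3 := ps_mul (r := 1) le_rfl hD
      have h4 : ps 1 = 1 := by unfold ps; simp
      rw [h4, one_mul] at h3
      rw [h3] at h1
      have h5 : ps D ≤ ((4:ℕ):ℝ) ^ 2 * ps t' := ps_cmp (by norm_num) (by omega)
      have h6 := ps_pos t'
      push_cast at h5
      calc PQ (1 / 2) (boxE M) (fun F => A4a (pos x) 1 D ↑F) ≤ C1 * ps D := h1
        _ ≤ C1 * (4 ^ 2 * ps t') := mul_le_mul_of_nonneg_left h5 hC1.le
        _ = (16 * C1) * ps t' := by ring
        _ ≤ a * ps t' := by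
            apply mul_le_mul_of_nonneg_right _ h6.le
            linarith
  · refine ⟨fun _ => True, fun _ => x, fun y => if y = x then 0 else 1, fun F F' _ => Iff.rfl,
      fun _ _ _ _ _ _ => trivial, htree, ?_⟩
    rw [hprod, pow_one, mul_one]
    have h0 : PQ (1 / 2) (boxE M) (fun _ => True) ≤ 1 := Pr_le_one okh _ _
    have h5 : ps 0 ≤ ((4:ℕ):ℝ) ^ 2 * ps t' := ps_cmp (by norm_num) (by omega)
    rw [ps_zero] at h5
    push_cast at h5
    have h6 := ps_pos t'
    calc PQ (1 / 2) (boxE M) (fun _ => True) ≤ 1 := h0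
      _ ≤ 4 ^ 2 * ps t' := h5
      _ ≤ a * ps t' := by
          apply mul_le_mul_of_nonneg_right _ h6.le
          linarith

/-- START: change of the radius. -/
theorem startK {a : ℝ} {M t k : ℕ} {fin : Prop} {R : Finset Edg} {x : Edg} (ha : 4 ≤ a)
    (h : GK M t (t + 1) (max t (dm R)) a k fin R x) :
    GK M t (t + 1) (max (t + 1) (dm R)) a (k + 1) fin R x := by
  obtain ⟨Ev, par, rk, h1, h2, h3, h4⟩ := h
  refine ⟨Ev, par, rk, h1, h2, h3, h4.trans ?_⟩
  have h5 : ps (max t (dm R)) ≤ ((2:ℕ):ℝ) ^ 2 * ps (max (t + 1) (dm R)) :=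
    ps_cmp (by norm_num) (by omega)
  push_cast at h5
  have h6 : 0 ≤ a ^ k * ∏ y ∈ R.erase x, ps (ds y (par y)) :=
    mul_nonneg (pow_nonneg (by linarith) _) (prod_ps_nonneg _ _)
  have h7 := (ps_pos (max (t + 1) (dm R))).le
  have h8 : 2 ^ 2 * ps (max (t + 1) (dm R)) ≤ a * ps (max (t + 1) (dm R)) := by
    apply mul_le_mul_of_nonneg_right _ h7
    linarith
  calc a ^ k * (∏ y ∈ R.erase x, ps (ds y (par y))) * ps (max t (dm R)) ≤
        a ^ k * (∏ y ∈ R.erase x, ps (ds y (par y))) *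
          (a * ps (max (t + 1) (dm R))) := mul_le_mul_of_nonneg_left (h5.trans h8) h6
    _ = _ := by rw [pow_succ]; ring

/-- the comparison of the products of the bounds -/
theorem merge_ps {t : ℕ} {U R : Finset Edg} {b u : Edg} (hu : u ∈ U) (hb : b ∈ R)
    (hbu : ds b u ≤ t + 1) :
    ps (max (t + 1) (dm U)) * ps (max t (dm R)) ≤
      72 * (ps (ds b u) * ps (max (t + 1) (dm (U ∪ R)))) := by
  obtain ⟨L, hM⟩ : ∃ L, L = max (t + 1) (dm U) := ⟨_, rfl⟩
  obtain ⟨L', hM'⟩ : ∃ L', L' = max (t + 1) (dm (U ∪ R)) := ⟨_, rfl⟩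
  have h1 := dm_union hu hb hbu
  rw [← hM, ← hM']
  have p0 := ps_pos L
  have p1 := ps_pos (ds b u)
  have p2 := ps_pos L'
  have p3 := ps_pos (max t (dm R))
  rcases le_total (dm R) L with hc | hc
  · have e1 : ps L ≤ ((3:ℕ):ℝ) ^ 2 * ps L' := ps_cmp (by norm_num) (by omega)
    have e3 : ps (max t (dm R)) ≤ ((2:ℕ):ℝ) ^ 2 * ps (t + 1) :=
      (ps_anti (le_max_left _ _)).trans (ps_cmp (by norm_num) (by omega))
    have e4 : ps (t + 1) ≤ ps (ds b u) := ps_anti hbu
    push_cast at e1 e3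
    calc ps L * ps (max t (dm R)) ≤ (3 ^ 2 * ps L') * (4 * ps (ds b u)) := by
          apply mul_le_mul e1 _ p3.le (by positivity)
          linarith
      _ = 36 * (ps (ds b u) * ps L') := by ring
      _ ≤ _ := by nlinarith [mul_pos p1 p2]
  · have e4 : ps L ≤ ps (ds b u) := ps_anti (by omega)
    have e5 : ps (max t (dm R)) ≤ ((3:ℕ):ℝ) ^ 2 * ps L' := ps_cmp (by norm_num) (by omega)
    push_cast at e5
    calc ps L * ps (max t (dm R)) ≤ ps (ds b u) * (3 ^ 2 * ps L') :=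
          mul_le_mul e4 e5 p3.le p1.le
      _ = 9 * (ps (ds b u) * ps L') := by ring
      _ ≤ _ := by nlinarith [mul_pos p1 p2]

/-- MERGE: union of two sets at distance `t + 1`. -/
theorem mergeK {a : ℝ} {M t k k' : ℕ} {f1 f2 : Prop} {U R : Finset Edg} {x b u : Edg}
    (ha : 72 ≤ a) (hx : x ∈ U) (hu : u ∈ U) (hb : b ∈ R) (hbu : ds b u ≤ t + 1)
    (hfar : ∀ v ∈ U, ∀ w ∈ R, t < ds v w)
    (hGU : GK M t (t + 1) (max (t + 1) (dm U)) a k f1 U x)
    (hGR : GK M t (t + 1) (max t (dm R)) a k' f2 R b) :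
    GK M t (t + 1) (max (t + 1) (dm (U ∪ R))) a (k + k' + 1) True (U ∪ R) x := by
  classical
  obtain ⟨EU, pU, rU, u1, u2, u3, u4⟩ := hGU
  obtain ⟨ER, pR, rR, w1, w2, w3, w4⟩ := hGR
  have hdis : ∀ v ∈ U, v ∉ R := by
    intro v hv hv'
    have h1 := hfar v hv v hv'
    have h2 : ds v v = 0 := by unfold ds; simp
    omega
  have hUR : Disjoint U R := Finset.disjoint_left.2 hdis
  have hnbU : ∀ e ∈ nb U (t / 2), ∃ v ∈ U, ds e v ≤ t / 2 := by
    intro e he
    unfold nb at he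
    obtain ⟨v, hv, h1⟩ := mem_biUnion.1 he
    exact ⟨v, hv, mem_blk_pos h1⟩
  have hnbR : ∀ e ∈ nb R (t / 2), ∃ v ∈ R, ds e v ≤ t / 2 := by
    intro e he
    unfold nb at he
    obtain ⟨v, hv, h1⟩ := mem_biUnion.1 he
    exact ⟨v, hv, mem_blk_pos h1⟩
  have hcomm := Pool.Agent.Y239.NE.Dec.ds_comm
  have hsubU : nb U (t / 2) \ U ⊆ nb (U ∪ R) (t / 2) \ (U ∪ R) := by
    intro e he
    rw [mem_sdiff] at he ⊢
    obtain ⟨v, hv, h1⟩ := hnbU e he.1
    refine ⟨?_, ?_⟩
    · unfold nb at he ⊢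
      exact Finset.biUnion_subset_biUnion_of_subset_left _ subset_union_left he.1
    · rw [mem_union]
      rintro (h | h)
      · exact he.2 h
      · have h2 := hfar v hv e h
        rw [hcomm] at h2
        omega
  have hsubR : nb R (t / 2) \ R ⊆ nb (U ∪ R) (t / 2) \ (U ∪ R) := by
    intro e he
    rw [mem_sdiff] at he ⊢
    obtain ⟨v, hv, h1⟩ := hnbR e he.1
    refine ⟨?_, ?_⟩
    · unfold nb at he ⊢
      exact Finset.biUnion_subset_biUnion_of_subset_left _ subset_union_right he.1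
    · rw [mem_union]
      rintro (h | h)
      · have h2 := hfar e h v hv
        omega
      · exact he.2 h
  have hdreg : Disjoint (nb U (t / 2) \ U) (nb R (t / 2) \ R) := by
    rw [Finset.disjoint_left]
    intro e he he'
    obtain ⟨v, hv, h1⟩ := hnbU e (mem_sdiff.1 he).1
    obtain ⟨w, hw, h2⟩ := hnbR e (mem_sdiff.1 he').1
    have h3 := hfar v hv w hw
    have h4 := ds_tri v e w
    rw [hcomm v e] at h4
    omega
  have hres : ∀ {A B : Finset Edg}, A ⊆ B → ∀ {F F' : Finset Edg}, F ∩ B = F' ∩ B →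
      F ∩ A = F' ∩ A := by
    intro A B hAB F F' h
    have e1 : F ∩ A = (F ∩ B) ∩ A := by
      rw [Finset.inter_assoc, Finset.inter_eq_right.mpr hAB]
    have e2 : F' ∩ A = (F' ∩ B) ∩ A := by
      rw [Finset.inter_assoc, Finset.inter_eq_right.mpr hAB]
    rw [e1, e2, h]
  refine ⟨fun F => EU F ∧ ER F, fun y => if y ∈ U then pU y else if y = b then u else pR y,
    fun y => if y ∈ U then rU y else rR y + rU u + 1, ?_, ?_, ?_, ?_⟩
  · intro F F' hFF
    exact and_congr (u1 F F' (hres hsubU hFF)) (w1 F F' (hres hsubR hFF))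
  · intro S' hS' _ hS'd F hQ
    refine ⟨u2 S' (subset_union_left.trans hS') ?_ ?_ F hQ,
      w2 S' (subset_union_right.trans hS') ?_ ?_ F hQ⟩
    · intro h
      exact absurd (h ▸ hS' (mem_union_right _ hb)) (fun h' => hdis b h' hb)
    · intro v hv w hw
      by_cases hwR : w ∈ R
      · exact hfar v hv w hwR
      · refine hS'd v (mem_union_left _ hv) w ?_
        rw [mem_sdiff] at hw ⊢
        refine ⟨hw.1, ?_⟩
        rw [mem_union]
        rintro (h | h)
        · exact hw.2 h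
        · exact hwR h
    · intro h
      exact absurd (h ▸ hS' (mem_union_left _ hu)) (fun h' => hdis u hu h')
    · intro v hv w hw
      by_cases hwU : w ∈ U
      · rw [hcomm]
        exact hfar w hwU v hv
      · refine hS'd v (mem_union_right _ hv) w ?_
        rw [mem_sdiff] at hw ⊢
        refine ⟨hw.1, ?_⟩
        rw [mem_union]
        rintro (h | h)
        · exact hwU h
        · exact hw.2 h
  · intro y hy hyx
    by_cases hyU : y ∈ U
    · obtain ⟨g1, g2, g3⟩ := u3 y hyU hyx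
      simp only [if_pos hyU, if_pos g1]
      exact ⟨mem_union_left _ g1, g2, g3⟩
    · have hyR : y ∈ R := (mem_union.1 hy).resolve_left hyU
      by_cases hyb : y = b
      · simp only [if_neg hyU, if_pos hyb, if_pos hu]
        refine ⟨mem_union_left _ hu, by omega, ?_⟩
        rw [hyb]
        exact hbu
      · obtain ⟨g1, g2, g3⟩ := w3 y hyR hyb
        have g4 : pR y ∉ U := fun h => hdis _ h g1
        simp only [if_neg hyU, if_neg hyb, if_neg g4]
        exact ⟨mem_union_right _ g1, by omega, g3⟩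
  · -- the probability
    have ha0 : 0 ≤ a := by linarith
    have hind : PQ (1 / 2) (boxE M) (fun F => EU F ∧ ER F) =
        PQ (1 / 2) (boxE M) EU * PQ (1 / 2) (boxE M) ER := by
      unfold PQ
      refine Pr_indep (S := (nb U (t / 2) \ U) ∩ boxE M) (T := (nb R (t / 2) \ R) ∩ boxE M)
        inter_subset_right inter_subset_right ?_ ?_ ?_
      · exact hdreg.mono inter_subset_left inter_subset_left
      · intro F hF
        apply u1
        ext e
        simp only [mem_inter]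
        constructor
        · rintro ⟨h1, h2⟩
          exact ⟨⟨h1, h2, hF h1⟩, h2⟩
        · rintro ⟨⟨h1, -⟩, h2⟩
          exact ⟨h1, h2⟩
      · intro F hF
        apply w1
        ext e
        simp only [mem_inter]
        constructor
        · rintro ⟨h1, h2⟩
          exact ⟨⟨h1, h2, hF h1⟩, h2⟩
        · rintro ⟨⟨h1, -⟩, h2⟩
          exact ⟨h1, h2⟩
    rw [hind]
    obtain ⟨PU, hPU⟩ : ∃ PU : ℝ, PU = ∏ y ∈ U.erase x, ps (ds y (pU y)) := ⟨_, rfl⟩
    obtain ⟨PR, hPR⟩ : ∃ PR : ℝ, PR = ∏ y ∈ R.erase b, ps (ds y (pR y)) := ⟨_, rfl⟩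
    have hPU0 : 0 ≤ PU := by rw [hPU]; exact prod_ps_nonneg _ _
    have hPR0 : 0 ≤ PR := by rw [hPR]; exact prod_ps_nonneg _ _
    have hprod : (∏ y ∈ (U ∪ R).erase x,
        ps (ds y (if y ∈ U then pU y else if y = b then u else pR y))) =
        PU * (ps (ds b u) * PR) := by
      have e1 : (U ∪ R).erase x = (U.erase x) ∪ R := by
        rw [Finset.erase_union_distrib, Finset.erase_eq_of_notMem (hdis x hx)]
      have e2 : Disjoint (U.erase x) R := hUR.mono_left (Finset.erase_subset _ _)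
      rw [e1, Finset.prod_union e2, hPU]
      congr 1
      · apply Finset.prod_congr rfl
        intro y hy
        rw [if_pos (Finset.mem_of_mem_erase hy)]
      · rw [← Finset.mul_prod_erase R _ hb, hPR]
        have hbU : b ∉ U := fun h => hdis b h hb
        rw [if_neg hbU, if_pos rfl]
        congr 1
        apply Finset.prod_congr rfl
        intro y hy
        rw [if_neg (fun h => hdis y h (Finset.mem_of_mem_erase hy)),
          if_neg (Finset.ne_of_mem_erase hy)]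
    rw [hprod]
    rw [← hPU] at u4
    rw [← hPR] at w4
    have hmp := merge_ps hu hb hbu (U := U) (R := R)
    have z1 := (ps_pos (max (t + 1) (dm U))).le
    have z2 := (ps_pos (max t (dm R))).le
    have z3 := (ps_pos (ds b u)).le
    have z4 := (ps_pos (max (t + 1) (dm (U ∪ R)))).le
    have z5 : 0 ≤ PQ (1 / 2) (boxE M) ER := Pr_nonneg okh _ _
    have hak : 0 ≤ a ^ k := pow_nonneg ha0 _
    have hak' : 0 ≤ a ^ k' := pow_nonneg ha0 _
    calc PQ (1 / 2) (boxE M) EU * PQ (1 / 2) (boxE M) ER ≤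
          (a ^ k * PU * ps (max (t + 1) (dm U))) *
            (a ^ k' * PR * ps (max t (dm R))) :=
          mul_le_mul u4 w4 z5 (by positivity)
      _ = a ^ k * a ^ k' * PU * PR *
            (ps (max (t + 1) (dm U)) * ps (max t (dm R))) := by ring
      _ ≤ a ^ k * a ^ k' * PU * PR *
            (72 * (ps (ds b u) * ps (max (t + 1) (dm (U ∪ R))))) :=
          mul_le_mul_of_nonneg_left hmp (by positivity)
      _ ≤ a ^ k * a ^ k' * PU * PR *
            (a * (ps (ds b u) * ps (max (t + 1) (dm (U ∪ R))))) := by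
          apply mul_le_mul_of_nonneg_left _ (by positivity)
          exact mul_le_mul_of_nonneg_right ha (mul_nonneg z3 z4)
      _ = _ := by rw [pow_succ, pow_add]; ring

end Pool.Agent.V11321.AL
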