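import Pool.Agent.V11321.AL.Stm
import Pool.Agent.H12R2.Sep.Loc

/-!
Project AL: the mean cluster density as an integral.
-/

set_option autoImplicit false

namespace Pool.Agent.V11321.AL

open H974 H12S Finset Filter Topology

/-! ### the number of clusters when an edge is added -/

/-- The cluster of `v`. -/
def Cl (F : Set Edg) (v : Vtx) : Set Vtx := {u | Reach F v u}

theorem cl_eq_iff {F : Set Edg} {v w : Vtx} : Cl F v = Cl F w ↔ Reach F v w := by
  constructor
  · intro h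
    have h1 : w ∈ Cl F w := Reach.refl _ _
    rw [← h] at h1
    exact h1
  · intro h
    ext u
    exact ⟨fun h1 => h.symm.trans h1, fun h1 => h.trans h1⟩

open Classical in
theorem K_eq (n : ℕ) (F : Finset Edg) :
    K n F = ((bxV n).image (Cl (↑F : Set Edg))).card := by
  unfold K
  rw [← Set.ncard_coe_finset]
  congr 1
  ext C
  simp only [coe_image, Set.mem_image, mem_coe]
  change (∃ v ∈ bxV n, C = Cl (↑F : Set Edg) v) ↔ _
  constructor
  · rintro ⟨v, hv, rfl⟩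
    exact ⟨v, hv, rfl⟩
  · rintro ⟨v, hv, rfl⟩
    exact ⟨v, hv, rfl⟩

theorem mem_bxV {n : ℕ} {v : Vtx} : v ∈ bxV n ↔ (0 ≤ v.1 ∧ v.1 ≤ (n:ℤ) - 1) ∧
    (0 ≤ v.2 ∧ v.2 ≤ (n:ℤ) - 1) := by
  unfold bxV
  rw [Finset.mem_product, Finset.mem_Icc, Finset.mem_Icc]

theorem ends_bx {n : ℕ} {e : Edg} (he : e ∈ bxE n) : src e ∈ bxV n ∧ tgt e ∈ bxV n := by
  rw [mem_bxV, mem_bxV]
  unfold bxE at he
  obtain ⟨x, y, _ | _⟩ := e
  · rw [mem_RE_false] at he
    simp only [src_mk, tgt_false]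
    omega
  · rw [mem_RE_true] at he
    simp only [src_mk, tgt_true]
    omega

theorem K_insert {n : ℕ} {e : Edg} {F : Finset Edg} (he : e ∈ bxE n) (heF : e ∉ F) :
    (K n (insert e F) : ℝ) - K n F = - (1 - ind (Reach (↑F : Set Edg) (src e) (tgt e))) := by
  classical
  obtain ⟨ha, hb⟩ := ends_bx he
  have hsd : (↑F : Set Edg) \ {e} = ↑F := Set.sdiff_singleton_eq_self (by exact_mod_cast heF)
  have hsub : (↑F : Set Edg) ⊆ ↑(insert e F) := by
    rw [Finset.coe_insert]; exact Set.subset_insert _ _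
  have hins : ∀ {u v : Vtx}, Reach (↑(insert e F) : Set Edg) u v → Reach (↑F : Set Edg) u v ∨
      (Reach (↑F : Set Edg) u (src e) ∧ Reach (↑F : Set Edg) (tgt e) v) ∨
      (Reach (↑F : Set Edg) u (tgt e) ∧ Reach (↑F : Set Edg) (src e) v) := by
    intro u v h
    rw [Finset.coe_insert] at h
    have := reach_insert h
    rwa [hsd] at this
  have hab : Reach (↑(insert e F) : Set Edg) (src e) (tgt e) := by
    apply Adj.reach
    exact ⟨e, by simp, Or.inl ⟨rfl, rfl⟩⟩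
  by_cases h : Reach (↑F : Set Edg) (src e) (tgt e)
  · rw [ind_of h]
    have h1 : K n (insert e F) = K n F := by
      rw [K_eq, K_eq]
      congr 1
      apply Finset.image_congr
      intro v _
      ext u
      constructor
      · intro h2
        rcases hins h2 with h3 | ⟨h3, h4⟩ | ⟨h3, h4⟩
        · exact h3
        · exact (h3.trans h).trans h4
        · exact (h3.trans h.symm).trans h4
      · intro h2
        exact Reach.mono hsub h2
    rw [h1]
    simp
  · rw [ind_not_of h]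
    obtain ⟨φ, hφ⟩ : ∃ φ : Set Vtx → Set Vtx,
      ∀ v, φ (Cl (↑F : Set Edg) v) = Cl (↑(insert e F) : Set Edg) v := by
      refine ⟨fun C => {w | ∃ u ∈ C, Reach (↑(insert e F) : Set Edg) u w}, ?_⟩
      intro v
      ext w
      constructor
      · rintro ⟨u, hu, huw⟩
        exact (Reach.mono hsub hu).trans huw
      · intro hw
        exact ⟨v, Reach.refl _ _, hw⟩
    have hne : Cl (↑F : Set Edg) (src e) ≠ Cl (↑F : Set Edg) (tgt e) := fun hc =>
      h (cl_eq_iff.1 hc)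
    have h1 : (bxV n).image (Cl (↑(insert e F) : Set Edg)) =
        (((bxV n).image (Cl (↑F : Set Edg))).erase (Cl (↑F : Set Edg) (tgt e))).image φ := by
      ext C
      simp only [Finset.mem_image, Finset.mem_erase]
      constructor
      · rintro ⟨v, hv, rfl⟩
        by_cases hvb : Cl (↑F : Set Edg) v = Cl (↑F : Set Edg) (tgt e)
        · refine ⟨Cl (↑F : Set Edg) (src e), ⟨hne, _, ha, rfl⟩, ?_⟩
          rw [hφ, cl_eq_iff]
          exact hab.trans (Reach.mono hsub (cl_eq_iff.1 hvb)).symm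
        · exact ⟨_, ⟨hvb, v, hv, rfl⟩, hφ v⟩
      · rintro ⟨D, ⟨_, v, hv, rfl⟩, rfl⟩
        exact ⟨v, hv, (hφ v).symm⟩
    have h2 : ((((bxV n).image (Cl (↑F : Set Edg))).erase (Cl (↑F : Set Edg) (tgt e))).image
        φ).card = (((bxV n).image (Cl (↑F : Set Edg))).erase (Cl (↑F : Set Edg) (tgt e))).card := by
      apply Finset.card_image_of_injOn
      intro C hC D hD hCD
      simp only [Finset.coe_erase, Finset.coe_image, Set.mem_sdiff, Set.mem_image,
        Finset.mem_coe, Set.mem_singleton_iff] at hC hD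
      obtain ⟨⟨v, hv, rfl⟩, hC⟩ := hC
      obtain ⟨⟨w, hw, rfl⟩, hD⟩ := hD
      rw [hφ, hφ, cl_eq_iff] at hCD
      rw [cl_eq_iff]
      rcases hins hCD with h3 | ⟨h3, h4⟩ | ⟨h3, h4⟩
      · exact h3
      · exact absurd (cl_eq_iff.2 h4).symm hD
      · exact absurd (cl_eq_iff.2 h3) hC
    have h3 : (((bxV n).image (Cl (↑F : Set Edg))).erase (Cl (↑F : Set Edg) (tgt e))).card + 1 =
        ((bxV n).image (Cl (↑F : Set Edg))).card :=
      Finset.card_erase_add_one (Finset.mem_image_of_mem _ hb)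
    have h4 : K n (insert e F) + 1 = K n F := by
      rw [K_eq, K_eq, h1, h2, h3]
    have h5 : (K n (insert e F) : ℝ) + 1 = K n F := by exact_mod_cast h4
    linarith

theorem K_empty (n : ℕ) : K n ∅ = n ^ 2 := by
  classical
  rw [K_eq, Finset.card_image_of_injOn]
  · unfold bxV
    rw [Finset.card_product, Int.card_Icc]
    have : ((n:ℤ) - 1 + 1 - 0).toNat = n := by omega
    rw [this, sq]
  · intro v _ w _ h
    rw [cl_eq_iff] at h
    have h2 : ∀ u, Reach (↑(∅ : Finset Edg) : Set Edg) v u → v = u := by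
      intro u hu
      induction hu with
      | refl => rfl
      | tail _ hs _ =>
        obtain ⟨e, he, _⟩ := hs
        simp at he
    exact h2 w h

/-! ### the derivative -/

/-- Probability that `e` is in a loop of the box, given that it is open. -/
noncomputable def PL (n : ℕ) (e : Edg) (q : ℝ) : ℝ :=
  Pr (fun _ => q) (bxE n) (fun F => Loop e ↑F)

theorem PL_eq (n : ℕ) (e : Edg) (q : ℝ) : PL n e q =
    Pr (fun _ => q) ((bxE n).erase e) (fun F => Reach (↑F : Set Edg) (src e) (tgt e)) := by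
  unfold PL
  rw [Pr_local (Finset.erase_subset e (bxE n))]
  · apply Pr_congr
    intro F hF
    unfold Loop
    rw [Set.sdiff_singleton_eq_self]
    intro h
    exact (Finset.notMem_erase e _) (hF (Finset.mem_coe.1 h))
  · intro F hF
    unfold Loop
    have : (↑F : Set Edg) \ {e} = (↑(F ∩ (bxE n).erase e) : Set Edg) \ {e} := by
      ext g
      simp only [Set.mem_sdiff, mem_coe, Finset.mem_inter, Finset.mem_erase,
        Set.mem_singleton_iff]
      constructor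
      · rintro ⟨h2, h3⟩
        exact ⟨⟨h2, h3, hF h2⟩, h3⟩
      · rintro ⟨⟨h2, _⟩, h3⟩
        exact ⟨h2, h3⟩
    rw [this]

theorem EK_deriv (n : ℕ) (q : ℝ) :
    HasDerivAt (fun q => Ex (fun _ : Edg => q) (bxE n) (fun F => (K n F : ℝ)))
      (-∑ e ∈ bxE n, (1 - PL n e q)) q := by
  have h := Ex_hasDerivAt (E := Edg) (fun q _ => q) (fun _ => 1) q (fun _ => hasDerivAt_id q)
    (bxE n) (fun F => (K n F : ℝ))
  convert h using 1
  rw [← Finset.sum_neg_distrib]
  apply Finset.sum_congr rfl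
  intro e he
  rw [one_mul, PL_eq]
  rw [Ex_congr (g := fun F => ind (Reach (↑F : Set Edg) (src e) (tgt e)) - 1)]
  · rw [Ex_sub, Ex_const]
    unfold Pr
    ring
  · intro F hF
    rw [K_insert he (fun h => (Finset.notMem_erase e _) (hF h))]
    ring

/-! ### translations -/

theorem loop_sym (g : LSym) {e e' : Edg} (he : g.φ e = e')
    (h1 : g.ψ (src e) = src e') (h2 : g.ψ (tgt e) = tgt e') (F : Finset Edg) :
    Loop e' (↑(g.mp F) : Set Edg) ↔ Loop e ↑F := by
  unfold Loop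
  rw [← g.reach_iff (F := (↑F : Set Edg) \ {e}), h1, h2]
  have : (↑(g.mp F) : Set Edg) \ {e'} = g.φ '' ((↑F : Set Edg) \ {e}) := by
    rw [g.coe_mp, Set.image_sdiff g.φ.injective, Set.image_singleton, he]
  rw [this]

/-- The box of radius `M` around `e`. -/
noncomputable def bxA (e : Edg) (M : ℕ) : Finset Edg :=
  RE (-(M:ℤ) + e.1) (M + e.1) (-(M:ℤ) + e.2.1) (M + e.2.1)

theorem pr_bxA (e : Edg) (M : ℕ) (q : ℝ) :
    Pr (fun _ => q) (bxA e M) (fun F => Loop e ↑F) = G M q := by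
  obtain ⟨x, y, b⟩ := e
  unfold bxA
  rw [← trl_RE, LSym.pr]
  cases b
  · rw [Pr_congr (B := fun F => Loop ((0, 0, false) : Edg) ↑F)
      (fun F _ => loop_sym (trl x y) (e := (0, 0, false)) (e' := (x, y, false)) (by simp)
        (by simp) (by simp [add_comm]) F)]
    rw [← tps_RE, LSym.pr]
    rw [Pr_congr (B := fun F => Loop er ↑F)
      (fun F _ => loop_sym tps (e := er) (e' := (0, 0, false)) (by simp [er])
        (by simp [er]) (by simp [er]) F)]
    rfl
  · rw [Pr_congr (B := fun F => Loop er ↑F)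
      (fun F _ => loop_sym (trl x y) (e := er) (e' := (x, y, true)) (by simp [er])
        (by simp [er]) (by simp [er, add_comm]) F)]
    rfl

theorem loop_incr' (e : Edg) (S : Finset Edg) : IncrE S (fun F => Loop e (↑F : Set Edg)) := by
  intro F F' h _ hF
  exact Reach.mono (Set.sdiff_subset_sdiff_left (by exact_mod_cast h)) hF

theorem okq {q : ℝ} (h0 : 0 ≤ q) (h1 : q ≤ 1) : Ok (fun _ : Edg => q) := fun _ => ⟨h0, h1⟩

theorem Gm {q : ℝ} (h0 : 0 ≤ q) (h1 : q ≤ 1) : Monotone (fun M => G M q) := by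
  intro M M' h
  exact Pr_mono_set (okq h0 h1) (boxE_mono h) (loop_incr' _ _)

theorem PL_le {n : ℕ} {e : Edg} (he : e ∈ bxE n) {q : ℝ} (h0 : 0 ≤ q) (h1 : q ≤ 1) :
    PL n e q ≤ G n q := by
  rw [← pr_bxA e n]
  apply Pr_mono_set (okq h0 h1) _ (loop_incr' _ _)
  unfold bxE bxA at *
  obtain ⟨x, y, b⟩ := e
  have h2 : 0 ≤ x ∧ x ≤ (n:ℤ) - 1 ∧ 0 ≤ y ∧ y ≤ (n:ℤ) - 1 := by
    cases b
    · rw [mem_RE_false] at he; omega
    · rw [mem_RE_true] at he; omega
  rintro ⟨u, v, _ | _⟩ hf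
  · rw [mem_RE_false] at hf ⊢
    simp only
    omega
  · rw [mem_RE_true] at hf ⊢
    simp only
    omega

theorem le_PL {n M : ℕ} {e : Edg} (h2 : (M:ℤ) ≤ e.1) (h3 : e.1 + M ≤ (n:ℤ) - 1)
    (h4 : (M:ℤ) ≤ e.2.1) (h5 : e.2.1 + M ≤ (n:ℤ) - 1) {q : ℝ} (h0 : 0 ≤ q) (h1 : q ≤ 1) :
    G M q ≤ PL n e q := by
  rw [← pr_bxA e M]
  apply Pr_mono_set (okq h0 h1) _ (loop_incr' _ _)
  unfold bxE bxA at *
  obtain ⟨x, y, b⟩ := e
  simp only at h2 h3 h4 h5
  rintro ⟨u, v, _ | _⟩ hf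
  · rw [mem_RE_false] at hf ⊢
    simp only at hf ⊢
    omega
  · rw [mem_RE_true] at hf ⊢
    simp only at hf ⊢
    omega

/-! ### counting the edges -/

theorem bxE_card (n : ℕ) : ((bxE n).card : ℝ) ≤ 2 * n ^ 2 ∧
    2 * (n:ℝ) ^ 2 - 2 * n ≤ (bxE n).card := by
  classical
  have h1 : bxE n = ((Icc (0:ℤ) ((n:ℤ) - 2) ×ˢ Icc (0:ℤ) ((n:ℤ) - 1)).image
      (fun v => ((v.1, v.2, true) : Edg))) ∪ ((Icc (0:ℤ) ((n:ℤ) - 1) ×ˢ Icc (0:ℤ) ((n:ℤ) - 2)).image
      (fun v => ((v.1, v.2, false) : Edg))) := by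
    ext ⟨x, y, b⟩
    unfold bxE
    cases b
    · rw [mem_RE_false]
      simp
      omega
    · rw [mem_RE_true]
      simp
      omega
  have h2 : (bxE n).card = 2 * (n * (n - 1)) := by
    rw [h1, Finset.card_union_of_disjoint, Finset.card_image_of_injective,
      Finset.card_image_of_injective, Finset.card_product, Finset.card_product, Int.card_Icc,
      Int.card_Icc]
    · have e1 : ((n:ℤ) - 2 + 1 - 0).toNat = n - 1 := by omega
      have e2 : ((n:ℤ) - 1 + 1 - 0).toNat = n := by omega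
      rw [e1, e2]
      ring
    · rintro ⟨a, b⟩ ⟨c, d⟩ h
      simp only [Prod.mk.injEq, and_true] at h
      exact Prod.ext h.1 h.2
    · rintro ⟨a, b⟩ ⟨c, d⟩ h
      simp only [Prod.mk.injEq, and_true] at h
      exact Prod.ext h.1 h.2
    · rw [Finset.disjoint_left]
      intro e he he'
      rw [Finset.mem_image] at he he'
      obtain ⟨v, _, rfl⟩ := he
      obtain ⟨w, _, hw⟩ := he'
      simp at hw
  rw [h2]
  rcases Nat.eq_zero_or_pos n with hn | hn
  · subst hn; simp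
  · obtain ⟨m, rfl⟩ : ∃ m, n = m + 1 := ⟨n - 1, by omega⟩
    push_cast
    constructor <;> nlinarith [(Nat.cast_nonneg m : (0:ℝ) ≤ m)]

/-- the edges at distance more than `M` from the boundary -/
noncomputable def bxI (n M : ℕ) : Finset Edg :=
  Icc (M:ℤ) ((n:ℤ) - 1 - M) ×ˢ (Icc (M:ℤ) ((n:ℤ) - 1 - M) ×ˢ Finset.univ)

theorem bxI_card {n M : ℕ} (h : 2 * M ≤ n) : ((bxI n M).card : ℝ) = 2 * (n - 2 * M) ^ 2 := by
  unfold bxI
  rw [Finset.card_product, Finset.card_product, Int.card_Icc]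
  have e1 : ((n:ℤ) - 1 - M + 1 - M).toNat = n - 2 * M := by omega
  rw [e1]
  simp only [Finset.card_univ, Fintype.card_bool]
  push_cast [Nat.cast_sub h]
  ring

theorem mem_bxI {n M : ℕ} {e : Edg} : e ∈ bxI n M ↔ ((M:ℤ) ≤ e.1 ∧ e.1 ≤ (n:ℤ) - 1 - M) ∧
    ((M:ℤ) ≤ e.2.1 ∧ e.2.1 ≤ (n:ℤ) - 1 - M) := by
  unfold bxI
  simp only [Finset.mem_product, Finset.mem_Icc, Finset.mem_univ, and_true]

theorem bxI_sub {n M : ℕ} (hM : 1 ≤ M) : bxI n M ⊆ bxE n := by
  rintro ⟨x, y, b⟩ he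
  rw [mem_bxI] at he
  simp only at he
  unfold bxE
  cases b
  · rw [mem_RE_false]; omega
  · rw [mem_RE_true]; omega

theorem D_upper {n M : ℕ} (hM : 1 ≤ M) (hn : 2 * M ≤ n) {q : ℝ} (h0 : 0 ≤ q) (h1 : q ≤ 1) :
    ∑ e ∈ bxE n, (1 - PL n e q) ≤ 2 * (n:ℝ) ^ 2 * (1 - G M q) + 8 * M * n := by
  classical
  have hg0 : 0 ≤ G M q := Pr_nonneg (okq h0 h1) _ _
  have hg1 : G M q ≤ 1 := Pr_le_one (okq h0 h1) _ _
  rw [← Finset.sum_sdiff (bxI_sub (n := n) hM)]
  have e1 : ∑ e ∈ bxE n \ bxI n M, (1 - PL n e q) ≤ ((bxE n \ bxI n M).card : ℝ) := by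
    rw [← nsmul_one, ← Finset.sum_const]
    apply Finset.sum_le_sum
    intro e _
    have : 0 ≤ PL n e q := Pr_nonneg (okq h0 h1) _ _
    linarith
  have e2 : ∑ e ∈ bxI n M, (1 - PL n e q) ≤ ((bxI n M).card : ℝ) * (1 - G M q) := by
    rw [← nsmul_eq_mul, ← Finset.sum_const]
    apply Finset.sum_le_sum
    intro e he
    rw [mem_bxI] at he
    have := le_PL (n := n) (M := M) (e := e) (by omega) (by omega) (by omega) (by omega) h0 h1
    linarith
  have e3 : ((bxE n \ bxI n M).card : ℝ) = (bxE n).card - (bxI n M).card := by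
    rw [Finset.card_sdiff_of_subset (bxI_sub hM), Nat.cast_sub (Finset.card_le_card (bxI_sub hM))]
  have e4 := (bxE_card n).1
  have e5 := bxI_card hn
  have e6 : (0:ℝ) ≤ M := Nat.cast_nonneg M
  have e7 : 2 * (M:ℝ) ≤ n := by exact_mod_cast hn
  rw [e3] at e1
  rw [e5] at e1 e2
  have e8 : 2 * ((n:ℝ) - 2 * M) ^ 2 * (1 - G M q) ≤ 2 * (n:ℝ) ^ 2 * (1 - G M q) := by
    apply mul_le_mul_of_nonneg_right _ (by linarith)
    nlinarith
  nlinarith

theorem D_lower {n : ℕ} {g q : ℝ} (h0 : 0 ≤ q) (h1 : q ≤ 1) (hg : G n q ≤ g) (hg1 : g ≤ 1)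
    (hg0 : 0 ≤ g) :
    2 * (n:ℝ) ^ 2 * (1 - g) - 2 * n ≤ ∑ e ∈ bxE n, (1 - PL n e q) := by
  have e1 : ((bxE n).card : ℝ) * (1 - g) ≤ ∑ e ∈ bxE n, (1 - PL n e q) := by
    rw [← nsmul_eq_mul, ← Finset.sum_const]
    apply Finset.sum_le_sum
    intro e he
    have := PL_le he h0 h1
    linarith
  have e2 := (bxE_card n).2
  have e3 : (2 * (n:ℝ) ^ 2 - 2 * n) * (1 - g) ≤ (bxE n).card * (1 - g) :=
    mul_le_mul_of_nonneg_right e2 (by linarith)
  have e4 : (0:ℝ) ≤ n := Nat.cast_nonneg n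
  nlinarith

theorem D_lim {g : ℝ → ℝ}
    (hg : ∀ q ∈ Set.Icc (0:ℝ) 1, Tendsto (fun M : ℕ => G M q) atTop (𝓝 (g q)))
    {q : ℝ} (h0 : 0 ≤ q) (h1 : q ≤ 1) :
    Tendsto (fun n : ℕ => (∑ e ∈ bxE n, (1 - PL n e q)) / (n:ℝ) ^ 2) atTop
      (𝓝 (2 * (1 - g q))) := by
  have hq := hg q ⟨h0, h1⟩
  have hle : ∀ M, G M q ≤ g q := fun M => (Gm h0 h1).ge_of_tendsto hq M
  have hg0 : 0 ≤ g q := (Pr_nonneg (okq h0 h1) _ _).trans (hle 0)
  have hg1 : g q ≤ 1 := le_of_tendsto' hq (fun M => Pr_le_one (okq h0 h1) _ _)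
  rw [Metric.tendsto_atTop]
  intro ε hε
  obtain ⟨M0, hM0⟩ := (Metric.tendsto_atTop.1 hq) (ε / 4) (by linarith)
  obtain ⟨M, hM1, hM2⟩ : ∃ M, M0 ≤ M ∧ 1 ≤ M := ⟨max M0 1, le_max_left _ _, le_max_right _ _⟩
  have hM := hM0 M hM1
  rw [Real.dist_eq, abs_lt] at hM
  obtain ⟨n0, hn0⟩ := exists_nat_gt ((16 * (M:ℝ) + 16) / ε)
  refine ⟨max n0 (2 * M), fun n hn => ?_⟩
  have hn1 : n0 ≤ n := (le_max_left _ _).trans hn
  have hn2 : 2 * M ≤ n := (le_max_right _ _).trans hn
  have hn3 : (0:ℝ) < n := by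
    have : 0 < n := by omega
    exact_mod_cast this
  have hn4 : (16 * (M:ℝ) + 16) < ε * n := by
    have : (16 * (M:ℝ) + 16) / ε < n := hn0.trans_le (by exact_mod_cast hn1)
    rw [div_lt_iff₀ hε] at this
    linarith
  have u := D_upper hM2 hn2 h0 h1
  have l := D_lower (n := n) h0 h1 (hle n) hg1 hg0
  have hn5 : (0:ℝ) < (n:ℝ) ^ 2 := by positivity
  rw [Real.dist_eq, abs_lt]
  constructor
  · rw [neg_lt_sub_iff_lt_add, ← sub_lt_iff_lt_add', lt_div_iff₀ hn5]
    have hM3 : (0:ℝ) ≤ M := Nat.cast_nonneg M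
    nlinarith
  · rw [sub_lt_iff_lt_add, div_lt_iff₀ hn5]
    nlinarith

/-! ### the integral -/

theorem Ex_zero (S : Finset Edg) (f : Finset Edg → ℝ) : Ex (fun _ => (0:ℝ)) S f = f ∅ := by
  induction S using Finset.induction_on generalizing f with
  | empty => rw [Ex_empty]
  | insert a S ha ih => rw [Ex_insert _ ha, ih, ih]; ring

theorem PL_cont (n : ℕ) (e : Edg) : Continuous (fun q => PL n e q) := by
  unfold PL Pr Ex
  fun_prop

theorem kap : S_KAP := by
  intro g hg q hq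
  have hD : ∀ n : ℕ, Continuous (fun q => (∑ e ∈ bxE n, (1 - PL n e q)) / (n:ℝ) ^ 2) := by
    intro n
    exact (continuous_finsetSum _ fun e _ => continuous_const.sub (PL_cont n e)).div_const _
  have h1 : Tendsto (fun n : ℕ => ∫ s in (0:ℝ)..q, (∑ e ∈ bxE n, (1 - PL n e s)) / (n:ℝ) ^ 2)
      atTop (𝓝 (∫ s in (0:ℝ)..q, 2 * (1 - g s))) := by
    apply intervalIntegral.tendsto_integral_filter_of_dominated_convergence (fun _ => (2:ℝ))
    · exact Eventually.of_forall fun n => (hD n).aestronglyMeasurable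
    · refine Eventually.of_forall fun n => Eventually.of_forall fun s hs => ?_
      rw [Set.uIoc_of_le hq.1] at hs
      have hs0 : 0 ≤ s := hs.1.le
      have hs1 : s ≤ 1 := hs.2.trans hq.2
      have hn := D_lower (n := n) (g := 1) hs0 hs1 (Pr_le_one (okq hs0 hs1) _ _) le_rfl zero_le_one
      have hnn : 0 ≤ ∑ e ∈ bxE n, (1 - PL n e s) := Finset.sum_nonneg fun e _ => by
        have : PL n e s ≤ 1 := Pr_le_one (okq hs0 hs1) _ _
        linarith
      rw [Real.norm_eq_abs, abs_of_nonneg (by positivity)]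
      rcases Nat.eq_zero_or_pos n with h0 | h0
      · subst h0
        simp
      · have h2 : (0:ℝ) < n := by exact_mod_cast h0
        rw [div_le_iff₀ (by positivity)]
        refine le_trans ?_ (bxE_card n).1
        rw [← nsmul_one, ← Finset.sum_const]
        apply Finset.sum_le_sum
        intro e _
        have : 0 ≤ PL n e s := Pr_nonneg (okq hs0 hs1) _ _
        linarith
    · exact intervalIntegrable_const
    · refine Eventually.of_forall fun s hs => ?_
      rw [Set.uIoc_of_le hq.1] at hs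
      exact D_lim hg hs.1.le (hs.2.trans hq.2)
  have h2 : ∀ n : ℕ, 1 ≤ n → Ex (fun _ => q) (bxE n) (fun F => (K n F : ℝ)) / (n:ℝ) ^ 2 =
      1 - ∫ s in (0:ℝ)..q, (∑ e ∈ bxE n, (1 - PL n e s)) / (n:ℝ) ^ 2 := by
    intro n hn
    have hn0 : (0:ℝ) < n := by exact_mod_cast hn
    have h3 : ∀ s : ℝ, HasDerivAt (fun q => Ex (fun _ : Edg => q) (bxE n)
        (fun F => (K n F : ℝ)) / (n:ℝ) ^ 2)
        (-((∑ e ∈ bxE n, (1 - PL n e s)) / (n:ℝ) ^ 2)) s := by
      intro s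
      have := (EK_deriv n s).div_const ((n:ℝ) ^ 2)
      rwa [neg_div] at this
    have h4 := intervalIntegral.integral_eq_sub_of_hasDerivAt (a := 0) (b := q)
      (fun s _ => h3 s) ((hD n).neg.intervalIntegrable _ _)
    rw [intervalIntegral.integral_neg] at h4
    have h5 : Ex (fun _ : Edg => (0:ℝ)) (bxE n) (fun F => (K n F : ℝ)) = n ^ 2 := by
      rw [Ex_zero, K_empty]
      push_cast
      rfl
    simp only [h5] at h4
    rw [div_self (by positivity)] at h4
    linarith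
  apply (tendsto_const_nhds.sub h1).congr'
  filter_upwards [eventually_ge_atTop 1] with n hn
  rw [h2 n hn]

end Pool.Agent.V11321.AL
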