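import Pool.Agent.V11321.AL.Good

/-!
Project AL: the annulus around a set, and the bound for the Walsh coefficients.
-/

set_option autoImplicit false

namespace Pool.Agent.V11321.AL

open H974 H12S H389NS Finset Pool.Agent.Y554.NE Pool.Agent.Y554.SN
open Pool.Agent.Y239.NE.Dec (ds_tri mem_blk mem_blk_pos)
open Pool.Agent.Y239.NE.Out (blk_sub mem_blk_of ds_le_dm)
open Pool.Agent.Y968.NE (cmp cmp_sub mem_cmp self_cmp cmp_step cmp_far cmp_ind cmp_conn ds_comm
  ds_self ds_zero)

/-- OUT: the annulus around `S`. -/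
theorem outK : ∃ C : ℝ, 1 ≤ C ∧ ∀ (a : ℝ) (N M t t' k : ℕ) (fin : Prop) (S : Finset Edg)
    (x : Edg), C ≤ a → t + 1 ≤ t' → t' ≤ 4 * N → 4 * N ≤ M → S ⊆ boxE N → x ∈ S →
    GK M t (t + 1) (max (t + 1) (dm S)) a k fin S x →
    GK M t' (t + 1) (max t' (dm S)) a (k + 1) False S x := by
  classical
  obtain ⟨C1, hC1, hpr⟩ := A4a_sharp
  refine ⟨144 * (C1 + 1), by linarith, ?_⟩
  intro a N M t t' k fin S x ha ht ht' hNM hS hx hG
  have ha0 : 0 ≤ a := by linarith
  obtain ⟨Ev, par, rk, g1, g2, g3, g4⟩ := hG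
  obtain ⟨s, hs⟩ : ∃ s, s = max (t + 1) (dm S) := ⟨_, rfl⟩
  rw [← hs] at g4
  obtain ⟨r, hr⟩ : ∃ r, r = dm S + t + 2 := ⟨_, rfl⟩
  obtain ⟨D, hD⟩ : ∃ D, D = t' / 2 := ⟨_, rfl⟩
  have hprod : 0 ≤ a ^ k * (∏ y ∈ S.erase x, ps (ds y (par y))) :=
    mul_nonneg (pow_nonneg ha0 k) (prod_ps_nonneg _ _)
  have hnbm : ∀ {i j : ℕ}, i ≤ j → nb S i ⊆ nb S j := by
    intro i j hij
    unfold nb
    apply Finset.biUnion_mono
    intro e _
    apply blk_sub <;> simp <;> omega
  have hloc : ∀ F F' : Finset Edg, F ∩ (nb S (t' / 2) \ S) = F' ∩ (nb S (t' / 2) \ S) →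
      (Ev F ↔ Ev F') := by
    intro F F' hFF
    apply g1
    have hsub : nb S (t / 2) \ S ⊆ nb S (t' / 2) \ S :=
      Finset.sdiff_subset_sdiff (hnbm (by omega)) le_rfl
    have e1 : F ∩ (nb S (t / 2) \ S) = (F ∩ (nb S (t' / 2) \ S)) ∩ (nb S (t / 2) \ S) := by
      rw [Finset.inter_assoc, Finset.inter_eq_right.mpr hsub]
    have e2 : F' ∩ (nb S (t / 2) \ S) = (F' ∩ (nb S (t' / 2) \ S)) ∩ (nb S (t / 2) \ S) := by
      rw [Finset.inter_assoc, Finset.inter_eq_right.mpr hsub]
    rw [e1, e2, hFF]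
  rcases le_or_gt r D with hrD | hrD
  · -- first case
    have hr1 : 1 ≤ r := by omega
    -- regions
    have hSb : S ⊆ blk (pos x) r := by
      intro e he
      apply mem_blk_of
      have := ds_le_dm he hx
      omega
    have hnbb : nb S (t / 2) ⊆ blk (pos x) r := by
      unfold nb
      rw [Finset.biUnion_subset]
      intro e he
      have := ds_le_dm he hx
      unfold ds at this
      apply blk_sub <;> simp only [pos] <;> omega
    have hbig : blk (pos x) D ⊆ nb S (t' / 2) := by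
      refine subset_trans ?_ (Finset.subset_biUnion_of_mem
        (fun e => blk (pos e) (t' / 2)) hx)
      rw [hD]
    have hreg : blk (pos x) D \ blk (pos x) r ⊆ nb S (t' / 2) \ S := by
      intro e he
      obtain ⟨he1, he2⟩ := mem_sdiff.mp he
      exact mem_sdiff.mpr ⟨hbig he1, fun h => he2 (hSb h)⟩
    refine ⟨fun F => Ev F ∧ A4a (pos x) r D (↑F : Set Edg), par, rk, ?_, ?_, g3, ?_⟩
    · intro F F' hFF
      refine and_congr (hloc F F' hFF) (A4a_congr ?_)
      ext e
      have h1 := Finset.ext_iff.1 hFF e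
      simp only [Finset.mem_inter] at h1
      simp only [Set.mem_inter_iff, mem_coe]
      constructor
      · rintro ⟨h2, h3⟩
        exact ⟨(h1.1 ⟨h2, hreg h3⟩).1, h3⟩
      · rintro ⟨h2, h3⟩
        exact ⟨(h1.2 ⟨h2, hreg h3⟩).1, h3⟩
    · intro S' hSS' hfin hfar F hQ
      refine ⟨g2 S' hSS' (fun h => (hfin h).elim) (fun v hv w hw => ?_) F hQ, ?_⟩
      · have := hfar v hv w hw
        omega
      · refine hQ (pos x) r D S hrD hSS' ⟨x, hx⟩ (nonempty_sdiff hSS' (fun h => hfin h)) hSb ?_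
        rw [Finset.disjoint_left]
        intro e he he'
        have h6 := hfar x hx e he
        have h7 := mem_blk_pos he'
        rw [Pool.Agent.Y239.NE.Dec.ds_comm] at h7
        omega
    · -- probability
      have hind : PQ (1 / 2) (boxE M) (fun F => Ev F ∧ A4a (pos x) r D (↑F : Set Edg)) =
          PQ (1 / 2) (boxE M) Ev * PQ (1 / 2) (boxE M)
            (fun F => A4a (pos x) r D (↑F : Set Edg)) := by
        refine Pr_indep (S := (nb S (t / 2) \ S) ∩ boxE M)
          (T := (blk (pos x) D \ blk (pos x) r) ∩ boxE M) inter_subset_right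
          inter_subset_right ?_ ?_ ?_
        · rw [Finset.disjoint_left]
          intro e he1 he2
          exact (mem_sdiff.mp (mem_inter.mp he2).1).2
            (hnbb (mem_sdiff.mp (mem_inter.mp he1).1).1)
        · intro F hF
          apply g1
          rw [Finset.inter_assoc, Finset.inter_assoc, Finset.inter_comm (boxE M),
            ← Finset.inter_assoc (nb S (t / 2) \ S), Finset.inter_self,
            Finset.inter_comm (nb S (t / 2) \ S), ← Finset.inter_assoc,
            Finset.inter_eq_left.mpr hF]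
        · intro F hF
          apply A4a_congr
          ext e
          simp only [Set.mem_inter_iff, mem_coe, Finset.mem_inter]
          constructor
          · rintro ⟨h1, h2⟩
            exact ⟨⟨h1, h2, hF h1⟩, h2⟩
          · rintro ⟨⟨h1, -⟩, h2⟩
            exact ⟨h1, h2⟩
      rw [hind]
      have h1 := hpr (pos x) r D hr1 hrD (boxE M) (blk_box (hS hx) (by omega))
      have h2 := ps_mul hr1 hrD
      have hmax : max t' (dm S) = t' := by
        apply max_eq_left
        omega
      rw [hmax]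
      have b1 : ps s ≤ ((3:ℕ):ℝ) ^ 2 * ps r := ps_cmp (by norm_num) (by rw [hs, hr]; omega)
      have b2 : ps D ≤ ((4:ℕ):ℝ) ^ 2 * ps t' := ps_cmp (by norm_num) (by omega)
      push_cast at b1 b2
      have z1 := ps_pos s
      have z2 := ps_pos r
      have z3 := ps_pos D
      have z4 := ps_pos t'
      have hq0 : 0 ≤ ((r:ℝ) / D) ^ (5 / 4 : ℝ) := by positivity
      have u3 : ps s * (C1 * ((r:ℝ) / D) ^ (5 / 4 : ℝ)) ≤ 144 * C1 * ps t' := by
        calc ps s * (C1 * ((r:ℝ) / D) ^ (5 / 4 : ℝ))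
            ≤ (3 ^ 2 * ps r) * (C1 * ((r:ℝ) / D) ^ (5 / 4 : ℝ)) :=
              mul_le_mul_of_nonneg_right b1 (by positivity)
          _ = 9 * C1 * (ps r * ((r:ℝ) / D) ^ (5 / 4 : ℝ)) := by ring
          _ = 9 * C1 * ps D := by rw [h2]
          _ ≤ 9 * C1 * (4 ^ 2 * ps t') := mul_le_mul_of_nonneg_left b2 (by positivity)
          _ = 144 * C1 * ps t' := by ring
      calc PQ (1 / 2) (boxE M) Ev * PQ (1 / 2) (boxE M)
            (fun F => A4a (pos x) r D (↑F : Set Edg))
          ≤ (a ^ k * (∏ y ∈ S.erase x, ps (ds y (par y))) * ps s) *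
            (C1 * ((r:ℝ) / D) ^ (5 / 4 : ℝ)) :=
            mul_le_mul g4 h1 (Pr_nonneg okh _ _) (mul_nonneg hprod z1.le)
        _ = a ^ k * (∏ y ∈ S.erase x, ps (ds y (par y))) *
            (ps s * (C1 * ((r:ℝ) / D) ^ (5 / 4 : ℝ))) := by ring
        _ ≤ a ^ k * (∏ y ∈ S.erase x, ps (ds y (par y))) *
            (144 * C1 * ps t') := mul_le_mul_of_nonneg_left u3 hprod
        _ ≤ a ^ k * (∏ y ∈ S.erase x, ps (ds y (par y))) * (a * ps t') := by
            apply mul_le_mul_of_nonneg_left _ hprod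
            apply mul_le_mul_of_nonneg_right _ z4.le
            linarith
        _ = a ^ (k + 1) * (∏ y ∈ S.erase x, ps (ds y (par y))) * ps t' := by
            rw [pow_succ]; ring
  · -- second case
    refine ⟨Ev, par, rk, hloc, ?_, g3, ?_⟩
    · intro S' hSS' hfin hfar F hQ
      refine g2 S' hSS' (fun h => (hfin h).elim) (fun v hv w hw => ?_) F hQ
      have := hfar v hv w hw
      omega
    · have b1 : ps s ≤ ((12:ℕ):ℝ) ^ 2 * ps (max t' (dm S)) := by
        apply ps_cmp (by norm_num)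
        rw [hs]
        omega
      push_cast at b1
      have z1 := ps_pos (max t' (dm S))
      calc PQ (1 / 2) (boxE M) Ev
          ≤ a ^ k * (∏ y ∈ S.erase x, ps (ds y (par y))) * ps s := g4
        _ ≤ a ^ k * (∏ y ∈ S.erase x, ps (ds y (par y))) * (a * ps (max t' (dm S))) := by
            apply mul_le_mul_of_nonneg_left _ hprod
            refine b1.trans (mul_le_mul_of_nonneg_right ?_ z1.le)
            linarith
        _ = a ^ (k + 1) * (∏ y ∈ S.erase x, ps (ds y (par y))) * ps (max t' (dm S)) := by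
            rw [pow_succ]; ring

/-- growth of the component of `x` to the whole set -/
theorem growK {a : ℝ} {M t : ℕ} {S : Finset Edg} {x : Edg} (ha : 72 ≤ a) (hx : x ∈ S)
    (hc : conn (t + 1) S) (hall : cmp t S x ≠ S)
    (hcmp : ∀ b ∈ S, GK M t (t + 1) (max t (dm (cmp t S b))) a
      (4 * (cmp t S b).card - 3) False (cmp t S b) b) :
    GK M t (t + 1) (max (t + 1) (dm S)) a (4 * S.card - 4) True S x := by
  classical
  have ha1 : 1 ≤ a := by linarith
  have grow : ∀ m : ℕ, ∀ U : Finset Edg, ∀ f : Prop, (S \ U).card = m → U ⊆ S → U ≠ S → x ∈ U →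
      (∀ y ∈ U, ∀ z ∈ S, z ∉ U → t < ds y z) →
      GK M t (t + 1) (max (t + 1) (dm U)) a (4 * U.card - 2) f U x →
      GK M t (t + 1) (max (t + 1) (dm S)) a (4 * S.card - 4) True S x := by
    intro m
    induction m using Nat.strong_induction_on with
    | _ m ihm =>
      intro U f hUm hUS hUne hxU hcl hG
      have hne : (S \ U).Nonempty := by
        rw [Finset.sdiff_nonempty]
        intro h
        exact hUne (Finset.Subset.antisymm hUS h)
      obtain ⟨u, hu, b, hb', hub⟩ := hc U hUS ⟨x, hxU⟩ hne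
      obtain ⟨hbS, hbU⟩ := Finset.mem_sdiff.1 hb'
      have hRS := cmp_sub t S b
      have hbR : b ∈ cmp t S b := self_cmp hbS
      have hRU : ∀ z ∈ cmp t S b, z ∉ U := by
        refine cmp_ind hbS hbU ?_
        intro v hv w hw hvU hvw hwU
        have := hcl w hwU v (hRS hv) hvU
        rw [ds_comm] at this
        omega
      have hdisj : Disjoint U (cmp t S b) := by
        rw [Finset.disjoint_right]
        exact hRU
      have hfar : ∀ v ∈ U, ∀ w ∈ cmp t S b, t < ds v w := fun v hv w hw =>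
        hcl v hv w (hRS hw) (hRU w hw)
      have hM := mergeK ha hxU hu hbR (by rw [ds_comm]; exact hub) hfar hG (hcmp b hbS)
      have hcard : (U ∪ cmp t S b).card = U.card + (cmp t S b).card :=
        Finset.card_union_of_disjoint hdisj
      have hc1 : 1 ≤ U.card := Finset.card_pos.2 ⟨x, hxU⟩
      have hc2 : 1 ≤ (cmp t S b).card := Finset.card_pos.2 ⟨b, hbR⟩
      have e : 4 * U.card - 2 + (4 * (cmp t S b).card - 3) + 1 =
          4 * (U ∪ cmp t S b).card - 4 := by omega
      rw [e] at hM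
      have hU'S : U ∪ cmp t S b ⊆ S := Finset.union_subset hUS hRS
      by_cases hfin : U ∪ cmp t S b = S
      · rw [hfin] at hM
        exact hM
      · refine ihm (S \ (U ∪ cmp t S b)).card ?_ (U ∪ cmp t S b) True rfl hU'S hfin
          (Finset.mem_union_left _ hxU) ?_ (GK_mono hM le_rfl (by omega) ha1 (fun h => h))
        · rw [← hUm]
          apply Finset.card_lt_card
          rw [Finset.ssubset_iff_of_subset
            (Finset.sdiff_subset_sdiff (Finset.Subset.refl S) Finset.subset_union_left)]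
          exact ⟨b, hb', fun h => (Finset.mem_sdiff.1 h).2 (Finset.mem_union_right _ hbR)⟩
        · intro y hy z hz hzn
          rw [Finset.mem_union, not_or] at hzn
          rcases Finset.mem_union.1 hy with hy | hy
          · exact hcl y hy z hz hzn.1
          · exact cmp_far hy hz hzn.2
  have h1 := startK (by linarith) (hcmp x hx)
  have hc1 : 1 ≤ (cmp t S x).card := Finset.card_pos.2 ⟨x, self_cmp hx⟩
  have e1 : 4 * (cmp t S x).card - 3 + 1 = 4 * (cmp t S x).card - 2 := by omega
  rw [e1] at h1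
  exact grow _ (cmp t S x) False rfl (cmp_sub t S x) hall (self_cmp hx)
    (fun y hy z hz hzn => cmp_far hy hz hzn) h1

/-- the bound for a `t`-connected set -/
theorem keyK : ∃ a : ℝ, 72 ≤ a ∧ ∀ (N M t t' : ℕ) (S : Finset Edg) (x : Edg),
    t ≤ t' → t' ≤ 4 * N → 4 * N ≤ M → S ⊆ boxE N → x ∈ S → conn t S →
    GK M t' t (max t' (dm S)) a (4 * S.card - 3) False S x := by
  classical
  obtain ⟨C1, hC1, hb⟩ := baseK
  obtain ⟨C4, hC4, ho⟩ := outK
  obtain ⟨a, ha1, ha2, ha3⟩ : ∃ a : ℝ, C1 ≤ a ∧ 72 ≤ a ∧ C4 ≤ a :=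
    ⟨max (max C1 72) C4, (le_max_left _ _).trans (le_max_left _ _),
      (le_max_right _ _).trans (le_max_left _ _), le_max_right _ _⟩
  have ha : 1 ≤ a := hC1.trans ha1
  refine ⟨a, ha2, ?_⟩
  intro N M t
  induction t with
  | zero =>
    intro t' S x _ ht' hNM hS hx hc
    have h0 : ∀ y ∈ S, ds y x = 0 := by
      by_contra hcon
      push Not at hcon
      obtain ⟨z, hz, hzx⟩ := hcon
      obtain ⟨u, hu, v, hv, huv⟩ := hc (S.filter (fun y => ds y x = 0)) (Finset.filter_subset _ _)
        ⟨x, Finset.mem_filter.2 ⟨hx, ds_self x⟩⟩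
        ⟨z, Finset.mem_sdiff.2 ⟨hz, fun h => hzx (Finset.mem_filter.1 h).2⟩⟩
      rw [Finset.mem_filter] at hu
      rw [Finset.mem_sdiff, Finset.mem_filter] at hv
      exact hv.2 ⟨hv.1, ds_zero (Nat.le_zero.1 huv) hu.2⟩
    have hcard : 1 ≤ S.card := Finset.card_pos.2 ⟨x, hx⟩
    exact GK_mono (hb a N M t' S x ha1 ht' hNM hS hx h0) le_rfl (by omega) ha (fun h => h)
  | succ t ih =>
    intro t' S x htt' ht' hNM hS hx hc
    by_cases hall : cmp t S x = S
    · have hct : conn t S := by
        rw [← hall]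
        exact cmp_conn hx
      exact GK_mono (ih t' S x (by omega) ht' hNM hS hx hct) (Nat.le_succ t) le_rfl ha
        (fun h => h)
    · have hcmp : ∀ b ∈ S, GK M t (t + 1) (max t (dm (cmp t S b))) a
          (4 * (cmp t S b).card - 3) False (cmp t S b) b := by
        intro b hb'
        exact GK_mono (ih t (cmp t S b) b le_rfl (by omega) hNM ((cmp_sub t S b).trans hS)
          (self_cmp hb') (cmp_conn hb')) (Nat.le_succ t) le_rfl ha (fun h => h)
      have h2 := growK ha2 hx hc hall hcmp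
      have h3 := ho a N M t t' _ True S x ha3 htt' ht' hNM hS hx h2
      have hc3 : 1 ≤ S.card := Finset.card_pos.2 ⟨x, hx⟩
      have hc4 : 2 ≤ S.card := by
        by_contra hcon
        have h4 : S.card = 1 := by omega
        obtain ⟨z, hz⟩ := Finset.card_eq_one.1 h4
        apply hall
        apply Finset.Subset.antisymm (cmp_sub t S x)
        intro y hy
        have : y = x := by
          rw [hz, Finset.mem_singleton] at hy hx
          rw [hy, hx]
        rw [this]
        exact self_cmp hx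
      exact GK_mono h3 le_rfl (by omega) ha (fun h => h)

theorem conn_dm (S : Finset Edg) : conn (dm S) S := by
  intro A hA hne hne'
  obtain ⟨u, hu⟩ := hne
  obtain ⟨v, hv⟩ := hne'
  exact ⟨u, hu, v, hv, ds_le_dm (hA hu) (Finset.mem_sdiff.1 hv).1⟩

theorem dm_box {N : ℕ} {S : Finset Edg} (hS : S ⊆ boxE N) : dm S ≤ 2 * N := by
  apply dm_le_of
  intro u hu v hv
  have h1 := Pool.Agent.Y239.NE.Out.pos_le (hS hu)
  have h2 := Pool.Agent.Y239.NE.Out.pos_le (hS hv)
  have i1 := abs_le.1 h1.1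
  have i2 := abs_le.1 h1.2
  have i3 := abs_le.1 h2.1
  have i4 := abs_le.1 h2.2
  unfold pos at i1 i2 i3 i4
  simp only at i1 i2 i3 i4
  unfold ds
  omega

/-- **The bound for the Walsh coefficients.** -/
theorem keyW : S_KEYK := by
  classical
  obtain ⟨a, ha, hkey⟩ := keyK
  have ha1 : 1 ≤ a := by linarith
  refine ⟨a ^ 4, one_le_pow₀ ha1, ?_⟩
  intro N M hN hNM S hS her hSne
  have herN : er ∈ boxE N := by
    unfold er boxE
    rw [mem_RE_true]
    omega
  obtain ⟨R, hR⟩ : ∃ R, R = insert er S := ⟨_, rfl⟩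
  have hRN : R ⊆ boxE N := by rw [hR]; exact Finset.insert_subset herN hS
  have hRr : er ∈ R := by rw [hR]; exact Finset.mem_insert_self _ _
  have hcf := cf_le M (hS.trans (boxE_mono (by omega : N ≤ M))) her
  rw [← hR] at hcf ⊢
  have hcard : 1 ≤ R.card := Finset.card_pos.2 ⟨er, hRr⟩
  have hex : ∃ t, conn t R := ⟨dm R, conn_dm R⟩
  obtain ⟨t0, hct0, hmin⟩ : ∃ t0, conn t0 R ∧ ∀ t, t < t0 → ¬ conn t R :=
    ⟨Nat.find hex, Nat.find_spec hex, fun t ht => Nat.find_min hex ht⟩
  have hle : t0 ≤ dm R := by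
    by_contra h
    exact hmin (dm R) (by omega) (conn_dm R)
  rcases Nat.eq_zero_or_pos t0 with h0 | h0
  · -- one position
    rw [h0] at hct0
    have h0 : ∀ y ∈ R, ds y er = 0 := by
      by_contra hcon
      push Not at hcon
      obtain ⟨z, hz, hzx⟩ := hcon
      obtain ⟨u, hu, v, hv, huv⟩ := hct0 (R.filter (fun y => ds y er = 0))
        (Finset.filter_subset _ _)
        ⟨er, Finset.mem_filter.2 ⟨hRr, ds_self er⟩⟩
        ⟨z, Finset.mem_sdiff.2 ⟨hz, fun h => hzx (Finset.mem_filter.1 h).2⟩⟩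
      rw [Finset.mem_filter] at hu
      rw [Finset.mem_sdiff, Finset.mem_filter] at hv
      exact hv.2 ⟨hv.1, ds_zero (Nat.le_zero.1 huv) hu.2⟩
    refine ⟨fun _ => er, fun y => if y = er then 0 else 1, ?_, ?_⟩
    · intro y hy hyr
      refine ⟨hRr, ?_⟩
      simp [hyr]
    · have hdm : dm R = 0 := by
        apply Nat.le_zero.1
        apply dm_le_of
        intro u hu v hv
        rw [ds_zero (a := er) (by rw [ds_comm]; exact h0 u hu) (by rw [ds_comm]; exact h0 v hv)]
      have hprod : ∏ y ∈ R.erase er, ps (ds y ((fun _ => er) y)) = 1 := by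
        refine Finset.prod_eq_one fun y hy => ?_
        simp only [h0 y (Finset.mem_of_mem_erase hy), ps_zero]
      rw [hprod, hdm, ps_zero, mul_one, mul_one]
      refine hcf.trans ((Pr_le_one okh _ _).trans ?_)
      exact one_le_pow₀ (one_le_pow₀ ha1)
  · obtain ⟨t, rfl⟩ : ∃ t, t0 = t + 1 := ⟨t0 - 1, by omega⟩
    have hnt : ¬ conn t R := hmin t (by omega)
    have hall : cmp t R er ≠ R := by
      intro h
      apply hnt
      rw [← h]
      exact cmp_conn hRr
    have hdN : dm R ≤ 2 * N := dm_box hRN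
    have hcmp : ∀ b ∈ R, GK M t (t + 1) (max t (dm (cmp t R b))) a
        (4 * (cmp t R b).card - 3) False (cmp t R b) b := by
      intro b hb'
      exact GK_mono (hkey N M t t (cmp t R b) b le_rfl (by omega) (by omega)
        ((cmp_sub t R b).trans hRN) (self_cmp hb') (cmp_conn hb')) (Nat.le_succ t) le_rfl ha1
        (fun h => h)
    obtain ⟨Ev, par, rk, g1, g2, g3, g4⟩ := growK ha hRr hct0 hall hcmp
    refine ⟨par, rk, fun y hy hyr => ⟨(g3 y hy hyr).1, (g3 y hy hyr).2.1⟩, ?_⟩
    have h1 : PQ (1/2) (boxE M) (QK R) ≤ PQ (1/2) (boxE M) Ev := by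
      apply Pr_mono okh
      intro F _ hQ
      refine g2 R (Finset.Subset.refl _) (fun _ => trivial) ?_ F hQ
      intro v _ w hw
      simp at hw
    have hmax : max (t + 1) (dm R) = dm R := max_eq_right hle
    rw [hmax] at g4
    refine (hcf.trans (h1.trans g4)).trans ?_
    rw [← pow_mul]
    refine mul_le_mul_of_nonneg_right ?_ (ps_pos _).le
    refine mul_le_mul_of_nonneg_right ?_ (prod_ps_nonneg _ _)
    exact pow_le_pow_right₀ ha1 (by omega)

end Pool.Agent.V11321.AL
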