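import Pool.Agent.V11321.AL.Stm
import Pool.Agent.Y21.NE.Tree

/-!
Project AL, part B: Walsh expansion and tree sum (author: helper329).
Main results: `Pool.Agent.V11321.AL.wal : S_WAL`, `Pool.Agent.V11321.AL.sumk : S_SUMK`.
-/

set_option autoImplicit false

namespace Pool.Agent.V11321.AL.Sm

open H974 Finset Pool.Agent.Y554.NE

/-! ### Walsh expansion -/

/-- Walsh expansion, abstract form. -/
theorem walsh {E : Type*} [DecidableEq E] (V B : Finset E) (hB : B ⊆ V) (h : ℝ)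
    (f : Finset E → ℝ) :
    Ex (fun e => if e ∈ B then 1 / 2 + h else 1 / 2) V f =
      ∑ S ∈ B.powerset, (2 * h) ^ S.card *
        Ex (fun _ => (1 / 2 : ℝ)) V (fun F => (∏ e ∈ S, (if e ∈ F then (1:ℝ) else -1)) * f F) := by
  classical
  have key : ∀ F ∈ V.powerset, (∏ e ∈ F, (if e ∈ B then 1 / 2 + h else 1 / 2)) *
      (∏ e ∈ V \ F, (1 - (if e ∈ B then 1 / 2 + h else 1 / 2))) * f F =
      ∑ S ∈ B.powerset, (2 * h) ^ S.card * ((∏ e ∈ F, (1 / 2 : ℝ)) *
        (∏ e ∈ V \ F, (1 - (1 / 2 : ℝ))) * ((∏ e ∈ S, (if e ∈ F then (1:ℝ) else -1)) * f F)) := by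
    intro F hF
    have hFV := mem_powerset.1 hF
    have e1 : ∏ e ∈ F, (if e ∈ B then 1 / 2 + h else 1 / 2) =
        (∏ e ∈ F, (1 / 2 : ℝ)) * ∏ e ∈ F, (if e ∈ B then 1 + 2 * h else 1) := by
      rw [← prod_mul_distrib]
      refine prod_congr rfl fun e _ => ?_
      split_ifs <;> ring
    have e2 : ∏ e ∈ V \ F, (1 - (if e ∈ B then 1 / 2 + h else 1 / 2)) =
        (∏ e ∈ V \ F, (1 - (1 / 2 : ℝ))) * ∏ e ∈ V \ F, (if e ∈ B then 1 - 2 * h else 1) := by
      rw [← prod_mul_distrib]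
      refine prod_congr rfl fun e _ => ?_
      split_ifs <;> ring
    have e3 : (∏ e ∈ F, (if e ∈ B then 1 + 2 * h else 1)) *
        (∏ e ∈ V \ F, (if e ∈ B then 1 - 2 * h else 1)) =
        ∏ e ∈ B, (1 + 2 * h * (if e ∈ F then (1:ℝ) else -1)) := by
      have e4 : ∏ e ∈ B, (1 + 2 * h * (if e ∈ F then (1:ℝ) else -1)) =
          ∏ e ∈ V, (if e ∈ B then (1 + 2 * h * (if e ∈ F then (1:ℝ) else -1)) else 1) := by
        rw [prod_ite_mem, inter_eq_right.2 hB]
      rw [e4, ← prod_sdiff hFV, mul_comm]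
      congr 1
      · refine prod_congr rfl fun e he => ?_
        rw [if_neg (mem_sdiff.1 he).2]
        split_ifs <;> ring
      · refine prod_congr rfl fun e he => ?_
        rw [if_pos he]
        split_ifs <;> ring
    have e5 : ∏ e ∈ B, (1 + 2 * h * (if e ∈ F then (1:ℝ) else -1)) =
        ∑ S ∈ B.powerset, (2 * h) ^ S.card * ∏ e ∈ S, (if e ∈ F then (1:ℝ) else -1) := by
      rw [prod_one_add]
      refine sum_congr rfl fun S _ => ?_
      rw [prod_mul_distrib, prod_const]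
    rw [e1, e2]
    calc (∏ e ∈ F, (1 / 2 : ℝ)) * (∏ e ∈ F, (if e ∈ B then 1 + 2 * h else 1)) *
          ((∏ e ∈ V \ F, (1 - (1 / 2 : ℝ))) * ∏ e ∈ V \ F, (if e ∈ B then 1 - 2 * h else 1)) * f F
        = (∏ e ∈ F, (1 / 2 : ℝ)) * (∏ e ∈ V \ F, (1 - (1 / 2 : ℝ))) *
          ((∏ e ∈ F, (if e ∈ B then 1 + 2 * h else 1)) *
            (∏ e ∈ V \ F, (if e ∈ B then 1 - 2 * h else 1))) * f F := by ring
      _ = _ := by
          rw [e3, e5, mul_sum, sum_mul]
          refine sum_congr rfl fun S _ => ?_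
          ring
  unfold Ex
  rw [sum_congr rfl key, sum_comm]
  refine sum_congr rfl fun S _ => ?_
  rw [mul_sum]

theorem reach_empty {u v : Vtx} (h : Reach (∅ : Set Edg) u v) : u = v := by
  induction h with
  | refl => rfl
  | tail _ h ih =>
    exfalso
    unfold Adj at h
    simp at h

theorem mem_er {N : ℕ} (hN : 1 ≤ N) : er ∈ boxE N := by
  unfold er boxE
  rw [mem_RE_true]
  omega

theorem wal : S_WAL := by
  intro N M h hNM
  refine ⟨?_, ?_⟩
  · unfold AN cf
    exact walsh (boxE M) (boxE N) (boxE_mono hNM) h _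
  · intro S hS
    unfold cf
    rcases Nat.eq_zero_or_pos M with hM | hM
    · subst hM
      have h0 : boxE 0 = ∅ := by
        ext ⟨x, y, _ | _⟩
        · unfold boxE
          rw [mem_RE_false]
          simp only [notMem_empty, iff_false]
          push_cast
          omega
        · unfold boxE
          rw [mem_RE_true]
          simp only [notMem_empty, iff_false]
          push_cast
          omega
      rw [h0, Ex_empty]
      have h1 : ¬ Loop er ((∅ : Finset Edg) : Set Edg) := by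
        intro h
        unfold Loop at h
        rw [coe_empty, Set.empty_sdiff] at h
        have := reach_empty h
        simp [er, src, tgt] at this
      rw [ind_not_of h1, mul_zero]
    · have he := mem_er hM
      rw [← insert_erase he, Ex_insert _ (notMem_erase er _)]
      have h2 : Ex (fun _ => (1/2 : ℝ)) ((boxE M).erase er) (fun F =>
          (∏ e ∈ S, (if e ∈ insert er F then (1:ℝ) else -1)) * ind (Loop er ↑(insert er F))) =
          Ex (fun _ => (1/2 : ℝ)) ((boxE M).erase er) (fun F =>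
          (-1) * ((∏ e ∈ S, (if e ∈ F then (1:ℝ) else -1)) * ind (Loop er ↑F))) := by
        refine Ex_congr fun F hF => ?_
        have hF' : er ∉ F := fun h => notMem_erase er _ (hF h)
        have h3 : (Loop er (↑(insert er F) : Set Edg)) = Loop er (↑F : Set Edg) := by
          unfold Loop
          congr 1
          ext x
          simp only [coe_insert, Set.mem_sdiff, Set.mem_insert_iff, Set.mem_singleton_iff]
          tauto
        rw [h3]
        have h4 : ∏ e ∈ S, (if e ∈ insert er F then (1:ℝ) else -1) =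
            (-1) * ∏ e ∈ S, (if e ∈ F then (1:ℝ) else -1) := by
          rw [← insert_erase hS, prod_insert (notMem_erase _ _), prod_insert (notMem_erase _ _),
            if_pos (mem_insert_self _ _), if_neg hF']
          have h5 : ∏ e ∈ S.erase er, (if e ∈ insert er F then (1:ℝ) else -1) =
              ∏ e ∈ S.erase er, (if e ∈ F then (1:ℝ) else -1) := by
            refine prod_congr rfl fun e he => ?_
            have h6 : e ≠ er := (mem_erase.1 he).1
            have h7 : e ∈ insert er F ↔ e ∈ F := by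
              rw [mem_insert]
              tauto
            rw [if_congr h7 rfl rfl]
          rw [h5]
          ring
        rw [h4]
        ring
      rw [h2, Ex_mul_left]
      ring

end Pool.Agent.V11321.AL.Sm

namespace Pool.Agent.V11321.AL.Sm

open H974 Finset Pool.Agent.Y554.NE

/-! ### tree sum -/

theorem ds_self (y : Edg) : ds y y = 0 := by simp [ds]

theorem ds_comm (y z : Edg) : ds y z = ds z y := by
  unfold ds
  omega

theorem ds_tri (x y z : Edg) : ds x z ≤ ds x y + ds y z := by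
  unfold ds
  omega

theorem ds_le_dm {S : Finset Edg} {y z : Edg} (hy : y ∈ S) (hz : z ∈ S) : ds y z ≤ dm S :=
  (le_sup (f := fun b => ds y b) hz).trans (le_sup (f := fun a => S.sup (fun b => ds a b)) hy)

theorem dm_le {S : Finset Edg} {D : ℕ} (h : ∀ y ∈ S, ∀ z ∈ S, ds y z ≤ D) : dm S ≤ D :=
  Finset.sup_le fun y hy => Finset.sup_le fun z hz => h y hy z hz

theorem ds_box {N : ℕ} {y z : Edg} (hy : y ∈ boxE N) (hz : z ∈ boxE N) : ds y z ≤ 2 * N := by
  have h : ∀ e : Edg, e ∈ boxE N → |e.1| ≤ N ∧ |e.2.1| ≤ N := by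
    rintro ⟨x, y, _ | _⟩ h
    · unfold boxE at h
      rw [mem_RE_false] at h
      constructor <;> rw [abs_le] <;> constructor <;> simp only [] <;> omega
    · unfold boxE at h
      rw [mem_RE_true] at h
      constructor <;> rw [abs_le] <;> constructor <;> simp only [] <;> omega
  have h1 := h y hy
  have h2 := h z hz
  simp only [abs_le] at h1 h2
  unfold ds
  omega

theorem ps_pos (s : ℕ) : 0 < ps s := by
  unfold ps
  have : (0:ℝ) < ((max 1 s : ℕ) : ℝ) := by
    have : 0 < max 1 s := by omega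
    exact_mod_cast this
  positivity

theorem ps_anti {s t : ℕ} (h : s ≤ t) : ps t ≤ ps s := by
  unfold ps
  have h0 : (0:ℝ) < ((max 1 s : ℕ) : ℝ) := by
    have : 0 < max 1 s := by omega
    exact_mod_cast this
  refine Real.rpow_le_rpow_of_nonpos h0 ?_ (by norm_num)
  have : max 1 s ≤ max 1 t := by omega
  exact_mod_cast this

/-- number of edges near `z` -/
theorem card_near (A : Finset Edg) (z : Edg) (D : ℕ) (h : ∀ y ∈ A, ds y z < 2 * D) :
    (A.card : ℝ) ≤ 32 * (D:ℝ) ^ 2 := by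
  classical
  have hsub : A ⊆ (Icc (z.1 - 2 * D + 1) (z.1 + 2 * D - 1)) ×ˢ
      ((Icc (z.2.1 - 2 * D + 1) (z.2.1 + 2 * D - 1)) ×ˢ (univ : Finset Bool)) := by
    intro y hy
    have h1 := h y hy
    unfold ds at h1
    rw [mem_product, mem_product, mem_Icc, mem_Icc]
    refine ⟨?_, ?_, mem_univ _⟩ <;> constructor <;> omega
  have h2 := card_le_card hsub
  rw [card_product, card_product, Int.card_Icc, Int.card_Icc, card_univ, Fintype.card_bool] at h2
  have h3 : (z.1 + 2 * (D:ℤ) - 1 + 1 - (z.1 - 2 * D + 1)).toNat ≤ 4 * D := by omega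
  have h4 : (z.2.1 + 2 * (D:ℤ) - 1 + 1 - (z.2.1 - 2 * D + 1)).toNat ≤ 4 * D := by omega
  have h5 : A.card ≤ 32 * D ^ 2 := by
    calc A.card ≤ _ := h2
      _ ≤ (4 * D) * ((4 * D) * 2) := Nat.mul_le_mul h3 (Nat.mul_le_mul h4 le_rfl)
      _ = 32 * D ^ 2 := by ring
  exact_mod_cast h5

/-- power of a power of two -/
theorem two_rpow (i : ℕ) (s : ℝ) : (((2 ^ i : ℕ) : ℝ)) ^ s = ((2:ℝ) ^ s) ^ i := by
  push_cast
  rw [← Real.rpow_natCast 2 i, ← Real.rpow_mul (by norm_num), mul_comm, Real.rpow_mul (by norm_num),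
    Real.rpow_natCast]

/-- sum of a function of the distance over one dyadic shell -/
theorem shell (A : Finset Edg) (z : Edg) (g : ℕ → ℝ) (i : ℕ) (u : ℝ) (hu : 0 ≤ u)
    (hg : ∀ y ∈ A, g (ds y z) ≤ u) (hi : ∀ y ∈ A, max 1 (ds y z) < 2 ^ (i + 1)) :
    ∑ y ∈ A, g (ds y z) ≤ 32 * (((2 ^ i : ℕ) : ℝ)) ^ 2 * u := by
  have h1 := card_near A z (2 ^ i) (fun y hy => by
    have := hi y hy
    rw [pow_succ] at this
    omega)
  calc ∑ y ∈ A, g (ds y z) ≤ ∑ _y ∈ A, u := sum_le_sum hg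
    _ = A.card * u := by rw [sum_const, nsmul_eq_mul]
    _ ≤ _ := mul_le_mul_of_nonneg_right h1 hu

theorem geo34 (J : ℕ) : ∑ j ∈ range (J + 1), (((2 ^ j : ℕ)) : ℝ) ^ (3 / 4 : ℝ) ≤
    4 * (((2 ^ J : ℕ)) : ℝ) ^ (3 / 4 : ℝ) := by
  have hρ : (4 / 3 : ℝ) ≤ (2 : ℝ) ^ (3 / 4 : ℝ) := by
    have h1 : (4 / 3 : ℝ) = ((4 / 3 : ℝ) ^ (4 : ℝ)) ^ (1 / 4 : ℝ) := by
      rw [← Real.rpow_mul (by norm_num)]
      norm_num
    have h2 : (2 : ℝ) ^ (3 / 4 : ℝ) = ((2 : ℝ) ^ (3 : ℝ)) ^ (1 / 4 : ℝ) := by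
      rw [← Real.rpow_mul (by norm_num)]
      norm_num
    rw [h1, h2]
    refine Real.rpow_le_rpow (by positivity) ?_ (by norm_num)
    norm_num
  simp only [two_rpow]
  set r : ℝ := (2 : ℝ) ^ (3 / 4 : ℝ)
  induction J with
  | zero => simp
  | succ J ih =>
    rw [sum_range_succ]
    have h4 : 0 ≤ r ^ J := by positivity
    rw [pow_succ r J]
    nlinarith

theorem geo14 (J : ℕ) : ∑ j ∈ range (J + 1), (((2 ^ j : ℕ)) : ℝ) ^ (1 / 4 : ℝ) ≤
    8 * (((2 ^ J : ℕ)) : ℝ) ^ (1 / 4 : ℝ) := by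
  have hρ : (8 / 7 : ℝ) ≤ (2 : ℝ) ^ (1 / 4 : ℝ) := by
    have h1 : (8 / 7 : ℝ) = ((8 / 7 : ℝ) ^ (4 : ℝ)) ^ (1 / 4 : ℝ) := by
      rw [← Real.rpow_mul (by norm_num)]
      norm_num
    rw [h1]
    refine Real.rpow_le_rpow (by positivity) ?_ (by norm_num)
    norm_num
  simp only [two_rpow]
  set r : ℝ := (2 : ℝ) ^ (1 / 4 : ℝ)
  induction J with
  | zero => simp
  | succ J ih =>
    rw [sum_range_succ]
    have h4 : 0 ≤ r ^ J := by positivity
    rw [pow_succ r J]
    nlinarith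

/-- sum of the kernel -/
theorem sum_ps (A : Finset Edg) (z : Edg) (R : ℕ) (hR : 1 ≤ R) (h : ∀ y ∈ A, ds y z ≤ R) :
    ∑ y ∈ A, ps (ds y z) ≤ 128 * (R:ℝ) ^ (3 / 4 : ℝ) := by
  classical
  set J := Nat.log 2 R with hJ
  have h2J : 2 ^ J ≤ R := Nat.pow_log_le_self 2 (by omega)
  have hmaps : ∀ y ∈ A, Nat.log 2 (max 1 (ds y z)) ∈ range (J + 1) := by
    intro y hy
    rw [mem_range, Nat.lt_succ_iff, hJ]
    exact Nat.log_mono_right (max_le hR (h y hy))
  rw [← sum_fiberwise_of_maps_to hmaps]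
  have hone : ∀ i ∈ range (J + 1), ∑ y ∈ A.filter (fun y => Nat.log 2 (max 1 (ds y z)) = i),
      ps (ds y z) ≤ 32 * (((2 : ℕ) ^ i : ℕ) : ℝ) ^ (3 / 4 : ℝ) := by
    intro i _
    have h0 : (0:ℝ) < ((2 ^ i : ℕ) : ℝ) := by positivity
    refine (shell _ z ps i ((((2 ^ i : ℕ)) : ℝ) ^ (-(5 / 4) : ℝ)) (by positivity) ?_ ?_).trans
      (le_of_eq ?_)
    · intro y hy
      have h3 := (mem_filter.1 hy).2
      unfold ps
      refine Real.rpow_le_rpow_of_nonpos h0 ?_ (by norm_num)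
      have h5 : 2 ^ i ≤ max 1 (ds y z) := by
        rw [← h3]
        exact Nat.pow_log_le_self 2 (by omega)
      exact_mod_cast h5
    · intro y hy
      have h3 := (mem_filter.1 hy).2
      rw [← h3]
      exact Nat.lt_pow_succ_log_self (by norm_num) _
    · rw [mul_assoc, ← Real.rpow_two, ← Real.rpow_add h0]
      norm_num
  refine (sum_le_sum hone).trans ?_
  rw [← mul_sum]
  have h1 := geo34 J
  have h2 : (((2 : ℕ) ^ J : ℕ) : ℝ) ^ (3 / 4 : ℝ) ≤ (R : ℝ) ^ (3 / 4 : ℝ) :=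
    Real.rpow_le_rpow (by positivity) (by exact_mod_cast h2J) (by norm_num)
  linarith

/-- sum of the square of the kernel -/
theorem sum_ps_sq (A : Finset Edg) (z : Edg) (m : ℕ) (hm : 1 ≤ m) (h : ∀ y ∈ A, m ≤ ds y z) :
    ∑ y ∈ A, ps (ds y z) ^ 2 ≤ 256 * (m:ℝ) ^ (-(1 / 2) : ℝ) := by
  classical
  set I := Nat.log 2 m with hI
  set J := A.sup (fun y => Nat.log 2 (ds y z)) with hJ
  have hmaps : ∀ y ∈ A, Nat.log 2 (ds y z) ∈ Ico I (J + 1) := by
    intro y hy
    rw [mem_Ico]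
    refine ⟨Nat.log_mono_right (h y hy), ?_⟩
    rw [Nat.lt_succ_iff]
    exact le_sup (f := fun y => Nat.log 2 (ds y z)) hy
  rw [← sum_fiberwise_of_maps_to hmaps]
  have hone : ∀ i ∈ Ico I (J + 1), ∑ y ∈ A.filter (fun y => Nat.log 2 (ds y z) = i),
      ps (ds y z) ^ 2 ≤ 32 * ((2:ℝ) ^ (-(1 / 2) : ℝ)) ^ i := by
    intro i _
    have h0 : (0:ℝ) < ((2 ^ i : ℕ) : ℝ) := by positivity
    refine (shell _ z (fun s => ps s ^ 2) i ((((2 ^ i : ℕ)) : ℝ) ^ (-(5 / 2) : ℝ))
      (by positivity) ?_ ?_).trans (le_of_eq ?_)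
    · intro y hy
      have h3 := (mem_filter.1 hy).2
      have h4 := h y (mem_filter.1 hy).1
      have h5 : 2 ^ i ≤ max 1 (ds y z) := by
        rw [← h3]
        exact (Nat.pow_log_le_self 2 (by omega)).trans (le_max_right _ _)
      have h6 : ps (ds y z) ≤ (((2 ^ i : ℕ)) : ℝ) ^ (-(5 / 4) : ℝ) := by
        unfold ps
        refine Real.rpow_le_rpow_of_nonpos h0 ?_ (by norm_num)
        exact_mod_cast h5
      calc ps (ds y z) ^ 2 ≤ ((((2 ^ i : ℕ)) : ℝ) ^ (-(5 / 4) : ℝ)) ^ 2 :=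
            pow_le_pow_left₀ (ps_pos _).le h6 2
        _ = (((2 ^ i : ℕ)) : ℝ) ^ (-(5 / 2) : ℝ) := by
            rw [← Real.rpow_natCast, ← Real.rpow_mul h0.le]
            norm_num
    · intro y hy
      have h3 := (mem_filter.1 hy).2
      have h4 := h y (mem_filter.1 hy).1
      have h5 : max 1 (ds y z) = ds y z := by omega
      rw [h5, ← h3]
      exact Nat.lt_pow_succ_log_self (by norm_num) _
    · rw [mul_assoc, ← Real.rpow_two, ← Real.rpow_add h0, two_rpow]
      norm_num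
  refine (sum_le_sum hone).trans ?_
  rw [← mul_sum]
  set r : ℝ := (2:ℝ) ^ (-(1 / 2) : ℝ) with hr
  have hr0 : 0 ≤ r := by positivity
  have hr2 : r ^ 2 = 1 / 2 := by
    rw [hr, ← Real.rpow_natCast, ← Real.rpow_mul (by norm_num)]
    norm_num
  have hr1 : r ≤ 3 / 4 := by nlinarith
  have h1 := geom_sum_Ico_le_of_lt_one (m := I) (n := J + 1) hr0 (by linarith : r < 1)
  have h2 : r ^ I / (1 - r) ≤ 4 * r ^ I := by
    rw [div_le_iff₀ (by linarith)]
    have : 0 ≤ r ^ I := by positivity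
    nlinarith
  have h3 : r ^ I ≤ 2 * (m:ℝ) ^ (-(1 / 2) : ℝ) := by
    have hm0 : (0:ℝ) < m := by exact_mod_cast hm
    have h4 : m < 2 ^ (I + 1) := Nat.lt_pow_succ_log_self (by norm_num) _
    have h5 : (((2 ^ (I + 1) : ℕ)) : ℝ) ^ (-(1 / 2) : ℝ) ≤ (m:ℝ) ^ (-(1 / 2) : ℝ) :=
      Real.rpow_le_rpow_of_nonpos hm0 (by exact_mod_cast h4.le) (by norm_num)
    rw [two_rpow, ← hr, pow_succ] at h5
    have h6 : (1 / 2 : ℝ) ≤ r := by nlinarith
    have h7 : 0 ≤ r ^ I := by positivity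
    nlinarith
  have hm2 : 0 ≤ (m:ℝ) ^ (-(1 / 2) : ℝ) := by positivity
  nlinarith

end Pool.Agent.V11321.AL.Sm

namespace Pool.Agent.V11321.AL.Sm

open H974 Finset Pool.Agent.Y554.NE

/-- comparison of the weights -/
theorem cmpw {a u y0 Y v t : ℝ} {k : ℕ} (hk : 2 ≤ k) (ha : 0 < a) (hu : 0 < u) (hY : 0 < Y)
    (hyY : y0 ≤ Y) (hv : 0 ≤ v) (ht : 0 ≤ t) (hy : y0 = t * a) :
    t ^ k * v ≤ (a * u * (y0 ^ 2 / Y ^ 3)) * (Y ^ (k + 1) * (v / (a ^ (k + 1) * u))) := by
  have h0 : 0 ≤ y0 := by rw [hy]; positivity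
  obtain ⟨l, rfl⟩ := Nat.exists_eq_add_of_le hk
  have h7 : y0 ^ l ≤ Y ^ l := pow_le_pow_left₀ h0 hyY l
  have e1 : (a * u * (y0 ^ 2 / Y ^ 3)) * (Y ^ (2 + l + 1) * (v / (a ^ (2 + l + 1) * u))) =
      (v / a ^ (2 + l)) * (y0 ^ 2 * Y ^ l) := by
    field_simp
    ring
  have e2 : t ^ (2 + l) * v = (v / a ^ (2 + l)) * (y0 ^ 2 * y0 ^ l) := by
    rw [← pow_add, hy, mul_pow]
    field_simp
  rw [e1, e2]
  refine mul_le_mul_of_nonneg_left (mul_le_mul_of_nonneg_left h7 (by positivity)) (by positivity)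

/-- the sum over the sets at one scale -/
theorem scale {a : ℝ} (ha : 1 ≤ a) {N : ℕ} (hN : 1 ≤ N) (c : Finset Edg → ℝ)
    (hc : ∀ S ⊆ boxE N, er ∉ S → S.Nonempty → TB a (insert er S) |c S|) (h : ℝ) (j : ℕ)
    (hh : 6 * (128 * (((2 ^ (j + 2) : ℕ)) : ℝ) ^ (3 / 4 : ℝ)) * (2 * |h| * a) ≤ 1 + 1) :
    ∑ S ∈ ((boxE N).powerset.filter (fun S => er ∉ S ∧ 2 ≤ S.card)).filter
      (fun S => Nat.log 2 (max 1 (dm (insert er S))) = j), |2 * h| ^ S.card * |c S| ≤
      108 * a ^ 3 * 128 ^ 2 * 8 * (h ^ 2 * (((2 ^ j : ℕ)) : ℝ) ^ (1 / 4 : ℝ)) := by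
  classical
  have ha0 : 0 < a := by linarith
  obtain ⟨D, hD⟩ : ∃ D : ℕ, D = 2 ^ j := ⟨_, rfl⟩
  have hDn : 0 < D := by rw [hD]; positivity
  have hD0 : (0:ℝ) < D := by exact_mod_cast hDn
  have hD4 : (2 ^ (j + 2) : ℕ) = 4 * D := by rw [hD, pow_add]; ring
  rw [hD4] at hh
  rw [← hD]
  obtain ⟨M, hM⟩ : ∃ M : ℝ, M = 128 * ((4 * D : ℕ) : ℝ) ^ (3 / 4 : ℝ) := ⟨_, rfl⟩
  rw [← hM] at hh
  have hM0 : 0 < M := by
    have : (0:ℝ) < ((4 * D : ℕ) : ℝ) := by push_cast; linarith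
    rw [hM]
    positivity
  obtain ⟨u, hu⟩ : ∃ u : ℝ, u = (D:ℝ) ^ (-(5 / 4) : ℝ) := ⟨_, rfl⟩
  have hu0 : 0 < u := by rw [hu]; positivity
  obtain ⟨Y, hY⟩ : ∃ Y : ℝ, Y = 1 / (3 * M) := ⟨_, rfl⟩
  have hY0 : 0 < Y := by rw [hY]; positivity
  have h3MY : 3 * M * Y = 1 := by rw [hY]; field_simp
  set V : Finset Edg := (boxE N).filter (fun y => ds y er < 2 * D) with hV
  have her : er ∈ V := by
    rw [hV, mem_filter]
    refine ⟨mem_er hN, ?_⟩
    rw [ds_self]
    omega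
  set Q : Finset Edg → Prop := fun S => S.Nonempty ∧ Nat.log 2 (max 1 (dm (insert er S))) = j
    with hQ
  set w : Finset Edg → Edg → ℝ := fun S x =>
    if x = er ∧ Q (S.erase er) then |c (S.erase er)| / (a ^ S.card * u) else 0 with hw
  have hw0 : ∀ S x, 0 ≤ w S x := by
    intro S x
    simp only [hw]
    split_ifs
    · positivity
    · exact le_refl _
  have hwv : ∀ S, Q (S.erase er) → w S er = |c (S.erase er)| / (a ^ S.card * u) :=
    fun S hq => if_pos ⟨rfl, hq⟩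
  have hwz : ∀ S x, ¬ (x = er ∧ Q (S.erase er)) → w S x = 0 := fun S x hq => if_neg hq
  have hQ2 : ∀ S, Q S ↔ (S.Nonempty ∧ Nat.log 2 (max 1 (dm (insert er S))) = j) :=
    fun S => Iff.rfl
  clear hw hQ
  clear_value w
  clear_value Q
  have hlog : ∀ s : ℕ, Nat.log 2 (max 1 s) = j → D ≤ max 1 s ∧ max 1 s < 2 * D := by
    intro s hs
    constructor
    · rw [hD, ← hs]
      exact Nat.pow_log_le_self 2 (by omega)
    · have := Nat.lt_pow_succ_log_self (b := 2) (by norm_num) (max 1 s)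
      rw [hs, pow_succ] at this
      rw [hD]
      omega
  have htree := Pool.Agent.Y21.NE.tree V (fun y z => ps (ds y z)) w M Y
    (fun y z => (ps_pos _).le) (by
      intro z hz
      rw [hM]
      refine sum_ps V z (4 * D) ?_ ?_
      · omega
      · intro y hy
        rw [hV, mem_filter] at hy hz
        have h1 := ds_tri y er z
        rw [ds_comm er z] at h1
        omega) hY0.le h3MY.le (by
      intro S hS x hx
      by_cases hx2 : x = er ∧ Q (S.erase er)
      · obtain ⟨rfl, hq⟩ := hx2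
        have hSB : S.erase er ⊆ boxE N := (erase_subset _ _).trans (hS.trans (filter_subset _ _))
        have hq' := (hQ2 _).1 hq
        obtain ⟨par, rk, h1, h2⟩ := hc (S.erase er) hSB (notMem_erase _ _) hq'.1
        rw [insert_erase hx] at h1 h2
        refine ⟨par, rk, h1, ?_⟩
        rw [hwv S hq, div_le_iff₀ (mul_pos (pow_pos (by linarith) _) hu0)]
        have h3 : ps (dm S) ≤ u := by
          have h4 := hq'.2
          rw [insert_erase hx] at h4
          have h5 := (hlog _ h4).1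
          unfold ps
          rw [hu]
          refine Real.rpow_le_rpow_of_nonpos hD0 ?_ (by norm_num)
          exact_mod_cast h5
        have h6 : 0 ≤ ∏ y ∈ S.erase er, ps (ds y (par y)) := prod_nonneg fun y _ => (ps_pos _).le
        calc |c (S.erase er)| ≤ a ^ S.card * (∏ y ∈ S.erase er, ps (ds y (par y))) * ps (dm S) := h2
          _ ≤ a ^ S.card * (∏ y ∈ S.erase er, ps (ds y (par y))) * u :=
              mul_le_mul_of_nonneg_left h3 (mul_nonneg (pow_nonneg ha0.le _) h6)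
          _ = _ := by ring
      · refine ⟨fun _ => x, fun y => if y = x then 0 else 1, ?_, ?_⟩
        · intro y _ hyx
          refine ⟨hx, ?_⟩
          show (if x = x then 0 else 1) < (if y = x then 0 else 1)
          rw [if_pos rfl, if_neg hyx]
          norm_num
        · rw [hwz S x hx2]
          exact prod_nonneg fun y _ => (ps_pos _).le) er her
  -- comparison
  obtain ⟨y0, hy0⟩ : ∃ y0 : ℝ, y0 = 2 * |h| * a := ⟨_, rfl⟩
  rw [← hy0] at hh
  have hy0Y : y0 ≤ Y := by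
    rw [hY, le_div_iff₀ (by positivity)]
    linarith
  set T := ((boxE N).powerset.filter (fun S => er ∉ S ∧ 2 ≤ S.card)).filter
      (fun S => Nat.log 2 (max 1 (dm (insert er S))) = j) with hT
  have hterm : ∀ S ∈ T, |2 * h| ^ S.card * |c S| ≤
      (a * u * (y0 ^ 2 / Y ^ 3)) * (Y ^ (insert er S).card * w (insert er S) er) := by
    intro S hS
    rw [hT, mem_filter, mem_filter, mem_powerset] at hS
    obtain ⟨⟨h1, h2, h3⟩, h4⟩ := hS
    have hne : S.Nonempty := by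
      rw [← card_pos]
      omega
    have h5 : |2 * h| = 2 * |h| := by rw [abs_mul]; norm_num
    have h6 := hwv (insert er S) (by
      rw [erase_insert h2]
      exact (hQ2 S).2 ⟨hne, h4⟩)
    rw [h6, erase_insert h2, card_insert_of_notMem h2, h5]
    exact cmpw h3 (by linarith) hu0 hY0 hy0Y (abs_nonneg _) (by positivity) hy0
  calc ∑ S ∈ T, |2 * h| ^ S.card * |c S|
      ≤ ∑ S ∈ T, (a * u * (y0 ^ 2 / Y ^ 3)) * (Y ^ (insert er S).card * w (insert er S) er) :=
        sum_le_sum hterm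
    _ = (a * u * (y0 ^ 2 / Y ^ 3)) * ∑ S ∈ T, Y ^ (insert er S).card * w (insert er S) er := by
        rw [mul_sum]
    _ ≤ (a * u * (y0 ^ 2 / Y ^ 3)) * (3 * Y) := by
        refine mul_le_mul_of_nonneg_left ?_ (by positivity)
        refine le_trans ?_ htree
        have hinj : Set.InjOn (fun S : Finset Edg => insert er S) (T : Set (Finset Edg)) := by
          intro S hS S' hS' he
          have h1 : er ∉ S := by
            have := mem_coe.1 hS
            rw [hT, mem_filter, mem_filter] at this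
            exact this.1.2.1
          have h2 : er ∉ S' := by
            have := mem_coe.1 hS'
            rw [hT, mem_filter, mem_filter] at this
            exact this.1.2.1
          have h3 := congrArg (fun S => erase S er) he
          simp only [erase_insert h1, erase_insert h2] at h3
          exact h3
        rw [← sum_image (f := fun S => Y ^ S.card * w S er) hinj]
        refine sum_le_sum_of_subset_of_nonneg ?_ fun S _ _ =>
          mul_nonneg (by positivity) (hw0 _ _)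
        intro S' hS'
        obtain ⟨S, hS, rfl⟩ := mem_image.1 hS'
        rw [hT, mem_filter, mem_filter, mem_powerset] at hS
        obtain ⟨⟨h1, h2, h3⟩, h4⟩ := hS
        rw [mem_filter, mem_powerset]
        refine ⟨?_, mem_insert_self _ _⟩
        intro y hy
        rcases mem_insert.1 hy with h5 | h5
        · rw [h5]; exact her
        · rw [hV, mem_filter]
          refine ⟨h1 h5, ?_⟩
          have h6 := (hlog _ h4).2
          have h7 : ds y er ≤ dm (insert er S) :=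
            ds_le_dm (mem_insert_of_mem h5) (mem_insert_self _ _)
          omega
    _ = 108 * a ^ 3 * 128 ^ 2 * 8 * (h ^ 2 * (D : ℝ) ^ (1 / 4 : ℝ)) := by
        have e1 : (a * u * (y0 ^ 2 / Y ^ 3)) * (3 * Y) = 27 * a * u * y0 ^ 2 * M ^ 2 := by
          rw [hY]
          field_simp
          ring
        have e2 : u * M ^ 2 = 128 ^ 2 * 8 * (D : ℝ) ^ (1 / 4 : ℝ) := by
          have e3 : (((4 * D : ℕ) : ℝ) ^ (3 / 4 : ℝ)) ^ 2 = 8 * (D : ℝ) ^ (3 / 2 : ℝ) := by
            rw [← Real.rpow_natCast, ← Real.rpow_mul (by positivity)]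
            push_cast
            rw [Real.mul_rpow (by norm_num) hD0.le]
            have e4 : (4 : ℝ) ^ (3 / 4 * 2 : ℝ) = 8 := by
              have : (4 : ℝ) = 2 ^ (2:ℝ) := by norm_num
              rw [this, ← Real.rpow_mul (by norm_num)]
              norm_num
            rw [e4]
            norm_num
          have e5 : (D : ℝ) ^ (1 / 4 : ℝ) = (D:ℝ) ^ (-(5 / 4) : ℝ) * (D : ℝ) ^ (3 / 2 : ℝ) := by
            rw [← Real.rpow_add hD0]
            norm_num
          rw [hM, mul_pow, e3, hu, e5]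
          ring
        have e6 : y0 ^ 2 = 4 * a ^ 2 * h ^ 2 := by
          rw [hy0, mul_pow, mul_pow, sq_abs]
          ring
        rw [e1]
        calc 27 * a * u * y0 ^ 2 * M ^ 2 = 27 * a * y0 ^ 2 * (u * M ^ 2) := by ring
          _ = _ := by rw [e2, e6]; ring

theorem sumk : S_SUMK := by
  classical
  intro a ha
  have ha0 : 0 < a := by linarith
  refine ⟨1 / (6 * 128 * 8 * a), 108 * a ^ 3 * 128 ^ 2 * 8 * 16 + 256 * a ^ 2, by positivity,
    by positivity, ?_⟩
  intro N hN c hc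
  have hN0 : (0:ℝ) < N := by exact_mod_cast hN
  refine ⟨?_, ?_⟩
  · intro h hh
    set J := Nat.log 2 (2 * N) with hJ
    have h2J : 2 ^ J ≤ 2 * N := Nat.pow_log_le_self 2 (by omega)
    have hmaps : ∀ S ∈ (boxE N).powerset.filter (fun S => er ∉ S ∧ 2 ≤ S.card),
        Nat.log 2 (max 1 (dm (insert er S))) ∈ range (J + 1) := by
      intro S hS
      rw [mem_filter, mem_powerset] at hS
      rw [mem_range, Nat.lt_succ_iff, hJ]
      refine Nat.log_mono_right (max_le (by omega) ?_)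
      have h1 : insert er S ⊆ boxE N := insert_subset (mem_er hN) hS.1
      exact dm_le fun y hy z hz => ds_box (h1 hy) (h1 hz)
    rw [← sum_fiberwise_of_maps_to hmaps]
    have hone : ∀ j ∈ range (J + 1), ∑ S ∈ ((boxE N).powerset.filter
        (fun S => er ∉ S ∧ 2 ≤ S.card)).filter
        (fun S => Nat.log 2 (max 1 (dm (insert er S))) = j), |2 * h| ^ S.card * |c S| ≤
        108 * a ^ 3 * 128 ^ 2 * 8 * (h ^ 2 * (((2 ^ j : ℕ)) : ℝ) ^ (1 / 4 : ℝ)) := by
      intro j hj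
      refine scale ha hN c hc h j ?_
      rw [mem_range, Nat.lt_succ_iff] at hj
      have h1 : (2 ^ (j + 2) : ℕ) ≤ 8 * N := by
        have : 2 ^ j ≤ 2 ^ J := Nat.pow_le_pow_right (by norm_num) hj
        rw [pow_add]
        omega
      have h2 : (((2 ^ (j + 2) : ℕ)) : ℝ) ^ (3 / 4 : ℝ) ≤ 8 * (N:ℝ) ^ (3 / 4 : ℝ) := by
        calc (((2 ^ (j + 2) : ℕ)) : ℝ) ^ (3 / 4 : ℝ) ≤ ((8:ℝ) * N) ^ (3 / 4 : ℝ) :=
              Real.rpow_le_rpow (by positivity) (by exact_mod_cast h1) (by norm_num)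
          _ = (8:ℝ) ^ (3 / 4 : ℝ) * (N:ℝ) ^ (3 / 4 : ℝ) := Real.mul_rpow (by norm_num) hN0.le
          _ ≤ 8 * (N:ℝ) ^ (3 / 4 : ℝ) := by
              refine mul_le_mul_of_nonneg_right ?_ (by positivity)
              calc (8:ℝ) ^ (3 / 4 : ℝ) ≤ (8:ℝ) ^ (1 : ℝ) :=
                    Real.rpow_le_rpow_of_exponent_le (by norm_num) (by norm_num)
                _ = 8 := Real.rpow_one _
      have h3 : (N:ℝ) ^ (3 / 4 : ℝ) * (N:ℝ) ^ (-(3 / 4) : ℝ) = 1 := by
        rw [← Real.rpow_add hN0]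
        norm_num
      have h4 : 0 ≤ |h| := abs_nonneg h
      calc 6 * (128 * (((2 ^ (j + 2) : ℕ)) : ℝ) ^ (3 / 4 : ℝ)) * (2 * |h| * a)
          ≤ 6 * (128 * (8 * (N:ℝ) ^ (3 / 4 : ℝ))) *
            (2 * (1 / (6 * 128 * 8 * a) * (N:ℝ) ^ (-(3/4) : ℝ)) * a) := by gcongr
        _ = 2 * ((N:ℝ) ^ (3 / 4 : ℝ) * (N:ℝ) ^ (-(3 / 4) : ℝ)) := by
            field_simp
        _ ≤ 1 + 1 := by rw [h3]; norm_num
    refine (sum_le_sum hone).trans ?_
    rw [← mul_sum, ← mul_sum]
    have h1 := geo14 J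
    have h2 : (((2 : ℕ) ^ J : ℕ) : ℝ) ^ (1 / 4 : ℝ) ≤ 2 * (N : ℝ) ^ (1 / 4 : ℝ) := by
      calc (((2 : ℕ) ^ J : ℕ) : ℝ) ^ (1 / 4 : ℝ) ≤ ((2:ℝ) * N) ^ (1 / 4 : ℝ) :=
            Real.rpow_le_rpow (by positivity) (by exact_mod_cast h2J) (by norm_num)
        _ = (2:ℝ) ^ (1 / 4 : ℝ) * (N:ℝ) ^ (1 / 4 : ℝ) := Real.mul_rpow (by norm_num) hN0.le
        _ ≤ 2 * (N:ℝ) ^ (1 / 4 : ℝ) := by
            refine mul_le_mul_of_nonneg_right ?_ (by positivity)
            calc (2:ℝ) ^ (1 / 4 : ℝ) ≤ (2:ℝ) ^ (1 : ℝ) :=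
                  Real.rpow_le_rpow_of_exponent_le (by norm_num) (by norm_num)
              _ = 2 := Real.rpow_one _
    have h3 : ∑ j ∈ range (J + 1), (((2 ^ j : ℕ)) : ℝ) ^ (1 / 4 : ℝ) ≤
        16 * (N : ℝ) ^ (1 / 4 : ℝ) := by linarith
    calc 108 * a ^ 3 * 128 ^ 2 * 8 *
          (h ^ 2 * ∑ j ∈ range (J + 1), (((2 ^ j : ℕ)) : ℝ) ^ (1 / 4 : ℝ))
        ≤ 108 * a ^ 3 * 128 ^ 2 * 8 * (h ^ 2 * (16 * (N : ℝ) ^ (1 / 4 : ℝ))) := by gcongr
      _ = 108 * a ^ 3 * 128 ^ 2 * 8 * 16 * (h ^ 2 * (N:ℝ) ^ (1 / 4 : ℝ)) := by ring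
      _ ≤ (108 * a ^ 3 * 128 ^ 2 * 8 * 16 + 256 * a ^ 2) * (h ^ 2 * (N:ℝ) ^ (1 / 4 : ℝ)) := by
          refine mul_le_mul_of_nonneg_right ?_ (by positivity)
          have : 0 ≤ 256 * a ^ 2 := by positivity
          linarith
  · intro m hm
    have hm0 : (0:ℝ) < m := by exact_mod_cast hm
    have hterm : ∀ e ∈ (boxE N).filter (fun e => e ≠ er ∧ m ≤ ds e er),
        |c {e}| ≤ a ^ 2 * ps (ds e er) ^ 2 := by
      intro e he
      rw [mem_filter] at he
      obtain ⟨h1, h2, h3⟩ := he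
      obtain ⟨par, rk, h4, h5⟩ := hc {e} (singleton_subset_iff.2 h1)
        (fun h => h2 (mem_singleton.1 h).symm) (singleton_nonempty e)
      have hne : er ∉ ({e} : Finset Edg) := fun h => h2 (mem_singleton.1 h).symm
      rw [card_insert_of_notMem hne, card_singleton, erase_insert hne, prod_singleton] at h5
      have h6 := h4 e (mem_insert_of_mem (mem_singleton_self e)) h2
      have h7 : par e = er := by
        rcases mem_insert.1 h6.1 with h | h
        · exact h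
        · rw [mem_singleton] at h
          rw [h] at h6
          omega
      rw [h7] at h5
      have h8 : ps (dm (insert er {e})) ≤ ps (ds e er) :=
        ps_anti (ds_le_dm (mem_insert_of_mem (mem_singleton_self e)) (mem_insert_self _ _))
      calc |c {e}| ≤ a ^ (1 + 1) * ps (ds e er) * ps (dm (insert er {e})) := h5
        _ ≤ a ^ (1 + 1) * ps (ds e er) * ps (ds e er) :=
            mul_le_mul_of_nonneg_left h8 (mul_nonneg (by positivity) (ps_pos _).le)
        _ = a ^ 2 * ps (ds e er) ^ 2 := by ring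
    calc ∑ e ∈ (boxE N).filter (fun e => e ≠ er ∧ m ≤ ds e er), |c {e}|
        ≤ ∑ e ∈ (boxE N).filter (fun e => e ≠ er ∧ m ≤ ds e er), a ^ 2 * ps (ds e er) ^ 2 :=
          sum_le_sum hterm
      _ = a ^ 2 * ∑ e ∈ (boxE N).filter (fun e => e ≠ er ∧ m ≤ ds e er), ps (ds e er) ^ 2 := by
          rw [mul_sum]
      _ ≤ a ^ 2 * (256 * (m:ℝ) ^ (-(1 / 2) : ℝ)) :=
          mul_le_mul_of_nonneg_left
            (sum_ps_sq _ er m hm fun y hy => (mem_filter.1 hy).2.2) (by positivity)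
      _ ≤ _ := by
          have h9 : 0 ≤ (m:ℝ) ^ (-(1 / 2) : ℝ) := by positivity
          have h10 : 0 ≤ 108 * a ^ 3 * 128 ^ 2 * 8 * 16 := by positivity
          nlinarith [mul_nonneg h10 h9]

end Pool.Agent.V11321.AL.Sm

namespace Pool.Agent.V11321.AL

/-- WAL -/
theorem wal : S_WAL := Sm.wal

/-- SUM -/
theorem sumk : S_SUMK := Sm.sumk

end Pool.Agent.V11321.AL
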