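import Pool.Agent.V11321.AL.Fin
import Pool.Agent.V11321.AL.Kap
import Pool.Agent.V11321.AL.Sum
import Pool.Agent.H974R2.Infinite

/-!
Project AL: the final statement in terms of the percolation model.
-/

set_option autoImplicit false

namespace Pool.Agent.V11321.AL

open H974 H12S Finset Filter Topology MeasureTheory

/-- The vertices of the `n × n` box. -/
def Bx (n : ℕ) : Set (ℤ × ℤ) := {v | (0 ≤ v.1 ∧ v.1 < n) ∧ (0 ≤ v.2 ∧ v.2 < n)}

/-- The number of clusters of the box. -/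
noncomputable def numC (n : ℕ) (ω : sqLattice.edgeSet → Bool) : ℕ :=
  Nat.card ((openGraph ω).induce (Bx n)).ConnectedComponent

theorem edge_bx {n : ℕ} {e : Edg} (h1 : src e ∈ Bx n) (h2 : tgt e ∈ Bx n) : e ∈ bxE n := by
  unfold bxE
  unfold Bx at h1 h2
  obtain ⟨x, y, _ | _⟩ := e
  · rw [mem_RE_false]
    simp only [src_mk, tgt_false, Set.mem_ofPred_eq] at h1 h2
    omega
  · rw [mem_RE_true]
    simp only [src_mk, tgt_true, Set.mem_ofPred_eq] at h1 h2
    omega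

theorem bx_edge {n : ℕ} {e : Edg} (h : e ∈ bxE n) : src e ∈ Bx n ∧ tgt e ∈ Bx n := by
  obtain ⟨h1, h2⟩ := ends_bx h
  rw [mem_bxV] at h1 h2
  exact ⟨⟨⟨h1.1.1, by omega⟩, ⟨h1.2.1, by omega⟩⟩, ⟨⟨h2.1.1, by omega⟩, ⟨h2.2.1, by omega⟩⟩⟩

theorem reach_bx {n : ℕ} {ω : sqLattice.edgeSet → Bool} {u w : ℤ × ℤ} (hu : u ∈ Bx n)
    (h : Reach (↑(FF (bxE n) ω) : Set Edg) u w) :
    ∃ hw : w ∈ Bx n, ((openGraph ω).induce (Bx n)).Reachable ⟨u, hu⟩ ⟨w, hw⟩ := by
  induction h with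
  | refl => exact ⟨hu, SimpleGraph.Reachable.refl _⟩
  | @tail y z _ hs ih =>
    obtain ⟨hy, hr⟩ := ih
    obtain ⟨e, he, hc⟩ := hs
    rw [mem_coe, mem_FF] at he
    have hb := bx_edge he.1
    have hz : z ∈ Bx n := by
      rcases hc with ⟨_, h2⟩ | ⟨h2, _⟩
      · exact h2 ▸ hb.2
      · exact h2 ▸ hb.1
    refine ⟨hz, hr.trans (SimpleGraph.Adj.reachable ?_)⟩
    show (openGraph ω).Adj y z
    rw [openGraph_adj]
    exact ⟨e, he.2, hc⟩

theorem bx_reach {n : ℕ} {ω : sqLattice.edgeSet → Bool} {u w : ↥(Bx n)}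
    (h : ((openGraph ω).induce (Bx n)).Reachable u w) :
    Reach (↑(FF (bxE n) ω) : Set Edg) u.1 w.1 := by
  rw [SimpleGraph.reachable_iff_reflTransGen] at h
  induction h with
  | refl => exact Reach.refl _ _
  | @tail y z _ hs ih =>
    have h1 : (openGraph ω).Adj y.1 z.1 := hs
    rw [openGraph_adj] at h1
    obtain ⟨e, he, hc⟩ := h1
    refine ih.trans (Adj.reach ⟨e, ?_, hc⟩)
    rw [mem_coe, mem_FF]
    refine ⟨edge_bx ?_ ?_, he⟩
    · rcases hc with ⟨h2, _⟩ | ⟨h2, _⟩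
      · exact h2 ▸ y.2
      · exact h2 ▸ z.2
    · rcases hc with ⟨_, h2⟩ | ⟨_, h2⟩
      · exact h2 ▸ z.2
      · exact h2 ▸ y.2

theorem numC_eq (n : ℕ) (ω : sqLattice.edgeSet → Bool) : numC n ω = K n (FF (bxE n) ω) := by
  classical
  obtain ⟨H, hH⟩ : ∃ H, H = (openGraph ω).induce (Bx n) := ⟨_, rfl⟩
  obtain ⟨φ, hφ⟩ : ∃ φ : H.ConnectedComponent → Set Vtx, φ = fun c => Subtype.val '' c.supp :=
    ⟨_, rfl⟩
  have hinj : Function.Injective φ := by
    intro c d h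
    rw [hφ] at h
    exact SimpleGraph.ConnectedComponent.supp_injective
      (Set.image_injective.mpr Subtype.val_injective h)
  have hmk : ∀ v : ↥(Bx n), φ (H.connectedComponentMk v) =
      {u | Reach (↑(FF (bxE n) ω) : Set Edg) v.1 u} := by
    intro v
    rw [hφ]
    ext u
    constructor
    · rintro ⟨w, hw, rfl⟩
      have h1 : H.Reachable w v := SimpleGraph.ConnectedComponent.exact
        (SimpleGraph.ConnectedComponent.mem_supp_iff _ _ |>.1 hw)
      subst hH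
      exact (bx_reach h1).symm
    · intro hu
      obtain ⟨hw, h1⟩ := reach_bx v.2 hu
      refine ⟨⟨u, hw⟩, ?_, rfl⟩
      rw [SimpleGraph.ConnectedComponent.mem_supp_iff]
      subst hH
      exact SimpleGraph.ConnectedComponent.sound h1.symm
  have hset : {C : Set Vtx | ∃ v ∈ bxV n, C = {u | Reach (↑(FF (bxE n) ω) : Set Edg) v u}} =
      φ '' Set.univ := by
    ext C
    constructor
    · rintro ⟨v, hv, rfl⟩
      rw [mem_bxV] at hv
      have hv' : v ∈ Bx n := ⟨⟨hv.1.1, by omega⟩, ⟨hv.2.1, by omega⟩⟩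
      exact ⟨H.connectedComponentMk ⟨v, hv'⟩, Set.mem_univ _, hmk ⟨v, hv'⟩⟩
    · rintro ⟨c, -, rfl⟩
      induction c using SimpleGraph.ConnectedComponent.ind with
      | h v =>
        refine ⟨v.1, ?_, hmk v⟩
        have := v.2
        rw [mem_bxV]
        exact ⟨⟨this.1.1, by have := this.1.2; omega⟩, ⟨this.2.1, by have := this.2.2; omega⟩⟩
  unfold K numC
  rw [hset, Set.ncard_image_of_injective _ hinj, Set.ncard_univ, hH]

theorem law_mean (p : unitInterval) (S : Finset Edg) (f : Finset Edg → ℝ) :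
    ∫ ω, f (FF S ω) ∂(bondLaw p) = Ex (fun _ => (p:ℝ)) S f := by
  classical
  have h1 : ∀ ω, f (FF S ω) = ∑ T ∈ S.powerset,
      Set.indicator {ω | FF S ω = T} (fun _ => f T) ω := by
    intro ω
    rw [Finset.sum_eq_single (FF S ω)]
    · rw [Set.indicator_of_mem (by rfl)]
    · intro T _ hT
      rw [Set.indicator_of_notMem]
      intro h
      exact hT (Eq.symm h)
    · intro h
      exact absurd (Finset.mem_powerset.2 (Finset.filter_subset _ _)) h
  simp_rw [h1]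
  rw [integral_finsetSum _ (fun T _ => (integrable_const (f T)).indicator (meas_FF S T))]
  unfold Ex
  apply Finset.sum_congr rfl
  intro T hT
  rw [integral_indicator_const _ (meas_FF S T), law_eq p (Finset.mem_powerset.1 hT), smul_eq_mul]

theorem law_numC (p : unitInterval) (n : ℕ) :
    ∫ ω, (numC n ω : ℝ) ∂(bondLaw p) = Ex (fun _ => (p:ℝ)) (bxE n) (fun F => (K n F : ℝ)) := by
  rw [← law_mean]
  simp_rw [numC_eq]

theorem exp_full : S_EXP := expn wal sumk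

/-- **The expansion of the mean cluster density at the critical point.** -/
theorem final : ∃ κ : ℝ → ℝ,
    (∀ p : unitInterval, Tendsto (fun n : ℕ => (∫ ω, (numC n ω : ℝ) ∂(bondLaw p)) / (n:ℝ) ^ 2)
      atTop (𝓝 (κ p))) ∧
    (∀ p ∈ Set.Ioo (0:ℝ) 1, DifferentiableAt ℝ κ p) ∧
    ContinuousOn (deriv κ) (Set.Ioo 0 1) ∧
    DifferentiableAt ℝ (deriv κ) (1/2) ∧
    ∃ C : ℝ, 0 < C ∧
      (∀ p ∈ Set.Icc (0:ℝ) 1,
        |κ p - κ (1/2) - deriv κ (1/2) * (p - 1/2) - deriv (deriv κ) (1/2) / 2 * (p - 1/2) ^ 2| ≤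
          C * |p - 1/2| ^ (8/3 : ℝ)) ∧
      (∀ p ∈ Set.Ioo (0:ℝ) 1,
        |deriv κ p - deriv κ (1/2) - deriv (deriv κ) (1/2) * (p - 1/2)| ≤
          C * |p - 1/2| ^ (5/3 : ℝ)) := by
  obtain ⟨a, C, hC, h⟩ := expgg exp_full
  have hd1 : deriv kap0 (1/2) = -(2 * (1 - gg (1/2))) :=
    kap0_deriv_eq (by norm_num : (1/2:ℝ) ∈ Set.Ioo (0:ℝ) 1)
  have hd2 : deriv (deriv kap0) (1/2) = 2 * a := (kap0_second h).deriv
  refine ⟨kap0, fun p => ?_, fun p hp => (kap0_deriv hp).differentiableAt, ?_,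
    (kap0_second h).differentiableAt, 2 * C, by positivity, fun p hp => ?_, fun p hp => ?_⟩
  · simp_rw [law_numC]
    exact kap gg (fun q hq => G_tendsto hq.1 hq.2) p p.2
  · have h1 : ContinuousOn (fun q => -(2 * (1 - gg q))) (Set.Ioo 0 1) :=
      (gg_cont'.mono Set.Ioo_subset_Icc_self).neg
    exact h1.congr fun q hq => kap0_deriv_eq hq
  · rw [hd1, hd2]
    exact kap0_bound hC.le h hp
  · rw [hd1, hd2, kap0_deriv_eq hp]
    have h1 := h (p - 1/2) (by rw [abs_le]; constructor <;> linarith [hp.1, hp.2])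
    rw [show (1/2 : ℝ) + (p - 1/2) = p by ring] at h1
    have h2 : -(2 * (1 - gg p)) - -(2 * (1 - gg (1/2))) - 2 * a * (p - 1/2) =
        2 * (gg p - gg (1/2) - a * (p - 1/2)) := by ring
    rw [h2, abs_mul, abs_of_pos (by norm_num : (0:ℝ) < 2)]
    linarith

end Pool.Agent.V11321.AL
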