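import Pool.Agent.Y554.NE.Stm

/-!
Project AL: the singular part of the mean cluster density `κ(p)` of bond percolation on `ℤ²` at
`p = 1/2` is at most of order `|p - 1/2| ^ (8/3)` (upper bound for `2 - α = 8/3`).
Definitions and statements of the parts.
-/

set_option autoImplicit false

namespace Pool.Agent.V11321.AL

open H974 H12S Finset Pool.Agent.Y554.NE Filter Topology

/-- The root edge. -/
def er : Edg := (0, 0, true)

/-- The ends of `e` are connected in `F` without `e`. -/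
def Loop (e : Edg) (F : Set Edg) : Prop := Reach (F \ {e}) (src e) (tgt e)

/-- Its probability for the root edge, in the box of radius `M`. -/
noncomputable def G (M : ℕ) (q : ℝ) : ℝ := Pr (fun _ => q) (boxE M) (fun F => Loop er ↑F)

/-! ### the number of clusters -/

/-- Vertices of the `n × n` box. -/
noncomputable def bxV (n : ℕ) : Finset Vtx := Icc 0 ((n:ℤ) - 1) ×ˢ Icc 0 ((n:ℤ) - 1)

/-- Edges of the `n × n` box. -/
noncomputable def bxE (n : ℕ) : Finset Edg := RE 0 ((n:ℤ) - 1) 0 ((n:ℤ) - 1)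

/-- Number of clusters of the `n × n` box if `F` is the set of its open edges. -/
noncomputable def K (n : ℕ) (F : Finset Edg) : ℕ :=
  Set.ncard {C : Set Vtx | ∃ v ∈ bxV n, C = {u | Reach (↑F : Set Edg) v u}}

/-- KAP: the mean cluster density. -/
def S_KAP : Prop := ∀ g : ℝ → ℝ,
    (∀ q ∈ Set.Icc (0:ℝ) 1, Tendsto (fun M : ℕ => G M q) atTop (𝓝 (g q))) →
    ∀ q ∈ Set.Icc (0:ℝ) 1,
      Tendsto (fun n : ℕ => Ex (fun _ => q) (bxE n) (fun F => (K n F : ℝ)) / (n:ℝ) ^ 2) atTop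
        (𝓝 (1 - ∫ s in (0:ℝ)..q, 2 * (1 - g s)))

/-! ### joint pivotality -/

/-- Four-arm bound. -/
noncomputable def ps (s : ℕ) : ℝ := ((max 1 s : ℕ) : ℝ) ^ (-(5 / 4) : ℝ)

/-- Tree bound for a set of edges which contains `er`. -/
def TB (a : ℝ) (S : Finset Edg) (v : ℝ) : Prop := ∃ (par : Edg → Edg) (rk : Edg → ℕ),
  (∀ y ∈ S, y ≠ er → par y ∈ S ∧ rk (par y) < rk y) ∧
    v ≤ a ^ S.card * (∏ y ∈ S.erase er, ps (ds y (par y))) * ps (dm S)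

/-- Walsh coefficients of the root event in the box of radius `M` at `1/2`. -/
noncomputable def cf (M : ℕ) (S : Finset Edg) : ℝ :=
  Ex (fun _ => (1/2 : ℝ)) (boxE M)
    (fun F => (∏ e ∈ S, (if e ∈ F then (1:ℝ) else -1)) * ind (Loop er ↑F))

/-- The root event with parameter `1/2 + h` in the box of radius `N`, `1/2` outside. -/
noncomputable def AN (N M : ℕ) (h : ℝ) : ℝ :=
  Ex (fun e => if e ∈ boxE N then 1/2 + h else 1/2) (boxE M) (fun F => ind (Loop er ↑F))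

/-- WAL: Walsh expansion. -/
def S_WAL : Prop := ∀ (N M : ℕ) (h : ℝ), N ≤ M →
  AN N M h = ∑ S ∈ (boxE N).powerset, (2 * h) ^ S.card * cf M S ∧
    ∀ S, er ∈ S → cf M S = 0

/-- KEY: bound for the Walsh coefficients. -/
def S_KEYK : Prop := ∃ a : ℝ, 1 ≤ a ∧ ∀ (N M : ℕ), 1 ≤ N → 4 * N + 8 ≤ M →
  ∀ S ⊆ boxE N, er ∉ S → S.Nonempty → TB a (insert er S) |cf M S|

/-- SUM: sum over the sets which carry a tree. -/
def S_SUMK : Prop := ∀ a : ℝ, 1 ≤ a → ∃ b C : ℝ, 0 < b ∧ 0 < C ∧ ∀ (N : ℕ), 1 ≤ N →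
  ∀ c : Finset Edg → ℝ, (∀ S ⊆ boxE N, er ∉ S → S.Nonempty → TB a (insert er S) |c S|) →
    (∀ h : ℝ, |h| ≤ b * (N:ℝ) ^ (-(3/4) : ℝ) →
      ∑ S ∈ (boxE N).powerset.filter (fun S => er ∉ S ∧ 2 ≤ S.card), |2 * h| ^ S.card * |c S| ≤
        C * (h ^ 2 * (N:ℝ) ^ (1/4 : ℝ))) ∧
    (∀ m : ℕ, 1 ≤ m → ∑ e ∈ (boxE N).filter (fun e => e ≠ er ∧ m ≤ ds e er), |c {e}| ≤
      C * (m:ℝ) ^ (-(1/2) : ℝ))

/-- OUT: the effect of the parameter outside of the box of radius `N`. -/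
def S_OUTK : Prop := ∃ b C : ℝ, 0 < b ∧ 0 < C ∧ ∀ (N M : ℕ) (h : ℝ), 1 ≤ N → N ≤ M →
  |h| ≤ b * (N:ℝ) ^ (-(3/4) : ℝ) → |G M (1/2 + h) - AN N M h| ≤ C * (N:ℝ) ^ (-(5/4) : ℝ)

/-- The expansion of the limit of `G`. -/
def S_EXP : Prop := ∃ g : ℝ → ℝ,
  (∀ q ∈ Set.Icc (0:ℝ) 1, Tendsto (fun M : ℕ => G M q) atTop (𝓝 (g q))) ∧
  ∃ a C : ℝ, 0 < C ∧ ∀ h : ℝ, |h| ≤ 1/2 →
    |g (1/2 + h) - g (1/2) - a * h| ≤ C * |h| ^ (5/3 : ℝ)

end Pool.Agent.V11321.AL
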